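import Pool.Agent.Q62.PE.Weak

/-! The lemma of Brezis and Lieb, and convergence almost everywhere. -/

open MeasureTheory Set Filter Topology
open scoped ENNReal NNReal ContDiff

namespace Pool.Agent.Q62.PE

open Pool.Agent.Q62.PC

theorem sub_rpow_le {q : ℝ} (hq : 1 ≤ q) (a b : ℝ) :
    |a - b| ^ q ≤ 2 ^ (q - 1) * (|a| ^ q + |b| ^ q) :=
  (Real.rpow_le_rpow (abs_nonneg _) (abs_sub a b) (by linarith)).trans
    (add_rpow_le hq (abs_nonneg a) (abs_nonneg b))

theorem int_sub_pow {N : ℕ} {q : ℝ} (hq : 1 ≤ q) {a b : E N → ℝ}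
    (ma : AEStronglyMeasurable a (volume : Measure (E N)))
    (mb : AEStronglyMeasurable b (volume : Measure (E N)))
    (ha : Integrable (fun x => |a x| ^ q) (volume : Measure (E N)))
    (hb : Integrable (fun x => |b x| ^ q) (volume : Measure (E N))) :
    Integrable (fun x => |a x - b x| ^ q) (volume : Measure (E N)) ∧
      pwr q (fun x => a x - b x) ≤ 2 ^ (q - 1) * (pwr q a + pwr q b) := by
  have hi : Integrable (fun x => |a x - b x| ^ q) (volume : Measure (E N)) := by
    refine ((ha.add hb).const_mul (2 ^ (q - 1))).mono' ?_ (Eventually.of_forall fun x => ?_)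
    · exact (((ma.sub mb).aemeasurable.norm).pow_const q).aestronglyMeasurable
    · rw [Real.norm_eq_abs, abs_of_nonneg (by positivity)]
      exact sub_rpow_le hq _ _
  refine ⟨hi, ?_⟩
  unfold pwr
  rw [← integral_add ha hb, ← integral_const_mul]
  exact integral_mono hi ((ha.add hb).const_mul _) fun x => sub_rpow_le hq _ _

/-- the lemma of Brezis and Lieb -/
theorem brezis_lieb {N : ℕ} {q : ℝ} (hq : 1 < q) {f : ℕ → E N → ℝ} {f0 : E N → ℝ}
    (mf : ∀ n, AEStronglyMeasurable (f n) (volume : Measure (E N)))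
    (m0 : AEStronglyMeasurable f0 (volume : Measure (E N)))
    (hf : ∀ n, Integrable (fun x => |f n x| ^ q) (volume : Measure (E N)))
    (h0 : Integrable (fun x => |f0 x| ^ q) (volume : Measure (E N))) {M : ℝ}
    (hM : ∀ n, pwr q (f n) ≤ M)
    (hae : ∀ᵐ x ∂(volume : Measure (E N)), Tendsto (fun n => f n x) atTop (𝓝 (f0 x))) :
    Tendsto (fun n => pwr q (f n) - pwr q (fun x => f n x - f0 x)) atTop (𝓝 (pwr q f0)) := by
  have hd := fun n => int_sub_pow hq.le (mf n) m0 (hf n) h0
  set B : ℝ := 2 ^ (q - 1) * (M + pwr q f0) with hB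
  have hdB : ∀ n, pwr q (fun x => f n x - f0 x) ≤ B := fun n =>
    (hd n).2.trans (mul_le_mul_of_nonneg_left (by linarith [hM n]) (by positivity))
  have hp0 : ∀ w : E N → ℝ, 0 ≤ pwr q w := fun w => integral_nonneg fun x => by positivity
  have hB0 : 0 ≤ B := (hp0 _).trans (hdB 0)
  set D : ℕ → E N → ℝ := fun n x => |(|f n x| ^ q - |f n x - f0 x| ^ q - |f0 x| ^ q)| with hD
  have iD : ∀ n, Integrable (D n) (volume : Measure (E N)) := fun n =>
    (((hf n).sub (hd n).1).sub h0).abs
  have hdiff : ∀ n, |pwr q (f n) - pwr q (fun x => f n x - f0 x) - pwr q f0| ≤ ∫ x, D n x := by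
    intro n
    unfold pwr
    have e : (∫ x, |f n x| ^ q) - (∫ x, |f n x - f0 x| ^ q) - ∫ x, |f0 x| ^ q =
        ∫ x, (|f n x| ^ q - |f n x - f0 x| ^ q - |f0 x| ^ q) := by
      have i1 : Integrable (fun x => |f n x| ^ q - |f n x - f0 x| ^ q)
        (volume : Measure (E N)) := (hf n).sub (hd n).1
      rw [integral_sub i1 h0, integral_sub (hf n) (hd n).1]
    rw [e]
    exact abs_integral_le_integral_abs
  have hlim : Tendsto (fun n => ∫ x, D n x) atTop (𝓝 0) := by
    rw [Metric.tendsto_atTop]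
    intro e he
    set e' : ℝ := e / (2 * (B + 1)) with he'
    have he'0 : 0 < e' := by positivity
    obtain ⟨C, hC0, hC⟩ := bl_ineq hq he'0
    set W : ℕ → E N → ℝ := fun n x => max (D n x - e' * |f n x - f0 x| ^ q) 0 with hW
    have hWle : ∀ n x, W n x ≤ C * |f0 x| ^ q := by
      intro n x
      refine max_le ?_ (by positivity)
      have := hC (f n x - f0 x) (f0 x)
      rw [sub_add_cancel] at this
      simp only [hD]
      linarith
    have hWm : ∀ n, AEStronglyMeasurable (W n) (volume : Measure (E N)) := by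
      intro n
      have h1 : Integrable (fun x => D n x - e' * |f n x - f0 x| ^ q) (volume : Measure (E N)) :=
        (iD n).sub ((hd n).1.const_mul e')
      exact (h1.pos_part).1
    have hWlim : Tendsto (fun n => ∫ x, W n x) atTop (𝓝 0) := by
      have h1 := tendsto_integral_of_dominated_convergence (μ := (volume : Measure (E N)))
        (F := W) (f := fun _ => (0 : ℝ)) (fun x => C * |f0 x| ^ q) hWm (h0.const_mul C)
        (fun n => Eventually.of_forall fun x => by
          rw [Real.norm_eq_abs, abs_of_nonneg (le_max_right _ _)]; exact hWle n x) ?_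
      · simpa using h1
      · filter_upwards [hae] with x hx
        have t1 : Tendsto (fun n => |f n x| ^ q) atTop (𝓝 (|f0 x| ^ q)) :=
          hx.abs.rpow_const (Or.inr (by linarith))
        have t2 : Tendsto (fun n => |f n x - f0 x| ^ q) atTop (𝓝 0) := by
          have h2 := ((hx.sub_const (f0 x)).abs).rpow_const (p := q) (Or.inr (by linarith))
          rwa [sub_self, abs_zero, Real.zero_rpow (by linarith)] at h2
        have t3 : Tendsto (fun n => D n x - e' * |f n x - f0 x| ^ q) atTop (𝓝 0) := by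
          have h2 := (((t1.sub t2).sub_const (|f0 x| ^ q)).abs).sub (t2.const_mul e')
          simpa using h2
        have t4 := t3.max (tendsto_const_nhds (x := (0 : ℝ)))
        rwa [max_self] at t4
    have hDW : ∀ n, ∫ x, D n x ≤ (∫ x, W n x) + e' * B := by
      intro n
      have iW : Integrable (W n) (volume : Measure (E N)) := by
        have h1 : Integrable (fun x => D n x - e' * |f n x - f0 x| ^ q)
          (volume : Measure (E N)) := (iD n).sub ((hd n).1.const_mul e')
        exact h1.pos_part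
      have i2 : Integrable (fun x => e' * |f n x - f0 x| ^ q) (volume : Measure (E N)) :=
        (hd n).1.const_mul e'
      calc ∫ x, D n x ≤ ∫ x, (W n x + e' * |f n x - f0 x| ^ q) :=
            integral_mono (iD n) (iW.add i2) fun x => by
              have := le_max_left (D n x - e' * |f n x - f0 x| ^ q) 0
              simp only [hW]
              linarith
        _ = (∫ x, W n x) + e' * pwr q (fun x => f n x - f0 x) := by
            rw [integral_add iW i2, integral_const_mul]
            rfl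
        _ ≤ _ := by
            have := mul_le_mul_of_nonneg_left (hdB n) he'0.le
            linarith
    rw [Metric.tendsto_atTop] at hWlim
    obtain ⟨n0, hn0⟩ := hWlim (e / 2) (by positivity)
    refine ⟨n0, fun n hn => ?_⟩
    have h1 := hn0 n hn
    have hI0 : 0 ≤ ∫ x, D n x := integral_nonneg fun x => abs_nonneg _
    rw [Real.dist_eq, sub_zero] at h1 ⊢
    rw [abs_of_nonneg hI0]
    have h2 := hDW n
    have h3 : e' * B ≤ e / 2 := by
      rw [he', div_mul_eq_mul_div, div_le_div_iff₀ (by positivity) (by norm_num)]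
      nlinarith
    have h4 := le_abs_self (∫ x, W n x)
    linarith
  rw [tendsto_iff_dist_tendsto_zero]
  refine squeeze_zero (fun n => dist_nonneg) (fun n => ?_) hlim
  rw [Real.dist_eq]
  exact hdiff n

/-- convergence in `L^q` on balls implies convergence almost everywhere of a subsequence -/
theorem ae_subseq {N : ℕ} {q : ℝ} (hq : 0 < q) {f : ℕ → E N → ℝ} {f0 : E N → ℝ}
    (mf : ∀ n, AEStronglyMeasurable (f n) (volume : Measure (E N)))
    (m0 : AEStronglyMeasurable f0 (volume : Measure (E N)))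
    (h : ∀ R : ℝ, Tendsto (fun n => ∫⁻ x in Metric.ball 0 R, ‖f n x - f0 x‖ₑ ^ q) atTop (𝓝 0)) :
    ∃ φ : ℕ → ℕ, StrictMono φ ∧
      ∀ᵐ x ∂(volume : Measure (E N)), Tendsto (fun n => f (φ n) x) atTop (𝓝 (f0 x)) := by
  have hpos : ∀ k : ℕ, (0 : ℝ≥0∞) < (2⁻¹ : ℝ≥0∞) ^ k := fun k =>
    ENNReal.pow_pos (by norm_num) k
  obtain ⟨φ, hφ, hφ2⟩ := extraction_forall_of_eventually
    (P := fun k n => ∫⁻ x in Metric.ball 0 (k : ℝ), ‖f n x - f0 x‖ₑ ^ q ≤ (2⁻¹ : ℝ≥0∞) ^ k)
    (fun k => ((h k).eventually (gt_mem_nhds (hpos k))).mono fun n hn => hn.le)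
  refine ⟨φ, hφ, ?_⟩
  set F : ℕ → E N → ℝ≥0∞ := fun k =>
    (Metric.ball (0 : E N) (k : ℝ)).indicator fun x => ‖f (φ k) x - f0 x‖ₑ ^ q with hF
  have mF : ∀ k, AEMeasurable (F k) (volume : Measure (E N)) := fun k =>
    (((mf (φ k)).sub m0).aemeasurable.enorm.pow_const q).indicator Metric.isOpen_ball.measurableSet
  have hsum : ∫⁻ x, ∑' k, F k x ≠ ⊤ := by
    rw [lintegral_tsum mF]
    have h1 : ∑' k, ∫⁻ x, F k x ≤ ∑' k : ℕ, (2⁻¹ : ℝ≥0∞) ^ k := by
      refine ENNReal.tsum_le_tsum fun k => ?_
      rw [hF]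
      simp only
      rw [lintegral_indicator Metric.isOpen_ball.measurableSet]
      exact hφ2 k
    refine ne_top_of_le_ne_top ?_ h1
    rw [ENNReal.tsum_geometric]
    simp
  have hfin := ae_lt_top' (AEMeasurable.ennreal_tsum mF) hsum
  filter_upwards [hfin] with x hx
  have h1 := ENNReal.tendsto_atTop_zero_of_tsum_ne_top hx.ne
  have h2 : ∀ᶠ k in atTop, F k x = ‖f (φ k) x - f0 x‖ₑ ^ q := by
    filter_upwards [eventually_gt_atTop ⌈‖x‖⌉₊] with k hk
    have : x ∈ Metric.ball (0 : E N) (k : ℝ) := by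
      rw [mem_ball_zero_iff]
      exact (Nat.le_ceil _).trans_lt (by exact_mod_cast hk)
    simp only [hF]
    rw [indicator_of_mem this]
  have h3 : Tendsto (fun k => ‖f (φ k) x - f0 x‖ₑ ^ q) atTop (𝓝 0) := h1.congr' h2
  have h4 : Tendsto (fun k => ‖f (φ k) x - f0 x‖ₑ) atTop (𝓝 0) := by
    have h5 := ((ENNReal.continuous_rpow_const (y := q⁻¹)).tendsto 0).comp h3
    rw [ENNReal.zero_rpow_of_pos (by positivity)] at h5
    refine h5.congr fun k => ?_
    simp only [Function.comp_apply]
    rw [← ENNReal.rpow_mul, mul_inv_cancel₀ hq.ne', ENNReal.rpow_one]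
  have h6 : Tendsto (fun k => f (φ k) x - f0 x) atTop (𝓝 0) := by
    rw [tendsto_zero_iff_enorm_tendsto_zero]
    exact h4
  have h7 := h6.add_const (f0 x)
  simpa using h7

end Pool.Agent.Q62.PE
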