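import Pool.Agent.Q62.PD.Defs

/-!
Definitions for the system `-Δu + μu = |u|^(p-1) u + λv`, `-Δv + νv = |v|^(2*-2) v + λu` in `ℝᴺ`.
-/

open MeasureTheory Set Filter Topology
open scoped ENNReal NNReal ContDiff

namespace Pool.Agent.Q62.PE

open Pool.Agent.Q62.PC

/-- the exponent `2* = 2N/(N-2)` -/
noncomputable def tw (N : ℕ) : ℝ := 2 * N / ((N : ℝ) - 2)

/-- a pair `(u, v)` of functions on `ℝᴺ`, together with their gradients `g = ∇u` and `h = ∇v` -/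
structure Pair (N : ℕ) where
  /-- the first function -/
  u : E N → ℝ
  /-- the gradient of the first function -/
  g : E N → E N
  /-- the second function -/
  v : E N → ℝ
  /-- the gradient of the second function -/
  h : E N → E N

/-- `(u, v) ∈ H = H¹(ℝᴺ) × H¹(ℝᴺ)`, `g = ∇u` and `h = ∇v` -/
def InH {N : ℕ} (U : Pair N) : Prop := InH1 U.u U.g ∧ InH1 U.v U.h

/-- `(u, v) = (0, 0)` -/
def IsZero {N : ℕ} (U : Pair N) : Prop := U.u =ᵐ[volume] 0 ∧ U.v =ᵐ[volume] 0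

/-- `∫ (|∇u|² + μ u²)`, `g = ∇u` -/
noncomputable def nsq {N : ℕ} (μ : ℝ) (u : E N → ℝ) (g : E N → E N) : ℝ :=
  ∫ x, (‖g x‖ ^ 2 + μ * u x ^ 2)

/-- `∫ |u|^q` -/
noncomputable def pwr {N : ℕ} (q : ℝ) (u : E N → ℝ) : ℝ := ∫ x, |u x| ^ q

/-- the energy `I(u, v)` -/
noncomputable def energy {N : ℕ} (p μ ν lam : ℝ) (U : Pair N) : ℝ :=
  1 / 2 * nsq μ U.u U.g + 1 / 2 * nsq ν U.v U.h - 1 / (p + 1) * pwr (p + 1) U.u -
    1 / tw N * pwr (tw N) U.v - lam * ∫ x, U.u x * U.v x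

/-- the Nehari manifold: `(u, v) ∈ H \ {(0, 0)}` and `I'(u, v)(u, v) = 0` -/
def InM {N : ℕ} (p μ ν lam : ℝ) (U : Pair N) : Prop :=
  InH U ∧ ¬ IsZero U ∧ nsq μ U.u U.g + nsq ν U.v U.h - 2 * lam * (∫ x, U.u x * U.v x) =
    pwr (p + 1) U.u + pwr (tw N) U.v

/-- `(u, v) ∈ H` is a solution of the system (a critical point of `I`) -/
def IsSol {N : ℕ} (p μ ν lam : ℝ) (U : Pair N) : Prop :=
  InH U ∧ ∀ (w : E N → ℝ) (k : E N → E N), InH1 w k →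
    ∫ x, (inner ℝ (U.g x) (k x) + μ * (U.u x * w x)) =
        (∫ x, |U.u x| ^ (p - 1) * U.u x * w x) + lam * ∫ x, U.v x * w x ∧
    ∫ x, (inner ℝ (U.h x) (k x) + ν * (U.v x * w x)) =
        (∫ x, |U.v x| ^ (tw N - 2) * U.v x * w x) + lam * ∫ x, U.u x * w x

/-- `m = inf I` on the Nehari manifold -/
noncomputable def mInf (N : ℕ) (p μ ν lam : ℝ) : ℝ :=
  sInf {s | ∃ U : Pair N, InM p μ ν lam U ∧ s = energy p μ ν lam U}

/-- a ground state solution: a solution in the Nehari manifold with `I(u, v) = m` -/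
def IsGround {N : ℕ} (p μ ν lam : ℝ) (U : Pair N) : Prop :=
  InM p μ ν lam U ∧ IsSol p μ ν lam U ∧ energy p μ ν lam U = mInf N p μ ν lam

/-- the sharp constant `S` in `∫ |∇u|² ≥ S (∫ |u|^(2*))^(2/2*)` on `D^{1,2}(ℝᴺ)` -/
noncomputable def sobS (N : ℕ) : ℝ :=
  sSup {s | ∀ (u : E N → ℝ) (G : E N → E N), InD u G →
    s * pwr (tw N) u ^ (2 / tw N) ≤ ∫ x, ‖G x‖ ^ 2}

/-- the sharp constant `C_q` in `∫ (|∇u|² + u²) ≥ C_q (∫ |u|^q)^(2/q)` on `H¹(ℝᴺ)` -/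
noncomputable def constC (N : ℕ) (q : ℝ) : ℝ :=
  sSup {c | ∀ (u : E N → ℝ) (g : E N → E N), InH1 u g →
    c * pwr q u ^ (2 / q) ≤ nsq 1 u g}

/-- the number `μ₀` -/
noncomputable def mu0 (N : ℕ) (p : ℝ) : ℝ :=
  (2 * (p + 1) / (N * (p - 1)) * sobS N ^ ((N : ℝ) / 2) *
    constC N (p + 1) ^ (-((p + 1) / (p - 1)))) ^ ((p + 1) / (p - 1) - (N : ℝ) / 2)⁻¹

/-- the number `S^(N/2) / N` -/
noncomputable def cStar (N : ℕ) : ℝ := 1 / N * sobS N ^ ((N : ℝ) / 2)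

/-- the threshold `λ_{μ,ν}`: the infimum of the `λ < √(μν)` such that `m < S^(N/2) / N` for all
`τ ∈ [λ, √(μν))` -/
noncomputable def lamStar (N : ℕ) (p μ ν : ℝ) : ℝ :=
  sInf {lam | lam < Real.sqrt (μ * ν) ∧
    ∀ τ : ℝ, lam ≤ τ → τ < Real.sqrt (μ * ν) → mInf N p μ ν τ < cStar N}

end Pool.Agent.Q62.PE
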