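import Pool.Agent.Q62.PE.Sol

/-! Extraction of a limit and the splitting. -/

open MeasureTheory Set Filter Topology
open scoped ENNReal NNReal ContDiff

namespace Pool.Agent.Q62.PE

open Pool.Agent.Q62.PC

variable {N : ℕ} {p μ ν lam : ℝ}

theorem beta_eq (hN : 3 ≤ N) : 1 / 2 - 1 / tw N = 1 / N := by
  have h := tw_conj hN
  have : 1 / tw N = (2 / tw N) / 2 := by ring
  rw [this, h]; ring

/-- the bounds for points of the Nehari manifold with small energy -/
theorem bounds (hN : 3 ≤ N) (hp : 1 < p) (hp2 : (p + 1) * ((N : ℝ) - 2) < 2 * N)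
    (hμ : 0 < μ) (hν : 0 < ν) {Λ : ℝ} (hΛ0 : 0 ≤ Λ) (hΛ : Λ < Real.sqrt (μ * ν)) :
    ∃ c0 K : ℝ, 0 < c0 ∧ 0 < K ∧ ∀ lam : ℝ, |lam| ≤ Λ → ∀ U : Pair N, InM p μ ν lam U →
      energy p μ ν lam U ≤ cStar N →
      c0 ≤ pwr (p + 1) U.u ∧ nsq 1 U.u U.g ≤ K ∧ nsq 1 U.v U.h ≤ K := by
  obtain ⟨δ, hδ, hδ1, H⟩ := quad_ge (N := N) hμ hν hΛ0 hΛ
  obtain ⟨hS, HS⟩ := sobS_spec N hN
  obtain ⟨hC, HC⟩ := constC_spec N hN (p + 1) (by linarith) hp2
  have ht := tw_gt hN
  have h3 : (3 : ℝ) ≤ N := by exact_mod_cast hN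
  have hN0 : (0 : ℝ) < N := by linarith
  have hα : 0 < 1 / 2 - 1 / (p + 1) := by
    have : 1 / (p + 1) < 1 / 2 := one_div_lt_one_div_of_lt (by norm_num) (by linarith)
    linarith
  have h1q : 0 < 1 - 2 / (p + 1) := by
    have : 2 / (p + 1) < 1 := by rw [div_lt_one (by linarith)]; linarith
    linarith
  have hcs : 0 < cStar N := by unfold cStar; positivity
  refine ⟨(δ * constC N (p + 1)) ^ (1 / (1 - 2 / (p + 1))),
    (cStar N / (1 / 2 - 1 / (p + 1)) + sobS N ^ ((N : ℝ) / 2)) / δ, by positivity, by positivity, ?_⟩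
  intro lam hlam U hU hE
  have hA0 := pwr_nonneg (p + 1) U.u
  have hX0 := pwr_nonneg (tw N) U.v
  have hQ : quad μ ν lam U = pwr (p + 1) U.u + pwr (tw N) U.v := hU.2.2
  rw [energy_of_M hU, beta_eq hN] at hE
  set A := pwr (p + 1) U.u with hA
  set X := pwr (tw N) U.v with hX
  have hXle : X ≤ sobS N ^ ((N : ℝ) / 2) := by
    have h1 : 1 / (N : ℝ) * X ≤ 1 / N * sobS N ^ ((N : ℝ) / 2) := by
      have := mul_nonneg hα.le hA0
      unfold cStar at hE
      linarith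
    exact le_of_mul_le_mul_left h1 (by positivity)
  have hAle : A ≤ cStar N / (1 / 2 - 1 / (p + 1)) := by
    rw [le_div_iff₀ hα]
    have : 0 ≤ 1 / (N : ℝ) * X := by positivity
    linarith
  have hXS : X ≤ sobS N * X ^ (2 / tw N) := by
    have e1 : X = X ^ (2 / (N : ℝ)) * X ^ (2 / tw N) := by
      rw [← Real.rpow_add_of_nonneg hX0 (by positivity) (by positivity), tw_conj hN,
        add_sub_cancel, Real.rpow_one]
    have e2 : X ^ (2 / (N : ℝ)) ≤ sobS N := by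
      have h1 := Real.rpow_le_rpow hX0 hXle (by positivity : 0 ≤ 2 / (N : ℝ))
      rwa [← Real.rpow_mul hS.le, show (N : ℝ) / 2 * (2 / N) = 1 by field_simp,
        Real.rpow_one] at h1
    calc X = X ^ (2 / (N : ℝ)) * X ^ (2 / tw N) := e1
      _ ≤ _ := mul_le_mul_of_nonneg_right e2 (by positivity)
  have hge := H lam hlam U hU.1
  have hsob := HS _ _ (hU.1.2.inD hN)
  rw [hQ] at hge
  have n1 : 0 ≤ nsq 1 U.u U.g := nsq_nonneg zero_le_one _ _
  have n2 : 0 ≤ ∫ x, U.v x ^ 2 := integral_nonneg fun x => sq_nonneg _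
  have n3 : 0 ≤ ∫ x, ‖U.h x‖ ^ 2 := integral_nonneg fun x => sq_nonneg _
  have hAge : δ * (nsq 1 U.u U.g + ∫ x, U.v x ^ 2) ≤ A := by linarith
  have hApos : 0 < A := by
    rcases eq_or_lt_of_le hA0 with h | h
    · exfalso
      have h1 : δ * (nsq 1 U.u U.g + ∫ x, U.v x ^ 2) ≤ 0 := by rw [h]; exact hAge
      have h2 : ∫ x, U.v x ^ 2 = 0 := by nlinarith
      have hz : IsZero U := by
        refine ⟨zero_of_pwr (by linarith) (int_p hN hp hp2 hU.1.1) h.symm, ?_⟩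
        have h4 := (integral_eq_zero_iff_of_nonneg (fun x => sq_nonneg _)
          hU.1.2.1.integrable_sq).1 h2
        filter_upwards [h4] with x hx
        exact pow_eq_zero_iff (by norm_num) |>.1 hx
      exact hU.2.1 hz
    · exact h
  refine ⟨?_, ?_, ?_⟩
  · have h1 := HC _ _ hU.1.1
    have h2 : δ * (constC N (p + 1) * A ^ (2 / (p + 1))) ≤ A := by
      have := mul_le_mul_of_nonneg_left h1 hδ.le
      have h4 := mul_nonneg hδ.le n2
      linarith
    have h5 : δ * constC N (p + 1) ≤ A ^ (1 - 2 / (p + 1)) := by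
      rw [Real.rpow_sub hApos, Real.rpow_one, le_div_iff₀ (by positivity)]
      linarith
    have h6 := Real.rpow_le_rpow (by positivity) h5 (by positivity : 0 ≤ 1 / (1 - 2 / (p + 1)))
    rwa [← Real.rpow_mul hA0, mul_one_div_cancel h1q.ne', Real.rpow_one] at h6
  · rw [le_div_iff₀ hδ]
    have h4 := mul_nonneg hδ.le n2
    linarith [le_trans hAge hAle, Real.rpow_nonneg hS.le ((N : ℝ) / 2)]
  · rw [le_div_iff₀ hδ, nsq_eq hU.1.2, one_mul]
    have h4 := mul_nonneg hδ.le n1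
    have h5 := mul_le_mul_of_nonneg_right hδ1 n3
    linarith

theorem WL.comp {F : Type*} [NormedAddCommGroup F] [InnerProductSpace ℝ F]
    {f : ℕ → E N → F} {f0 : E N → F} (h : WL f f0) {φ : ℕ → ℕ} (hφ : StrictMono φ) :
    WL (fun n => f (φ n)) f0 := fun w hw => (h w hw).comp hφ.tendsto_atTop

/-- extraction of a limit -/
theorem extract (hN : 3 ≤ N) {q : ℝ} (hq : 2 < q) (hq2 : q * ((N : ℝ) - 2) < 2 * N)
    {w : ℕ → E N → ℝ} {G : ℕ → E N → E N} (h : ∀ n, InH1 (w n) (G n))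
    {M : ℝ} (hM : ∀ n, nsq 1 (w n) (G n) ≤ M) :
    ∃ φ : ℕ → ℕ, StrictMono φ ∧ ∃ w0 G0, InH1 w0 G0 ∧ WL (fun n => w (φ n)) w0 ∧
      WL (fun n => G (φ n)) G0 ∧
      (∀ᵐ x ∂(volume : Measure (E N)), Tendsto (fun n => w (φ n) x) atTop (𝓝 (w0 x))) ∧
      ∀ R : ℝ, Tendsto (fun n => ∫⁻ x in Metric.ball 0 R, ‖w (φ n) x - w0 x‖ₑ ^ q)
        atTop (𝓝 0) := by
  obtain ⟨φ, hφ, w0, G0, h1, h2, h3⟩ := h1_weak h hM
  have hgM : ∀ n, ∫ x, ‖G (φ n) x‖ ^ 2 ≤ M := by
    intro n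
    have := hM (φ n)
    rw [nsq_eq (h (φ n)), one_mul] at this
    have n1 : 0 ≤ ∫ x, w (φ n) x ^ 2 := integral_nonneg fun x => sq_nonneg _
    linarith
  have hWD : WeakD (fun n => G (φ n)) G0 := fun _ H hH => h3 H hH.2.1
  have hloc := fun R => weak_loc N hN q hq hq2 (w := fun n => w (φ n)) (G := fun n => G (φ n))
    (fun n => (h (φ n)).inD hN) hgM (h1.inD hN) hWD R
  obtain ⟨ψ, hψ, hae⟩ := ae_subseq (q := q) (by linarith) (f := fun n => w (φ n)) (f0 := w0)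
    (fun n => (h (φ n)).1.1) h1.1.1 hloc
  refine ⟨φ ∘ ψ, hφ.comp hψ, w0, G0, h1, h2.comp hψ, h3.comp hψ, hae, fun R => ?_⟩
  exact (hloc R).comp hψ.tendsto_atTop

theorem WL.lim0 {f : ℕ → E N → E N} {f0 : E N → E N} (h : WL f f0)
    (hf : ∀ n, MemLp (f n) 2 (volume : Measure (E N)))
    (hf0 : MemLp f0 2 (volume : Measure (E N))) {w : E N → E N}
    (hw : MemLp w 2 (volume : Measure (E N))) :
    Tendsto (fun n => ∫ x, (inner ℝ (w x) (f n x - f0 x) : ℝ)) atTop (𝓝 0) := by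
  have h1 := (h w hw).sub_const (∫ x, inner ℝ (f0 x) (w x))
  rw [sub_self] at h1
  refine h1.congr fun n => ?_
  rw [← integral_sub (int_inner (hf n) hw) (int_inner hf0 hw)]
  refine integral_congr_ae (Eventually.of_forall fun x => ?_)
  simp only
  rw [inner_sub_right, real_inner_comm (w x) (f n x), real_inner_comm (w x) (f0 x)]

theorem WL.lim0' {f : ℕ → E N → ℝ} {f0 : E N → ℝ} (h : WL f f0)
    (hf : ∀ n, MemLp (f n) 2 (volume : Measure (E N)))
    (hf0 : MemLp f0 2 (volume : Measure (E N))) {w : E N → ℝ}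
    (hw : MemLp w 2 (volume : Measure (E N))) :
    Tendsto (fun n => ∫ x, w x * (f n x - f0 x)) atTop (𝓝 0) := by
  have e : ∀ F : E N → ℝ, ∫ x, (inner ℝ (F x) (w x) : ℝ) = ∫ x, w x * F x := by
    intro F
    refine integral_congr_ae (Eventually.of_forall fun x => ?_)
    simp
  have h0 := h w hw
  simp only [e] at h0
  have h1 := h0.sub_const (∫ x, w x * f0 x)
  rw [sub_self] at h1
  refine h1.congr fun n => ?_
  rw [← integral_sub (int_mul2 hw (hf n)) (int_mul2 hw hf0)]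
  refine integral_congr_ae (Eventually.of_forall fun x => ?_)
  simp only
  ring

/-- splitting of the quadratic form -/
theorem quad_split {V : ℕ → Pair N} {V0 : Pair N} (hV : ∀ n, InH (V n)) (h0 : InH V0)
    (w1 : WL (fun n => (V n).u) V0.u) (w2 : WL (fun n => (V n).g) V0.g)
    (w3 : WL (fun n => (V n).v) V0.v) (w4 : WL (fun n => (V n).h) V0.h) :
    Tendsto (fun n => quad μ ν lam (V n) - quad μ ν lam (sb (V n) V0)) atTop
      (𝓝 (quad μ ν lam V0)) := by
  have e : ∀ n, quad μ ν lam (V n) - quad μ ν lam (sb (V n) V0) =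
      quad μ ν lam V0 + 2 * bil μ ν lam V0 (sb (V n) V0) := by
    intro n
    have h1 := quad_ad (μ := μ) (ν := ν) (lam := lam) h0 1 ((hV n).sb h0)
    have h2 : ad V0 1 (sb (V n) V0) = V n := by
      cases hc : V n with
      | mk a b c d =>
        simp [ad, sb]
    rw [h2] at h1
    rw [h1]
    ring
  have l1 := w2.lim0 (fun n => (hV n).1.2.1) h0.1.2.1 h0.1.2.1
  have l2 := w1.lim0' (fun n => (hV n).1.1) h0.1.1 h0.1.1
  have l3 := w4.lim0 (fun n => (hV n).2.2.1) h0.2.2.1 h0.2.2.1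
  have l4 := w3.lim0' (fun n => (hV n).2.1) h0.2.1 h0.2.1
  have l5 := w3.lim0' (fun n => (hV n).2.1) h0.2.1 h0.1.1
  have l6 := w1.lim0' (fun n => (hV n).1.1) h0.1.1 h0.2.1
  have l7 : Tendsto (fun n => bil μ ν lam V0 (sb (V n) V0)) atTop (𝓝 0) := by
    have := (((l1.add (l2.const_mul μ)).add l3).add (l4.const_mul ν)).sub
      ((l5.add l6).const_mul lam)
    simpa [bil, sb] using this
  simp only [e]
  have := (l7.const_mul 2).const_add (quad μ ν lam V0)
  simpa using this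

end Pool.Agent.Q62.PE
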