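import Pool.Agent.Q62.PE.Thr

/-! The threshold. -/

open MeasureTheory Set Filter Topology
open scoped ENNReal NNReal ContDiff

namespace Pool.Agent.Q62.PE

open Pool.Agent.Q62.PC

variable {N : ℕ} {p μ ν lam : ℝ}

/-- near `√(μν)` the level is small -/
theorem level_small (hN : 3 ≤ N) (hp : 1 < p) (hp2 : (p + 1) * ((N : ℝ) - 2) < 2 * N)
    (hμ : 0 < μ) (hν : 0 < ν) : ∃ l0 : ℝ, 0 ≤ l0 ∧ l0 < Real.sqrt (μ * ν) ∧
      ∀ τ : ℝ, l0 ≤ τ → τ < Real.sqrt (μ * ν) → mInf N p μ ν τ < cStar N := by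
  obtain ⟨φ, hφ, hφ2⟩ := exists_bump N
  have h3 : (3 : ℝ) ≤ N := by exact_mod_cast hN
  have hS := (sobS_spec N hN).1
  have hcs : 0 < cStar N := by unfold cStar; positivity
  set q : ℝ := p + 1 with hq
  have hq2 : 2 < q := by linarith
  set s : ℝ := Real.sqrt (μ / ν) with hs
  set b : ℝ := Real.sqrt (μ * ν) with hb
  have hs0 : 0 < s := Real.sqrt_pos.2 (by positivity)
  have hb0 : 0 < b := Real.sqrt_pos.2 (by positivity)
  have es : s ^ 2 = μ / ν := Real.sq_sqrt (by positivity)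
  have esb : s * b = μ := by
    rw [hs, hb, ← Real.sqrt_mul (by positivity), show μ / ν * (μ * ν) = μ ^ 2 by field_simp,
      Real.sqrt_sq hμ.le]
  set D1 : ℝ := ∫ x, ‖gradient φ x‖ ^ 2 with hD1
  set D2 : ℝ := ∫ x, φ x ^ 2 with hD2
  have hD1n : 0 ≤ D1 := integral_nonneg fun x => sq_nonneg _
  have hD2n : 0 ≤ D2 := integral_nonneg fun x => sq_nonneg _
  set D : ℝ := (1 + s ^ 2) * D1 + 2 * s * D2 + 1 with hD
  have hDp : 0 < D := by positivity
  set P : ℝ := pwr q φ with hP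
  have hPp : 0 < P := hφ2 q (by linarith)
  set ex : ℝ := 4 / (q - 2) - ((N : ℝ) - 2) with hex
  have hexp : 0 < ex := by
    rw [hex, sub_pos, lt_div_iff₀ (by linarith)]
    nlinarith
  set K : ℝ := (1 / 2 - 1 / q) * ((D / P) ^ (2 / (q - 2)) * D) with hK
  have hα : 0 < 1 / 2 - 1 / q := by
    have : 1 / q < 1 / 2 := one_div_lt_one_div_of_lt (by norm_num) hq2
    linarith
  have hKp : 0 < K := by positivity
  -- choice of the scale `c = 1 / R`
  have hlim : Tendsto (fun c : ℝ => K * c ^ ex) (𝓝[>] 0) (𝓝 0) := by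
    have h2 : Tendsto (fun c : ℝ => c ^ ex) (𝓝[>] 0) (𝓝 0) := by
      have h3 := (Real.continuousAt_rpow_const 0 ex (Or.inr hexp.le)).tendsto
      rw [Real.zero_rpow hexp.ne'] at h3
      exact h3.mono_left nhdsWithin_le_nhds
    have := h2.const_mul K
    simpa using this
  obtain ⟨c, hc1, hc2⟩ := ((hlim.eventually (gt_mem_nhds hcs)).and self_mem_nhdsWithin).exists
  have hc : 0 < c := hc2
  refine ⟨max 0 (b - c ^ 2), le_max_left _ _, max_lt hb0 (by nlinarith [sq_pos_of_pos hc]), ?_⟩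
  intro τ hτ1 hτ2
  have hτ0 : 0 ≤ τ := (le_max_left _ _).trans hτ1
  have hτc : b - τ ≤ c ^ 2 := by
    have := (le_max_right _ _).trans hτ1
    linarith
  have habs : |τ| < Real.sqrt (μ * ν) := by rw [abs_of_nonneg hτ0]; exact hτ2
  have hT := InH1.of_test hφ
  have hw := scl_InH1 hT hc
  set U : Pair N := ⟨scl c φ, sclG c (gradient φ), fun x => s * scl c φ x,
    fun x => s • sclG c (gradient φ) x⟩ with hU
  have hUH : InH U := ⟨hw, hw.smul s⟩
  have hcN : 0 < (c ^ N)⁻¹ := by positivity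
  have hpu : pwr q U.u = (c ^ N)⁻¹ * P := scl_pwr q φ hc
  have hU0 : ¬ IsZero U := by
    rw [pos_iff hN hp hp2 hUH]
    have h1 : 0 < pwr (p + 1) U.u := by rw [← hq, hpu]; positivity
    have := pwr_nonneg (tw N) U.v
    linarith
  have eQ : quad μ ν τ U = (1 + s ^ 2) * (∫ x, ‖sclG c (gradient φ) x‖ ^ 2) +
      2 * s * (b - τ) * ∫ x, scl c φ x ^ 2 := by
    rw [quad_eq hUH]
    simp only [hU]
    have e1 : ∫ x, ‖s • sclG c (gradient φ) x‖ ^ 2 =
        s ^ 2 * ∫ x, ‖sclG c (gradient φ) x‖ ^ 2 := by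
      rw [← integral_const_mul]
      refine integral_congr_ae (Eventually.of_forall fun x => ?_)
      simp only
      rw [norm_smul, mul_pow, Real.norm_eq_abs, sq_abs]
    have e2 : ∫ x, (s * scl c φ x) ^ 2 = s ^ 2 * ∫ x, scl c φ x ^ 2 := by
      rw [← integral_const_mul]
      refine integral_congr_ae (Eventually.of_forall fun x => ?_)
      simp only
      ring
    have e3 : ∫ x, scl c φ x * (s * scl c φ x) = s * ∫ x, scl c φ x ^ 2 := by
      rw [← integral_const_mul]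
      refine integral_congr_ae (Eventually.of_forall fun x => ?_)
      simp only
      ring
    have e4 : ν * s ^ 2 = μ := by rw [es]; field_simp
    rw [e1, e2, e3]
    have e5 : 2 * s * (b - τ) = μ + ν * s ^ 2 - 2 * τ * s := by
      rw [e4]; linarith
    rw [e5]
    ring
  have hQle : quad μ ν τ U ≤ c ^ 2 * ((c ^ N)⁻¹ * D) := by
    rw [eQ, scl_grad _ hc, scl_sq _ hc]
    have h1 : 2 * s * (b - τ) * ((c ^ N)⁻¹ * D2) ≤ 2 * s * c ^ 2 * ((c ^ N)⁻¹ * D2) := by
      gcongr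
    have h2 : 0 ≤ c ^ 2 * (c ^ N)⁻¹ := by positivity
    rw [hD]
    nlinarith
  have hmain := mInf_ray hN hp hp2 hμ hν habs hUH hU0 hq2 (a := (c ^ N)⁻¹ * P) (by positivity)
    hQle (Or.inl ⟨hq, hpu.symm⟩)
  refine hmain.trans_lt (lt_of_le_of_lt (le_of_eq ?_) hc1)
  have e1 : c ^ 2 * ((c ^ N)⁻¹ * D) / ((c ^ N)⁻¹ * P) = c ^ 2 * (D / P) := by
    field_simp
  have e2 : c ^ 2 = c ^ (2 : ℝ) := by rw [← Real.rpow_natCast]; norm_num
  have e3 : (c ^ N)⁻¹ = c ^ (-(N : ℝ)) := by rw [Real.rpow_neg hc.le, Real.rpow_natCast]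
  have e4 : c ^ ex = (c ^ (2 : ℝ)) ^ (2 / (q - 2)) * (c ^ (2 : ℝ) * c ^ (-(N : ℝ))) := by
    rw [← Real.rpow_mul hc.le, ← Real.rpow_add hc, ← Real.rpow_add hc]
    congr 1
    rw [hex]
    ring
  rw [e1, Real.mul_rpow (by positivity) (by positivity), e2, e3, e4, hK]
  ring

/-- the level is at most `S^(N/2) / N` -/
theorem level_le (hN : 3 ≤ N) (hp : 1 < p) (hp2 : (p + 1) * ((N : ℝ) - 2) < 2 * N)
    (hμ : 0 < μ) (hν : 0 < ν) (hl : |lam| < Real.sqrt (μ * ν)) :
    mInf N p μ ν lam ≤ cStar N := by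
  have h3 : (3 : ℝ) ≤ N := by exact_mod_cast hN
  have hN0 : (0 : ℝ) < N := by linarith
  have ht := tw_gt hN
  have hS := (sobS_spec N hN).1
  have step : ∀ s : ℝ, sobS N < s → mInf N p μ ν lam ≤ 1 / N * s ^ ((N : ℝ) / 2) := by
    intro s hs
    have hs0 : 0 < s := hS.trans hs
    obtain ⟨v, G, ⟨hv1, hv2, ψ, hψ1, hψ2, hψ3⟩, hvG⟩ := sobS_sharp N hN hs
    -- a test function
    have l1 := sqlim (fun k => (hψ1 k).grad_memLp 2) hv2 hψ3
    have l2 : Tendsto (fun k => pwr (tw N) (ψ k) ^ (2 / tw N)) atTop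
        (𝓝 (pwr (tw N) v ^ (2 / tw N))) := by
      haveI : Fact (1 ≤ ps N) := ⟨ps_ge hN⟩
      have h1 := (Lp.tendsto_Lp_iff_tendsto_eLpNorm'' (fun k => ψ k)
        (fun k => (hψ1 k).memLp (ps N)) v hv1).2 hψ2
      have h2 := (h1.norm).pow 2
      have e : ∀ w : E N → ℝ, ∀ hw : MemLp w (ps N) (volume : Measure (E N)),
          ‖hw.toLp w‖ ^ 2 = pwr (tw N) w ^ (2 / tw N) := by
        intro w hw
        rw [Lp.norm_toLp, ← pwr_tw hN hw, ← Real.rpow_natCast (_ ^ (1 / tw N)) 2,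
          ← Real.rpow_mul (pwr_nonneg _ _)]
        congr 1; push_cast; ring
      simp only [e] at h2
      exact h2
    have l3 := (l2.const_mul s).sub l1
    have hpos : 0 < s * pwr (tw N) v ^ (2 / tw N) - ∫ x, ‖G x‖ ^ 2 := by linarith
    obtain ⟨k, hk⟩ := (l3.eventually (lt_mem_nhds hpos)).exists
    set φ := ψ k with hφdef
    have hφ : IsTest φ := hψ1 k
    set D : ℝ := ∫ x, ‖gradient φ x‖ ^ 2 with hD
    set X : ℝ := pwr (tw N) φ with hX
    set F : ℝ := ∫ x, φ x ^ 2 with hF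
    have hD0 : 0 ≤ D := integral_nonneg fun x => sq_nonneg _
    have hF0 : 0 ≤ F := integral_nonneg fun x => sq_nonneg _
    have hX0 : 0 ≤ X := pwr_nonneg _ _
    have hlt : D < s * X ^ (2 / tw N) := by linarith
    have hXp : 0 < X := by
      rcases eq_or_lt_of_le hX0 with h | h
      · rw [← h, Real.zero_rpow (by positivity), mul_zero] at hlt
        linarith
      · exact h
    -- concentration
    have hlim : Tendsto (fun n : ℕ => D + ν * F * (1 / ((n : ℝ) + 1)) ^ 2) atTop (𝓝 D) := by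
      have h1 := (tendsto_one_div_add_atTop_nhds_zero_nat (𝕜 := ℝ)).pow 2
      have h2 := (h1.const_mul (ν * F)).const_add D
      simpa using h2
    obtain ⟨n, hn⟩ := (hlim.eventually (gt_mem_nhds hlt)).exists
    set c : ℝ := (n : ℝ) + 1 with hc'
    have hc : 0 < c := by positivity
    set D' : ℝ := D + ν * F * (1 / c) ^ 2 with hD'
    have hw := scl_InH1 (InH1.of_test hφ) hc
    set U : Pair N := ⟨fun _ => 0, fun _ => 0, scl c φ, sclG c (gradient φ)⟩ with hU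
    have hUH : InH U := ⟨inH1_zero N, hw⟩
    have hcN : 0 < (c ^ N)⁻¹ := by positivity
    have hpv : pwr (tw N) U.v = (c ^ N)⁻¹ * X := scl_pwr (tw N) φ hc
    have hU0 : ¬ IsZero U := by
      rw [pos_iff hN hp hp2 hUH]
      have h1 : 0 < pwr (tw N) U.v := by rw [hpv]; positivity
      have := pwr_nonneg (p + 1) U.u
      linarith
    have eQ : quad μ ν lam U = c ^ 2 * ((c ^ N)⁻¹ * D') := by
      rw [quad_eq hUH]
      simp only [hU, norm_zero, zero_mul, integral_zero]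
      rw [scl_grad _ hc, scl_sq _ hc]
      simp only [ne_eq, OfNat.ofNat_ne_zero, not_false_eq_true, zero_pow, integral_zero,
        mul_zero, add_zero, zero_add, sub_zero]
      rw [← hD, ← hF, hD']
      field_simp
    have hQp := quad_pos hμ hν hl hUH hU0
    rw [eQ] at hQp
    have hD'p : 0 < D' := by
      by_contra hcon
      push Not at hcon
      have : c ^ 2 * ((c ^ N)⁻¹ * D') ≤ 0 :=
        mul_nonpos_of_nonneg_of_nonpos (by positivity)
          (mul_nonpos_of_nonneg_of_nonpos hcN.le hcon)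
      linarith
    have hmain := mInf_ray hN hp hp2 hμ hν hl hUH hU0 ht (a := (c ^ N)⁻¹ * X)
      (Q := c ^ 2 * ((c ^ N)⁻¹ * D')) (by positivity) eQ.le (Or.inr ⟨rfl, hpv.symm⟩)
    rw [beta_eq hN] at hmain
    refine hmain.trans ?_
    refine mul_le_mul_of_nonneg_left ?_ (by positivity)
    have hN2 : 2 / (tw N - 2) = ((N : ℝ) - 2) / 2 := by
      unfold tw
      have : (N : ℝ) - 2 ≠ 0 := by linarith
      have h5 : 2 * (N : ℝ) / (N - 2) - 2 = 4 / (N - 2) := by field_simp; ring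
      rw [h5]; field_simp; ring
    have e1 : c ^ 2 * ((c ^ N)⁻¹ * D') / ((c ^ N)⁻¹ * X) = c ^ 2 * (D' / X) := by
      field_simp
    rw [hN2, e1]
    have e2 : c ^ 2 = c ^ (2 : ℝ) := by rw [← Real.rpow_natCast]; norm_num
    have e3 : (c ^ N)⁻¹ = c ^ (-(N : ℝ)) := by rw [Real.rpow_neg hc.le, Real.rpow_natCast]
    have e4 : (c ^ (2 : ℝ)) ^ (((N : ℝ) - 2) / 2) * (c ^ (2 : ℝ) * c ^ (-(N : ℝ))) = 1 := by
      rw [← Real.rpow_mul hc.le, ← Real.rpow_add hc, ← Real.rpow_add hc]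
      have : 2 * (((N : ℝ) - 2) / 2) + (2 + -(N : ℝ)) = 0 := by ring
      rw [this, Real.rpow_zero]
    rw [e2, e3, Real.mul_rpow (by positivity) (by positivity)]
    calc (c ^ (2 : ℝ)) ^ (((N : ℝ) - 2) / 2) * (D' / X) ^ (((N : ℝ) - 2) / 2) *
          (c ^ (2 : ℝ) * (c ^ (-(N : ℝ)) * D'))
        = ((c ^ (2 : ℝ)) ^ (((N : ℝ) - 2) / 2) * (c ^ (2 : ℝ) * c ^ (-(N : ℝ)))) *
          ((D' / X) ^ (((N : ℝ) - 2) / 2) * D') := by ring
      _ = (D' / X) ^ (((N : ℝ) - 2) / 2) * D' := by rw [e4, one_mul]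
      _ = (D' / X ^ (2 / tw N)) ^ ((N : ℝ) / 2) := by
          rw [Real.div_rpow hD'p.le hX0, Real.div_rpow hD'p.le (by positivity),
            ← Real.rpow_mul hX0]
          have e5 : 2 / tw N * ((N : ℝ) / 2) = ((N : ℝ) - 2) / 2 := by
            rw [tw_conj hN]; field_simp
          have e6 : D' ^ ((N : ℝ) / 2) = D' ^ (((N : ℝ) - 2) / 2) * D' := by
            nth_rewrite 3 [← Real.rpow_one D']
            rw [← Real.rpow_add hD'p]; congr 1; ring
          rw [e5, e6]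
          ring
      _ ≤ s ^ ((N : ℝ) / 2) := by
          refine Real.rpow_le_rpow (by positivity) ?_ (by positivity)
          rw [div_le_iff₀ (by positivity)]
          exact hn.le
  have hlim : Tendsto (fun s : ℝ => 1 / N * s ^ ((N : ℝ) / 2)) (𝓝[>] sobS N)
      (𝓝 (1 / N * sobS N ^ ((N : ℝ) / 2))) := by
    have h3 := (Real.continuousAt_rpow_const (sobS N) ((N : ℝ) / 2)
      (Or.inr (by positivity))).tendsto
    exact (h3.mono_left nhdsWithin_le_nhds).const_mul _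
  exact ge_of_tendsto hlim (eventually_mem_nhdsWithin.mono fun s hs => step s hs)

theorem low_pos (hN : 3 ≤ N) (hp : 1 < p) (hp2 : (p + 1) * ((N : ℝ) - 2) < 2 * N)
    (hμ : mu0 N p < μ) (hν : 0 < ν) : 0 < Real.sqrt ((μ - mu0 N p) * ν) ∧
      Real.sqrt ((μ - mu0 N p) * ν) < Real.sqrt (μ * ν) := by
  have h0 := mu0_pos hN hp hp2
  refine ⟨Real.sqrt_pos.2 (mul_pos (by linarith) hν), Real.sqrt_lt_sqrt ?_ ?_⟩
  · exact (mul_pos (by linarith) hν).le
  · exact mul_lt_mul_of_pos_right (by linarith) hν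

/-- lower bound for the elements of the set in the definition of the threshold -/
theorem lower_set (hN : 3 ≤ N) (hp : 1 < p) (hp2 : (p + 1) * ((N : ℝ) - 2) < 2 * N)
    (hμ : mu0 N p < μ) (hν : 0 < ν) {lam : ℝ} (h : ∀ τ : ℝ, lam ≤ τ → τ < Real.sqrt (μ * ν) →
      mInf N p μ ν τ < cStar N) : Real.sqrt ((μ - mu0 N p) * ν) ≤ lam := by
  by_contra hcon
  push Not at hcon
  obtain ⟨h1, h2⟩ := low_pos hN hp hp2 hμ hν
  have hm0 := mu0_pos hN hp hp2
  set τ : ℝ := max lam 0 with hτ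
  have hτ0 : 0 ≤ τ := le_max_right _ _
  have hτ1 : τ < Real.sqrt ((μ - mu0 N p) * ν) := max_lt hcon h1
  have habs : |τ| < Real.sqrt (μ * ν) := by rw [abs_of_nonneg hτ0]; linarith
  have h3 := h τ (le_max_left _ _) (by linarith)
  obtain ⟨U, hU, hE⟩ := exists_near hN hp hp2 (hm0.trans hμ) hν habs h3
  have hsq : τ ^ 2 < (μ - mu0 N p) * ν := by
    have := Real.lt_sqrt hτ0 |>.1 hτ1
    exact this
  have := energy_gt hN hp hp2 hν hsq hU
  linarith

/-- existence of a ground state at the threshold -/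
theorem threshold (hN : 3 ≤ N) (hp : 1 < p) (hp2 : (p + 1) * ((N : ℝ) - 2) < 2 * N)
    (hμ : mu0 N p < μ) (hν : 0 < ν) :
    Real.sqrt ((μ - mu0 N p) * ν) ≤ lamStar N p μ ν ∧ lamStar N p μ ν < Real.sqrt (μ * ν) ∧
      ∃ V : Pair N, IsGround p μ ν (lamStar N p μ ν) V := by
  obtain ⟨h1, h2⟩ := low_pos hN hp hp2 hμ hν
  have hm0 := mu0_pos hN hp hp2
  have hμ0 : 0 < μ := hm0.trans hμ
  obtain ⟨l0, hl00, hl0, hl0'⟩ := level_small hN hp hp2 hμ0 hν
  set Z : Set ℝ := {lam | lam < Real.sqrt (μ * ν) ∧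
    ∀ τ : ℝ, lam ≤ τ → τ < Real.sqrt (μ * ν) → mInf N p μ ν τ < cStar N} with hZ
  have hZne : Z.Nonempty := ⟨l0, hl0, hl0'⟩
  have hZb : ∀ lam ∈ Z, Real.sqrt ((μ - mu0 N p) * ν) ≤ lam := fun lam h =>
    lower_set hN hp hp2 hμ hν h.2
  have hbdd : BddBelow Z := ⟨_, hZb⟩
  set L : ℝ := lamStar N p μ ν with hL
  set b : ℝ := Real.sqrt (μ * ν) with hb
  have hLge : Real.sqrt ((μ - mu0 N p) * ν) ≤ L := le_csInf hZne hZb
  have hLlt : L < b := (csInf_le hbdd ⟨hl0, hl0'⟩).trans_lt hl0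
  refine ⟨hLge, hLlt, ?_⟩
  have hL0 : 0 < L := h1.trans_le hLge
  -- the sequence
  set l : ℕ → ℝ := fun n => L + (b - L) / 2 * (1 / ((n : ℝ) + 1)) with hl
  have hfrac : ∀ n : ℕ, 0 < 1 / ((n : ℝ) + 1) ∧ 1 / ((n : ℝ) + 1) ≤ 1 := by
    intro n
    refine ⟨by positivity, ?_⟩
    rw [div_le_one (by positivity)]
    have : (0 : ℝ) ≤ n := Nat.cast_nonneg n
    linarith
  have hlL : ∀ n, L < l n := fun n => by
    have := mul_pos (by linarith : 0 < (b - L) / 2) (hfrac n).1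
    simp only [hl]; linarith
  have hlb : ∀ n, l n ≤ (L + b) / 2 := fun n => by
    have := mul_le_mul_of_nonneg_left (hfrac n).2 (by linarith : 0 ≤ (b - L) / 2)
    simp only [hl]; linarith
  have hlim : Tendsto l atTop (𝓝 L) := by
    have h5 := ((tendsto_one_div_add_atTop_nhds_zero_nat (𝕜 := ℝ)).const_mul
      ((b - L) / 2)).const_add L
    rw [mul_zero, add_zero] at h5
    exact h5
  have hΛ : (L + b) / 2 < b := by linarith
  have habs : ∀ n, |l n| ≤ (L + b) / 2 := fun n => by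
    rw [abs_of_pos (hL0.trans (hlL n))]; exact hlb n
  have hlev : ∀ n, mInf N p μ ν (l n) < cStar N := by
    intro n
    obtain ⟨z, hz, hzl⟩ := exists_lt_of_csInf_lt hZne (show sInf Z < l n from hlL n)
    exact hz.2 (l n) hzl.le ((hlb n).trans_lt hΛ)
  have hch : ∀ n : ℕ, ∃ U : Pair N, InM p μ ν (l n) U ∧
      energy p μ ν (l n) U < min (cStar N) (mInf N p μ ν (l n) + 1 / ((n : ℝ) + 1)) := by
    intro n
    refine exists_near hN hp hp2 hμ0 hν ((habs n).trans_lt hΛ) (lt_min (hlev n) ?_)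
    linarith [(hfrac n).1]
  choose U hU hUE using hch
  refine exists_ground hN hp hp2 hμ0 hν (Λ := (L + b) / 2) (by linarith) hΛ hlim habs hU
    (fun n => ((hUE n).trans_le (min_le_left _ _)).le) ?_
  intro e he
  have hLabs : |L| < b := by rw [abs_of_pos hL0]; exact hLlt
  have hus := usc hN hp hp2 hμ0 hν (lam := L) hLabs (fun n => (habs n).trans_lt hΛ) hlim
    (half_pos he)
  have hone := (tendsto_one_div_add_atTop_nhds_zero_nat (𝕜 := ℝ)).eventually
    (gt_mem_nhds (half_pos he))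
  filter_upwards [hus, hone] with n hn1 hn2
  have h6 := (hUE n).trans_le (min_le_right _ _)
  linarith

/-- existence of a ground state when the level is below `S^(N/2) / N` -/
theorem exists_of_lt (hN : 3 ≤ N) (hp : 1 < p) (hp2 : (p + 1) * ((N : ℝ) - 2) < 2 * N)
    (hμ : 0 < μ) (hν : 0 < ν) (hl : |lam| < Real.sqrt (μ * ν))
    (h : mInf N p μ ν lam < cStar N) : ∃ V : Pair N, IsGround p μ ν lam V := by
  have hfrac : ∀ n : ℕ, 0 < 1 / ((n : ℝ) + 1) := fun n => by positivity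
  have hch : ∀ n : ℕ, ∃ U : Pair N, InM p μ ν lam U ∧
      energy p μ ν lam U < min (cStar N) (mInf N p μ ν lam + 1 / ((n : ℝ) + 1)) := by
    intro n
    refine exists_near hN hp hp2 hμ hν hl (lt_min h ?_)
    linarith [hfrac n]
  choose U hU hUE using hch
  refine exists_ground hN hp hp2 hμ hν (abs_nonneg lam) hl (l := fun _ => lam)
    tendsto_const_nhds (fun _ => le_rfl) hU
    (fun n => ((hUE n).trans_le (min_le_left _ _)).le) ?_
  intro e he
  have hone := (tendsto_one_div_add_atTop_nhds_zero_nat (𝕜 := ℝ)).eventually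
    (gt_mem_nhds he)
  filter_upwards [hone] with n hn
  have h6 := (hUE n).trans_le (min_le_right _ _)
  linarith

/-- the threshold defined by the existence of ground states -/
noncomputable def lamEx (N : ℕ) (p μ ν : ℝ) : ℝ :=
  sInf {lam | 0 < lam ∧ lam < Real.sqrt (μ * ν) ∧ ∃ V : Pair N, IsGround p μ ν lam V}

/-- existence of a ground state at the second threshold -/
theorem threshold2 (hN : 3 ≤ N) (hp : 1 < p) (hp2 : (p + 1) * ((N : ℝ) - 2) < 2 * N)
    (hμ : mu0 N p < μ) (hν : 0 < ν) :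
    Real.sqrt ((μ - mu0 N p) * ν) ≤ lamEx N p μ ν ∧ lamEx N p μ ν < Real.sqrt (μ * ν) ∧
      ∃ V : Pair N, IsGround p μ ν (lamEx N p μ ν) V := by
  obtain ⟨h1, h2⟩ := low_pos hN hp hp2 hμ hν
  have hm0 := mu0_pos hN hp hp2
  have hμ0 : 0 < μ := hm0.trans hμ
  obtain ⟨l0, hl00, hl0, hl0'⟩ := level_small hN hp hp2 hμ0 hν
  set Z : Set ℝ := {lam | 0 < lam ∧ lam < Real.sqrt (μ * ν) ∧
    ∃ V : Pair N, IsGround p μ ν lam V} with hZ
  have hZne : Z.Nonempty := by
    set l1 : ℝ := (l0 + Real.sqrt (μ * ν)) / 2 with hl1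
    have h3 : 0 < l1 := by rw [hl1]; linarith
    have h4 : l1 < Real.sqrt (μ * ν) := by rw [hl1]; linarith
    refine ⟨l1, h3, h4, exists_of_lt hN hp hp2 hμ0 hν (by rw [abs_of_pos h3]; exact h4) ?_⟩
    exact hl0' l1 (by rw [hl1]; linarith) h4
  have hZb : ∀ lam ∈ Z, Real.sqrt ((μ - mu0 N p) * ν) ≤ lam := by
    rintro lam ⟨h3, h4, V, hV1, hV2, hV3⟩
    by_contra hcon
    push Not at hcon
    have hsq : lam ^ 2 < (μ - mu0 N p) * ν := Real.lt_sqrt h3.le |>.1 hcon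
    have h5 := energy_gt hN hp hp2 hν hsq hV1
    have h6 := level_le hN hp hp2 hμ0 hν (lam := lam) (by rw [abs_of_pos h3]; exact h4)
    linarith
  have hbdd : BddBelow Z := ⟨_, hZb⟩
  set L : ℝ := lamEx N p μ ν with hL
  set b : ℝ := Real.sqrt (μ * ν) with hb
  have hLge : Real.sqrt ((μ - mu0 N p) * ν) ≤ L := le_csInf hZne hZb
  obtain ⟨z0, hz0⟩ := hZne
  have hLlt : L < b := (csInf_le hbdd hz0).trans_lt hz0.2.1
  refine ⟨hLge, hLlt, ?_⟩
  have hL0 : 0 < L := h1.trans_le hLge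
  have hch : ∀ n : ℕ, ∃ l : ℝ, L ≤ l ∧ l < L + (b - L) / 2 * (1 / ((n : ℝ) + 1)) ∧
      ∃ V : Pair N, IsGround p μ ν l V := by
    intro n
    have h3 : sInf Z < L + (b - L) / 2 * (1 / ((n : ℝ) + 1)) := by
      have : 0 < (b - L) / 2 * (1 / ((n : ℝ) + 1)) := by
        have : 0 < (b - L) / 2 := by linarith
        positivity
      have e : sInf Z = L := rfl
      linarith
    obtain ⟨z, hz, hzl⟩ := exists_lt_of_csInf_lt ⟨z0, hz0⟩ h3
    exact ⟨z, csInf_le hbdd hz, hzl, hz.2.2⟩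
  choose l hl1 hl2 V hV using hch
  have hfrac : ∀ n : ℕ, 0 < 1 / ((n : ℝ) + 1) ∧ 1 / ((n : ℝ) + 1) ≤ 1 := by
    intro n
    refine ⟨by positivity, ?_⟩
    rw [div_le_one (by positivity)]
    have : (0 : ℝ) ≤ n := Nat.cast_nonneg n
    linarith
  have hlb : ∀ n, l n ≤ (L + b) / 2 := fun n => by
    have := mul_le_mul_of_nonneg_left (hfrac n).2 (by linarith : 0 ≤ (b - L) / 2)
    linarith [hl2 n]
  have hlim : Tendsto l atTop (𝓝 L) := by
    have h5 := ((tendsto_one_div_add_atTop_nhds_zero_nat (𝕜 := ℝ)).const_mul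
      ((b - L) / 2)).const_add L
    rw [mul_zero, add_zero] at h5
    exact tendsto_of_tendsto_of_tendsto_of_le_of_le tendsto_const_nhds h5 hl1
      (fun n => (hl2 n).le)
  have hΛ : (L + b) / 2 < b := by linarith
  have habs : ∀ n, |l n| ≤ (L + b) / 2 := fun n => by
    rw [abs_of_pos (hL0.trans_le (hl1 n))]; exact hlb n
  refine exists_ground hN hp hp2 hμ0 hν (Λ := (L + b) / 2) (by linarith) hΛ hlim habs
    (fun n => (hV n).1) (fun n => ?_) ?_
  · rw [(hV n).2.2]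
    exact level_le hN hp hp2 hμ0 hν ((habs n).trans_lt hΛ)
  · intro e he
    have hLabs : |L| < b := by rw [abs_of_pos hL0]; exact hLlt
    filter_upwards [usc hN hp hp2 hμ0 hν (lam := L) hLabs
      (fun n => (habs n).trans_lt hΛ) hlim he] with n hn
    rw [(hV n).2.2]
    exact hn

end Pool.Agent.Q62.PE
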