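import Pool.Agent.Q62.PE.Fin

/-! The set of the couplings with a ground state. -/

open MeasureTheory Set Filter Topology
open scoped ENNReal NNReal ContDiff

namespace Pool.Agent.Q62.PE

open Pool.Agent.Q62.PC

variable {N : ℕ} {p μ ν lam : ℝ}

theorem sq_zero {w : E N → ℝ} (hw : MemLp w 2 (volume : Measure (E N)))
    (h0 : ∫ x, w x ^ 2 = 0) : w =ᵐ[volume] 0 := by
  have h4 := (integral_eq_zero_iff_of_nonneg (fun x => sq_nonneg _) hw.integrable_sq).1 h0
  filter_upwards [h4] with x hx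
  exact pow_eq_zero_iff (by norm_num) |>.1 hx

/-- `∫ u v > 0` for ground states -/
theorem ground_pos (hN : 3 ≤ N) (hp : 1 < p) (hp2 : (p + 1) * ((N : ℝ) - 2) < 2 * N)
    (hμ : 0 < μ) (hν : 0 < ν) (hl0 : 0 < lam) (hl : lam < Real.sqrt (μ * ν)) {U : Pair N}
    (hU : IsGround p μ ν lam U) : 0 < ∫ x, U.u x * U.v x := by
  obtain ⟨hM, hsol, hE⟩ := hU
  obtain ⟨hS, HS⟩ := sobS_spec N hN
  have ht := tw_gt hN
  have h3 : (3 : ℝ) ≤ N := by exact_mod_cast hN
  have hN0 : (0 : ℝ) < N := by linarith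
  have hUH := hM.1
  have habs : |lam| < Real.sqrt (μ * ν) := by rw [abs_of_pos hl0]; exact hl
  have hle := level_le hN hp hp2 hμ hν habs
  rw [← hE, energy_of_M hM, beta_eq hN] at hle
  have hα : 0 < 1 / 2 - 1 / (p + 1) := by
    have : 1 / (p + 1) < 1 / 2 := one_div_lt_one_div_of_lt (by norm_num) (by linarith)
    linarith
  by_contra hcon
  push Not at hcon
  have h1 := (hsol.2 _ _ hUH.2).2
  have e1 : ∫ x, (inner ℝ (U.h x) (U.h x) + ν * (U.v x * U.v x)) = nsq ν U.v U.h := by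
    refine integral_congr_ae (Eventually.of_forall fun x => ?_)
    simp only
    rw [real_inner_self_eq_norm_sq]
    ring
  have e2 : ∫ x, |U.v x| ^ (tw N - 2) * U.v x * U.v x = pwr (tw N) U.v := by
    refine integral_congr_ae (Eventually.of_forall fun x => ?_)
    simp only
    exact abs_mul_self_rpow (by linarith) _
  rw [e1, e2] at h1
  have h2 : nsq ν U.v U.h ≤ pwr (tw N) U.v := by nlinarith
  have hX0 := pwr_nonneg (tw N) U.v
  have hA0 := pwr_nonneg (p + 1) U.u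
  set X := pwr (tw N) U.v with hX
  have n1 : 0 ≤ ∫ x, ‖U.h x‖ ^ 2 := integral_nonneg fun x => sq_nonneg _
  have n2 : 0 ≤ ∫ x, U.v x ^ 2 := integral_nonneg fun x => sq_nonneg _
  rw [nsq_eq hUH.2] at h2
  have hsob := HS _ _ (hUH.2.inD hN)
  rw [← hX] at hsob
  have hv0 : ∫ x, U.v x ^ 2 = 0 := by
    by_contra hne
    have hvp : 0 < ∫ x, U.v x ^ 2 := lt_of_le_of_ne n2 (Ne.symm hne)
    have hνv := mul_pos hν hvp
    have hXp : 0 < X := by linarith
    have h4 : sobS N * X ^ (2 / tw N) < X := by linarith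
    have e3 : X = X ^ (2 / (N : ℝ)) * X ^ (2 / tw N) := by
      rw [← Real.rpow_add hXp, tw_conj hN, add_sub_cancel, Real.rpow_one]
    have h5 : 0 < X ^ (2 / tw N) := Real.rpow_pos_of_pos hXp _
    have h6 : sobS N < X ^ (2 / (N : ℝ)) := by
      have h5' : sobS N * X ^ (2 / tw N) < X ^ (2 / (N : ℝ)) * X ^ (2 / tw N) := by
        rw [← e3]; exact h4
      exact lt_of_mul_lt_mul_right h5' h5.le
    have h7 := Real.rpow_lt_rpow hS.le h6 (by positivity : 0 < (N : ℝ) / 2)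
    rw [← Real.rpow_mul hX0, show 2 / (N : ℝ) * (N / 2) = 1 by field_simp, Real.rpow_one] at h7
    have h8 : 1 / (N : ℝ) * sobS N ^ ((N : ℝ) / 2) < 1 / N * X :=
      mul_lt_mul_of_pos_left h7 (by positivity)
    unfold cStar at hle
    have h9 := mul_nonneg hα.le hA0
    linarith
  have hvz := sq_zero hUH.2.1 hv0
  have hXz : X = 0 := pwr_zero (by linarith) hvz
  have hh : ∫ x, ‖U.h x‖ ^ 2 = 0 := by
    rw [hv0, mul_zero, add_zero, hXz] at h2
    linarith
  have hhz : U.h =ᵐ[volume] 0 := by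
    have h4 := (integral_eq_zero_iff_of_nonneg (fun x => sq_nonneg _)
      (hUH.2.2.1.integrable_norm_pow (by norm_num))).1 hh
    filter_upwards [h4] with x hx
    have : ‖U.h x‖ ^ 2 = 0 := hx
    exact norm_eq_zero.1 (pow_eq_zero_iff (by norm_num) |>.1 this)
  have h5 := (hsol.2 _ _ hUH.1).2
  have z1 : ∫ x, (inner ℝ (U.h x) (U.g x) + ν * (U.v x * U.u x)) = 0 := by
    rw [show (0 : ℝ) = ∫ _ : E N, (0 : ℝ) by simp]
    refine integral_congr_ae ?_
    filter_upwards [hvz, hhz] with x h6 h7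
    rw [h6, h7]
    simp
  have z2 : ∫ x, |U.v x| ^ (tw N - 2) * U.v x * U.u x = 0 := by
    rw [show (0 : ℝ) = ∫ _ : E N, (0 : ℝ) by simp]
    refine integral_congr_ae ?_
    filter_upwards [hvz] with x h6
    rw [h6]
    simp
  rw [z1, z2, zero_add] at h5
  have z3 : ∫ x, U.u x ^ 2 = 0 := by
    have : ∫ x, U.u x * U.u x = 0 := by
      rcases mul_eq_zero.1 h5.symm with h | h
      · exact absurd h hl0.ne'
      · exact h
    rw [← this]
    refine integral_congr_ae (Eventually.of_forall fun x => ?_)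
    simp only; ring
  exact hM.2.1 ⟨sq_zero hUH.1.1 z3, hvz⟩

/-- above a coupling with a ground state the level is below `S^(N/2) / N` -/
theorem up (hN : 3 ≤ N) (hp : 1 < p) (hp2 : (p + 1) * ((N : ℝ) - 2) < 2 * N)
    (hμ : 0 < μ) (hν : 0 < ν) {l1 : ℝ} (hl0 : 0 < l1) (hl1 : l1 < lam)
    (hl : lam < Real.sqrt (μ * ν)) {U : Pair N} (hU : IsGround p μ ν l1 U) :
    mInf N p μ ν lam < cStar N := by
  have hpos := ground_pos hN hp hp2 hμ hν hl0 (hl1.trans hl) hU
  obtain ⟨hM, hsol, hE⟩ := hU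
  have hUH := hM.1
  have ht := tw_gt hN
  have hle := level_le hN hp hp2 hμ hν (lam := l1) (by rw [abs_of_pos hl0]; exact hl1.trans hl)
  have habs : |lam| < Real.sqrt (μ * ν) := by rw [abs_of_pos (hl0.trans hl1)]; exact hl
  obtain ⟨t, ht1, ht2, ht3, ht4⟩ := exists_proj hN hp hp2 hμ hν habs hUH hM.2.1
  have hAX := hM.pos hN hp hp2
  have hA0 := pwr_nonneg (p + 1) U.u
  have hX0 := pwr_nonneg (tw N) U.v
  rw [energy_of_M hM] at hE
  have hQ1 : quad μ ν l1 U = pwr (p + 1) U.u + pwr (tw N) U.v := hM.2.2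
  have hQlt : quad μ ν lam U < pwr (p + 1) U.u + pwr (tw N) U.v := by
    rw [← hQ1]
    unfold quad
    nlinarith
  set A := pwr (p + 1) U.u with hA
  set X := pwr (tw N) U.v with hX
  have htle : t ≤ 1 := by
    refine T_le (q := p + 1) (r := tw N) (by linarith) ht hA0 hX0 hAX one_pos ht1 ht2 ?_
    rw [Real.one_rpow, Real.one_rpow]
    linarith
  have htlt : t < 1 := by
    refine lt_of_le_of_ne htle fun h => ?_
    rw [h, Real.one_rpow, Real.one_rpow] at ht2
    linarith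
  have hα : 0 < 1 / 2 - 1 / (p + 1) := by
    have : 1 / (p + 1) < 1 / 2 := one_div_lt_one_div_of_lt (by norm_num) (by linarith)
    linarith
  have hβ : 0 < 1 / 2 - 1 / tw N := by
    have : 1 / tw N < 1 / 2 := one_div_lt_one_div_of_lt (by norm_num) ht
    linarith
  have h1 := mInf_le hN hp ht3
  rw [ht4] at h1
  have p1 := Real.rpow_lt_one ht1.le htlt (by linarith : 0 < p + 1)
  have p2 := Real.rpow_lt_one ht1.le htlt (by linarith : 0 < tw N)
  have q1 : t ^ (p + 1) * A ≤ A := by nlinarith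
  have q2 : t ^ tw N * X ≤ X := by nlinarith
  have r1 := mul_le_mul_of_nonneg_left q1 hα.le
  have r2 := mul_le_mul_of_nonneg_left q2 hβ.le
  rcases eq_or_lt_of_le hA0 with h | h
  · have hXp : 0 < X := by linarith
    have q3 : t ^ tw N * X < X := by nlinarith
    have r3 := mul_lt_mul_of_pos_left q3 hβ
    linarith
  · have q3 : t ^ (p + 1) * A < A := by nlinarith
    have r3 := mul_lt_mul_of_pos_left q3 hα
    linarith

/-- the couplings with a ground state form the interval `[L, √(μν))` -/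
theorem interval (hN : 3 ≤ N) (hp : 1 < p) (hp2 : (p + 1) * ((N : ℝ) - 2) < 2 * N)
    (hμ : mu0 N p < μ) (hν : 0 < ν) :
    ∃ L : ℝ, Real.sqrt ((μ - mu0 N p) * ν) ≤ L ∧ L < Real.sqrt (μ * ν) ∧
      ∀ lam : ℝ, 0 < lam → lam < Real.sqrt (μ * ν) →
        ((∃ U : Pair N, IsGround p μ ν lam U) ↔ L ≤ lam) := by
  have hm0 := mu0_pos hN hp hp2
  have hμ0 : 0 < μ := hm0.trans hμ
  obtain ⟨h1, h2, h3⟩ := threshold2 hN hp hp2 hμ hν
  refine ⟨lamEx N p μ ν, h1, h2, fun lam hl0 hl => ⟨fun h => ?_, fun h => ?_⟩⟩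
  · refine csInf_le ⟨0, ?_⟩ ⟨hl0, hl, h⟩
    rintro z ⟨hz, -⟩
    exact hz.le
  · rcases eq_or_lt_of_le h with he | he
    · rw [← he]; exact h3
    · have hne : {lam | 0 < lam ∧ lam < Real.sqrt (μ * ν) ∧
          ∃ V : Pair N, IsGround p μ ν lam V}.Nonempty :=
        ⟨lamEx N p μ ν, (low_pos hN hp hp2 hμ hν).1.trans_le h1, h2, h3⟩
      obtain ⟨z, ⟨hz0, hz1, V, hV⟩, hzl⟩ := exists_lt_of_csInf_lt hne he
      exact exists_of_lt hN hp hp2 hμ0 hν (by rw [abs_of_pos hl0]; exact hl)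
        (up hN hp hp2 hμ0 hν hz0 hzl hl hV)

end Pool.Agent.Q62.PE
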