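import Pool.Agent.Q62.PE.Ext

/-! Existence of ground states. -/

open MeasureTheory Set Filter Topology
open scoped ENNReal NNReal ContDiff

namespace Pool.Agent.Q62.PE

open Pool.Agent.Q62.PC

variable {N : ℕ} {p μ ν lam : ℝ}

/-- translation -/
def tr (y : E N) (U : Pair N) : Pair N :=
  ⟨fun x => U.u (x + y), fun x => U.g (x + y), fun x => U.v (x + y), fun x => U.h (x + y)⟩

theorem pwr_tr (q : ℝ) (u : E N → ℝ) (y : E N) : pwr q (fun x => u (x + y)) = pwr q u :=
  integral_add_right_eq_self (fun x => |u x| ^ q) y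

theorem nsq_tr (m : ℝ) (u : E N → ℝ) (g : E N → E N) (y : E N) :
    nsq m (fun x => u (x + y)) (fun x => g (x + y)) = nsq m u g :=
  integral_add_right_eq_self (fun x => ‖g x‖ ^ 2 + m * u x ^ 2) y

theorem InH.tr {U : Pair N} (h : InH U) (y : E N) : InH (tr y U) :=
  ⟨h.1.translate y, h.2.translate y⟩

theorem energy_tr (U : Pair N) (y : E N) : energy p μ ν lam (tr y U) = energy p μ ν lam U := by
  unfold energy
  have e : ∫ x, (tr y U).u x * (tr y U).v x = ∫ x, U.u x * U.v x :=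
    integral_add_right_eq_self (fun x => U.u x * U.v x) y
  have e1 : nsq μ (tr y U).u (tr y U).g = nsq μ U.u U.g := nsq_tr μ U.u U.g y
  have e2 : nsq ν (tr y U).v (tr y U).h = nsq ν U.v U.h := nsq_tr ν U.v U.h y
  have e3 : pwr (p + 1) (tr y U).u = pwr (p + 1) U.u := pwr_tr _ U.u y
  have e4 : pwr (tw N) (tr y U).v = pwr (tw N) U.v := pwr_tr _ U.v y
  rw [e, e1, e2, e3, e4]

theorem InM.tr (hN : 3 ≤ N) (hp : 1 < p) (hp2 : (p + 1) * ((N : ℝ) - 2) < 2 * N) {U : Pair N}
    (h : InM p μ ν lam U) (y : E N) : InM p μ ν lam (tr y U) := by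
  have e : ∫ x, (PE.tr y U).u x * (PE.tr y U).v x = ∫ x, U.u x * U.v x :=
    integral_add_right_eq_self (fun x => U.u x * U.v x) y
  have e1 : nsq μ (PE.tr y U).u (PE.tr y U).g = nsq μ U.u U.g := nsq_tr μ U.u U.g y
  have e2 : nsq ν (PE.tr y U).v (PE.tr y U).h = nsq ν U.v U.h := nsq_tr ν U.v U.h y
  have e3 : pwr (p + 1) (PE.tr y U).u = pwr (p + 1) U.u := pwr_tr _ U.u y
  have e4 : pwr (tw N) (PE.tr y U).v = pwr (tw N) U.v := pwr_tr _ U.v y
  refine ⟨h.1.tr y, ?_, ?_⟩
  · rw [pos_iff hN hp hp2 (h.1.tr y), e3, e4]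
    exact h.pos hN hp hp2
  · rw [e, e1, e2, e3, e4]
    exact h.2.2

/-- existence of a ground state as a limit of points of the Nehari manifolds with small energy -/
theorem exists_ground (hN : 3 ≤ N) (hp : 1 < p) (hp2 : (p + 1) * ((N : ℝ) - 2) < 2 * N)
    (hμ : 0 < μ) (hν : 0 < ν) {Λ : ℝ} (hΛ0 : 0 ≤ Λ) (hΛ : Λ < Real.sqrt (μ * ν))
    {l : ℕ → ℝ} {lam0 : ℝ} (hl : Tendsto l atTop (𝓝 lam0)) (hlΛ : ∀ n, |l n| ≤ Λ)
    {U : ℕ → Pair N} (hU : ∀ n, InM p μ ν (l n) (U n))
    (hc : ∀ n, energy p μ ν (l n) (U n) ≤ cStar N)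
    (hm : ∀ e : ℝ, 0 < e → ∀ᶠ n in atTop, energy p μ ν (l n) (U n) ≤ mInf N p μ ν lam0 + e) :
    ∃ V : Pair N, IsGround p μ ν lam0 V := by
  have ht := tw_gt hN
  have hl0 : |lam0| ≤ Λ := le_of_tendsto' hl.abs hlΛ
  have hl0' : |lam0| < Real.sqrt (μ * ν) := hl0.trans_lt hΛ
  obtain ⟨c0, K, hc0, hK, HB⟩ := bounds (N := N) hN hp hp2 hμ hν hΛ0 hΛ
  have hb := fun n => HB (l n) (hlΛ n) (U n) (hU n) (hc n)
  obtain ⟨η, hη, Hη⟩ := nonvanish N (by omega) (p + 1) (by linarith) hp2 K c0 hK hc0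
  choose y hy using fun n => Hη _ _ (hU n).1.1 (hb n).2.1 (hb n).1
  -- the translated sequence
  set V1 : ℕ → Pair N := fun n => tr (y n) (U n) with hV1
  have V1H : ∀ n, InH (V1 n) := fun n => (hU n).1.tr (y n)
  obtain ⟨φ, hφ, u0, g0, a1, a2, a3, a4, a5⟩ := extract hN (q := p + 1) (by linarith) hp2
    (w := fun n => (V1 n).u) (G := fun n => (V1 n).g) (fun n => (V1H n).1) (M := K)
    (fun n => by
      have : nsq 1 (V1 n).u (V1 n).g = nsq 1 (U n).u (U n).g := nsq_tr 1 _ _ _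
      rw [this]; exact (hb n).2.1)
  obtain ⟨ψ, hψ, v0, h0, b1, b2, b3, b4, b5⟩ := extract hN (q := p + 1) (by linarith) hp2
    (w := fun n => (V1 (φ n)).v) (G := fun n => (V1 (φ n)).h) (fun n => (V1H (φ n)).2) (M := K)
    (fun n => by
      have : nsq 1 (V1 (φ n)).v (V1 (φ n)).h = nsq 1 (U (φ n)).v (U (φ n)).h := nsq_tr 1 _ _ _
      rw [this]; exact (hb (φ n)).2.2)
  set σ : ℕ → ℕ := φ ∘ ψ with hσ
  have hσm : StrictMono σ := hφ.comp hψ
  set V : ℕ → Pair N := fun n => V1 (σ n) with hV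
  set V0 : Pair N := ⟨u0, g0, v0, h0⟩ with hV0
  have VH : ∀ n, InH (V n) := fun n => V1H (σ n)
  have V0H : InH V0 := ⟨a1, b1⟩
  have w1 : WL (fun n => (V n).u) V0.u := a2.comp hψ
  have w2 : WL (fun n => (V n).g) V0.g := a3.comp hψ
  have w3 : WL (fun n => (V n).v) V0.v := b2
  have w4 : WL (fun n => (V n).h) V0.h := b3
  have ae1 : ∀ᵐ x ∂(volume : Measure (E N)), Tendsto (fun n => (V n).u x) atTop (𝓝 (u0 x)) := by
    filter_upwards [a4] with x hx
    exact hx.comp hψ.tendsto_atTop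
  have ae2 : ∀ᵐ x ∂(volume : Measure (E N)), Tendsto (fun n => (V n).v x) atTop (𝓝 (v0 x)) := b4
  have loc : Tendsto (fun n => ∫⁻ x in Metric.ball 0 2, ‖(V n).u x - u0 x‖ₑ ^ (p + 1))
      atTop (𝓝 0) := (a5 2).comp hψ.tendsto_atTop
  have VM : ∀ n, InM p μ ν (l (σ n)) (V n) := fun n => (hU (σ n)).tr hN hp hp2 (y (σ n))
  have VE : ∀ n, energy p μ ν (l (σ n)) (V n) = energy p μ ν (l (σ n)) (U (σ n)) :=
    fun n => energy_tr _ _
  -- the limit is not zero
  have hmass : ∀ n, ENNReal.ofReal η ≤ ∫⁻ x in Metric.ball 0 2, ‖(V n).u x‖ₑ ^ (p + 1) := by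
    intro n
    have hi := (int_p hN hp hp2 (VH n).1).restrict (s := Metric.ball (0 : E N) 2)
    rw [lint_eq (by linarith) hi]
    refine ENNReal.ofReal_le_ofReal ?_
    have h1 := shift_ball (fun x => |(U (σ n)).u x| ^ (p + 1)) (y (σ n)) 2
    have h2 := hy (σ n)
    rw [← h1] at h2
    exact h2
  have hu0 : 0 < pwr (p + 1) u0 := by
    refine lt_of_le_of_ne (pwr_nonneg _ _) fun h => ?_
    have hz := zero_of_pwr (by linarith : 0 < p + 1) (int_p hN hp hp2 a1) h.symm
    have e : ∀ n, ∫⁻ x in Metric.ball 0 2, ‖(V n).u x - u0 x‖ₑ ^ (p + 1) =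
        ∫⁻ x in Metric.ball 0 2, ‖(V n).u x‖ₑ ^ (p + 1) := by
      intro n
      refine lintegral_congr_ae (ae_restrict_of_ae ?_)
      filter_upwards [hz] with x hx
      rw [hx]; simp
    simp only [e] at loc
    have h1 := ge_of_tendsto' loc hmass
    rw [nonpos_iff_eq_zero, ENNReal.ofReal_eq_zero] at h1
    linarith
  have hV00 : ¬ IsZero V0 := by
    rw [pos_iff hN hp hp2 V0H]
    have : 0 ≤ pwr (tw N) V0.v := pwr_nonneg _ _
    have : 0 < pwr (p + 1) V0.u := hu0
    linarith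
  -- bounds
  set α : ℝ := 1 / 2 - 1 / (p + 1) with hα
  set β : ℝ := 1 / 2 - 1 / tw N with hβ
  have hα0 : 0 < α := by
    have : 1 / (p + 1) < 1 / 2 := one_div_lt_one_div_of_lt (by norm_num) (by linarith)
    rw [hα]; linarith
  have hβ0 : 0 < β := by
    have : 1 / tw N < 1 / 2 := one_div_lt_one_div_of_lt (by norm_num) ht
    rw [hβ]; linarith
  have hVE : ∀ n, α * pwr (p + 1) (V n).u + β * pwr (tw N) (V n).v ≤ cStar N := by
    intro n
    rw [← energy_of_M (VM n), VE n]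
    exact hc (σ n)
  have bA : ∀ n, pwr (p + 1) (V n).u ≤ cStar N / α := by
    intro n
    rw [le_div_iff₀ hα0]
    have := mul_nonneg hβ0.le (pwr_nonneg (tw N) (V n).v)
    have := hVE n
    linarith
  have bX : ∀ n, pwr (tw N) (V n).v ≤ cStar N / β := by
    intro n
    rw [le_div_iff₀ hβ0]
    have := mul_nonneg hα0.le (pwr_nonneg (p + 1) (V n).u)
    have := hVE n
    linarith
  -- the splittings
  have lA := brezis_lieb (q := p + 1) (by linarith) (fun n => (VH n).1.1.1) a1.1.1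
    (fun n => int_p hN hp hp2 (VH n).1) (int_p hN hp hp2 a1) bA ae1
  have lX := brezis_lieb (q := tw N) (by linarith) (fun n => (VH n).2.1.1) b1.1.1
    (fun n => int_tw hN (VH n).2) (int_tw hN b1) bX ae2
  have lQ := quad_split (μ := μ) (ν := ν) (lam := lam0) VH V0H w1 w2 w3 w4
  -- the Nehari functional
  have hlσ : Tendsto (fun n => l (σ n)) atTop (𝓝 lam0) := hl.comp hσm.tendsto_atTop
  have hG : Tendsto (fun n => quad μ ν lam0 (V n) - pwr (p + 1) (V n).u - pwr (tw N) (V n).v)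
      atTop (𝓝 0) := by
    have e : ∀ n, quad μ ν lam0 (V n) - pwr (p + 1) (V n).u - pwr (tw N) (V n).v =
        2 * (l (σ n) - lam0) * ∫ x, (V n).u x * (V n).v x := by
      intro n
      have h1 := (VM n).2.2
      unfold quad
      linarith
    have hbd : ∀ n, |∫ x, (V n).u x * (V n).v x| ≤ K := by
      intro n
      have i1 := (VH n).1.1.integrable_sq
      have i2 := (VH n).2.1.integrable_sq
      have h1 : |∫ x, (V n).u x * (V n).v x| ≤ ∫ x, ((V n).u x ^ 2 + (V n).v x ^ 2) / 2 := by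
        refine abs_integral_le_integral_abs.trans ?_
        refine integral_mono (int_mul2 (VH n).1.1 (VH n).2.1).abs ((i1.add i2).div_const 2)
          fun x => ?_
        simp only
        rw [abs_le]
        constructor <;> nlinarith [sq_nonneg ((V n).u x + (V n).v x),
          sq_nonneg ((V n).u x - (V n).v x)]
      rw [integral_div, integral_add i1 i2] at h1
      have k1 : nsq 1 (V n).u (V n).g ≤ K := by
        have : nsq 1 (V n).u (V n).g = nsq 1 (U (σ n)).u (U (σ n)).g := nsq_tr 1 _ _ _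
        rw [this]; exact (hb (σ n)).2.1
      have k2 : nsq 1 (V n).v (V n).h ≤ K := by
        have : nsq 1 (V n).v (V n).h = nsq 1 (U (σ n)).v (U (σ n)).h := nsq_tr 1 _ _ _
        rw [this]; exact (hb (σ n)).2.2
      rw [nsq_eq (VH n).1, one_mul] at k1
      rw [nsq_eq (VH n).2, one_mul] at k2
      have n1 : 0 ≤ ∫ x, ‖(V n).g x‖ ^ 2 := integral_nonneg fun x => sq_nonneg _
      have n2 : 0 ≤ ∫ x, ‖(V n).h x‖ ^ 2 := integral_nonneg fun x => sq_nonneg _
      linarith
    simp only [e]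
    have h1 : Tendsto (fun n => 2 * (l (σ n) - lam0)) atTop (𝓝 0) := by
      have := (hlσ.sub_const lam0).const_mul 2
      simpa using this
    exact bdd_le_mul_tendsto_zero' K (Eventually.of_forall hbd) h1 |>.congr fun n => mul_comm _ _
  set a : ℕ → ℝ := fun n => pwr (p + 1) (sb (V n) V0).u with ha
  set b : ℕ → ℝ := fun n => pwr (tw N) (sb (V n) V0).v with hb'
  set A0 : ℝ := pwr (p + 1) V0.u with hA0
  set X0 : ℝ := pwr (tw N) V0.v with hX0
  set Q0 : ℝ := quad μ ν lam0 V0 with hQ0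
  have A0p : 0 < A0 := hu0
  have X0n : 0 ≤ X0 := pwr_nonneg _ _
  have lA' : Tendsto (fun n => pwr (p + 1) (V n).u - a n) atTop (𝓝 A0) := lA
  have lX' : Tendsto (fun n => pwr (tw N) (V n).v - b n) atTop (𝓝 X0) := lX
  have a0 : ∀ n, 0 ≤ a n := fun n => pwr_nonneg _ _
  have b0 : ∀ n, 0 ≤ b n := fun n => pwr_nonneg _ _
  have lJ : Tendsto (fun n => α * (pwr (p + 1) (V n).u - a n) + β * (pwr (tw N) (V n).v - b n))
      atTop (𝓝 (α * A0 + β * X0)) := (lA'.const_mul α).add (lX'.const_mul β)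
  have hE : ∀ e : ℝ, 0 < e → ∀ᶠ n in atTop,
      α * pwr (p + 1) (V n).u + β * pwr (tw N) (V n).v ≤ mInf N p μ ν lam0 + e := by
    intro e he
    filter_upwards [hσm.tendsto_atTop.eventually (hm e he)] with n hn
    rw [← energy_of_M (VM n), VE n]
    exact hn
  have hJm : α * A0 + β * X0 ≤ mInf N p μ ν lam0 := by
    refine le_of_forall_pos_le_add fun e he => ?_
    refine le_of_tendsto lJ ?_
    filter_upwards [hE e he] with n hn
    have h1 := mul_nonneg hα0.le (a0 n)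
    have h2 := mul_nonneg hβ0.le (b0 n)
    linarith
  rcases le_or_gt Q0 (A0 + X0) with hcase | hcase
  · -- the limit is a minimizer
    obtain ⟨t, ht1, ht2, ht3, ht4⟩ := exists_proj hN hp hp2 hμ hν hl0' V0H hV00
    have htle : t ≤ 1 := by
      refine T_le (q := p + 1) (r := tw N) (by linarith) ht A0p.le X0n (by linarith) one_pos ht1
        ht2 ?_
      rw [Real.one_rpow, Real.one_rpow]
      linarith
    have h1 := mInf_le hN hp ht3
    rw [ht4, ← hα, ← hβ, ← hA0, ← hX0] at h1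
    have h2 : t ^ tw N * X0 ≤ X0 := by
      have := Real.rpow_le_one ht1.le htle (by linarith : 0 ≤ tw N)
      nlinarith
    have ht1' : t = 1 := by
      by_contra hne
      have hlt : t < 1 := lt_of_le_of_ne htle hne
      have h3 := Real.rpow_lt_one ht1.le hlt (by linarith : 0 < p + 1)
      have h4 : t ^ (p + 1) * A0 < A0 := by nlinarith
      have h5 := mul_lt_mul_of_pos_left h4 hα0
      have h6 := mul_le_mul_of_nonneg_left h2 hβ0.le
      linarith
    have e1 : sm t V0 = V0 := by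
      rw [ht1']
      simp [sm, hV0]
    rw [e1] at ht3
    have hEm : energy p μ ν lam0 V0 = mInf N p μ ν lam0 := by
      refine le_antisymm ?_ (mInf_le hN hp ht3)
      rw [energy_of_M ht3]
      exact hJm
    refine ⟨V0, ht3, minimizer_sol hN hp hp2 hμ hν hl0' ht3 fun W hW => ?_, hEm⟩
    rw [hEm]
    exact mInf_le hN hp hW
  · -- impossible
    exfalso
    set J0 : ℝ := α * A0 + β * X0 with hJ0
    have hJ0p : 0 < J0 := add_pos_of_pos_of_nonneg (mul_pos hα0 A0p) (mul_nonneg hβ0.le X0n)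
    have hdiff : Tendsto (fun n => quad μ ν lam0 (sb (V n) V0) - a n - b n) atTop
        (𝓝 (0 - (Q0 - A0 - X0))) := by
      have h1 := hG.sub ((lQ.sub lA').sub lX')
      refine h1.congr fun n => ?_
      ring
    have hneg : 0 - (Q0 - A0 - X0) < 0 := by linarith
    have hJ4 : 0 < J0 / 4 := by linarith
    have hlow : J0 - J0 / 4 < α * A0 + β * X0 := by rw [← hJ0]; linarith
    obtain ⟨n, hn1, hn2, hn3⟩ := ((hdiff.eventually (gt_mem_nhds hneg)).and
      ((hE (J0 / 4) hJ4).and (lJ.eventually (lt_mem_nhds hlow)))).exists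
    have hWH : InH (sb (V n) V0) := (VH n).sb V0H
    have hW0 : ¬ IsZero (sb (V n) V0) := by
      intro hz
      have e1 : a n = 0 := pwr_zero (by linarith) hz.1
      have e2 : b n = 0 := pwr_zero (by linarith) hz.2
      obtain ⟨δ, hδ, -, H⟩ := quad_ge (N := N) hμ hν (abs_nonneg lam0) hl0'
      have h1 := H lam0 le_rfl _ hWH
      have n1 : 0 ≤ ∫ x, ‖(sb (V n) V0).h x‖ ^ 2 := integral_nonneg fun x => sq_nonneg _
      have n2 : 0 ≤ nsq 1 (sb (V n) V0).u (sb (V n) V0).g := nsq_nonneg zero_le_one _ _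
      have n3 : 0 ≤ ∫ x, (sb (V n) V0).v x ^ 2 := integral_nonneg fun x => sq_nonneg _
      have n4 := mul_nonneg hδ.le (add_nonneg n2 n3)
      linarith
    obtain ⟨t, ht1, ht2, ht3, ht4⟩ := exists_proj hN hp hp2 hμ hν hl0' hWH hW0
    have htle : t ≤ 1 := by
      refine T_le (q := p + 1) (r := tw N) (by linarith) ht (a0 n) (b0 n)
        ((pos_iff hN hp hp2 hWH).1 hW0) one_pos ht1 ht2 ?_
      rw [Real.one_rpow, Real.one_rpow]
      have e3 : a n = pwr (p + 1) (sb (V n) V0).u := rfl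
      have e4 : b n = pwr (tw N) (sb (V n) V0).v := rfl
      linarith
    have h1 := mInf_le hN hp ht3
    rw [ht4] at h1
    have h2 : t ^ (p + 1) * a n ≤ a n := by
      have := Real.rpow_le_one ht1.le htle (by linarith : 0 ≤ p + 1)
      nlinarith [a0 n]
    have h3 : t ^ tw N * b n ≤ b n := by
      have := Real.rpow_le_one ht1.le htle (by linarith : 0 ≤ tw N)
      nlinarith [b0 n]
    have h4 := mul_le_mul_of_nonneg_left h2 hα0.le
    have h5 := mul_le_mul_of_nonneg_left h3 hβ0.le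
    have e3 : a n = pwr (p + 1) (sb (V n) V0).u := rfl
    have e4 : b n = pwr (tw N) (sb (V n) V0).v := rfl
    rw [← e3, ← e4, ← hα, ← hβ] at h1
    linarith

end Pool.Agent.Q62.PE
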