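import Pool.Agent.Q62.PE.Sharp

/-! The Nehari manifold. -/

open MeasureTheory Set Filter Topology
open scoped ENNReal NNReal ContDiff

namespace Pool.Agent.Q62.PE

open Pool.Agent.Q62.PC

variable {N : ℕ} {p μ ν lam : ℝ}

/-- the quadratic form -/
noncomputable def quad (μ ν lam : ℝ) (U : Pair N) : ℝ :=
  nsq μ U.u U.g + nsq ν U.v U.h - 2 * lam * ∫ x, U.u x * U.v x

/-- `t U` -/
def sm (t : ℝ) (U : Pair N) : Pair N :=
  ⟨fun x => t * U.u x, fun x => t • U.g x, fun x => t * U.v x, fun x => t • U.h x⟩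

/-- `U - W` -/
def sb (U W : Pair N) : Pair N :=
  ⟨fun x => U.u x - W.u x, fun x => U.g x - W.g x, fun x => U.v x - W.v x,
    fun x => U.h x - W.h x⟩

/-- `U + s W` -/
def ad (U : Pair N) (s : ℝ) (W : Pair N) : Pair N :=
  ⟨fun x => U.u x + s * W.u x, fun x => U.g x + s • W.g x, fun x => U.v x + s * W.v x,
    fun x => U.h x + s • W.h x⟩

theorem InH.sm {U : Pair N} (h : InH U) (t : ℝ) : InH (sm t U) := ⟨h.1.smul t, h.2.smul t⟩

theorem InH.sb {U W : Pair N} (h : InH U) (h' : InH W) : InH (sb U W) :=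
  ⟨h.1.sub h'.1, h.2.sub h'.2⟩

theorem InH.ad {U W : Pair N} (h : InH U) (s : ℝ) (h' : InH W) : InH (ad U s W) :=
  ⟨h.1.add (h'.1.smul s), h.2.add (h'.2.smul s)⟩

theorem quad_eq {U : Pair N} (h : InH U) : quad μ ν lam U = (∫ x, ‖U.g x‖ ^ 2) +
    μ * (∫ x, U.u x ^ 2) + (∫ x, ‖U.h x‖ ^ 2) + ν * (∫ x, U.v x ^ 2) -
      2 * lam * ∫ x, U.u x * U.v x := by
  unfold quad
  rw [nsq_eq h.1, nsq_eq h.2]
  ring

theorem energy_eq (U : Pair N) : energy p μ ν lam U =
    1 / 2 * quad μ ν lam U - 1 / (p + 1) * pwr (p + 1) U.u - 1 / tw N * pwr (tw N) U.v := by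
  unfold energy quad
  ring

theorem energy_of_M {U : Pair N} (h : InM p μ ν lam U) : energy p μ ν lam U =
    (1 / 2 - 1 / (p + 1)) * pwr (p + 1) U.u + (1 / 2 - 1 / tw N) * pwr (tw N) U.v := by
  have h1 : quad μ ν lam U = pwr (p + 1) U.u + pwr (tw N) U.v := h.2.2
  rw [energy_eq, h1]
  ring

theorem quad_sm (t : ℝ) {U : Pair N} (h : InH U) :
    quad μ ν lam (sm t U) = t ^ 2 * quad μ ν lam U := by
  rw [quad_eq h, quad_eq (h.sm t)]
  simp only [sm]
  have e1 : ∀ G : E N → E N, ∫ x, ‖t • G x‖ ^ 2 = t ^ 2 * ∫ x, ‖G x‖ ^ 2 := by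
    intro G
    rw [← integral_const_mul]
    refine integral_congr_ae (Eventually.of_forall fun x => ?_)
    simp only
    rw [norm_smul, mul_pow, Real.norm_eq_abs, sq_abs]
  have e2 : ∀ w : E N → ℝ, ∫ x, (t * w x) ^ 2 = t ^ 2 * ∫ x, w x ^ 2 := by
    intro w
    rw [← integral_const_mul]
    refine integral_congr_ae (Eventually.of_forall fun x => ?_)
    simp only
    ring
  have e3 : ∫ x, t * U.u x * (t * U.v x) = t ^ 2 * ∫ x, U.u x * U.v x := by
    rw [← integral_const_mul]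
    refine integral_congr_ae (Eventually.of_forall fun x => ?_)
    simp only
    ring
  rw [e1, e1, e2, e2, e3]
  ring

/-- the bilinear form -/
noncomputable def bil (μ ν lam : ℝ) (U W : Pair N) : ℝ :=
  (∫ x, inner ℝ (U.g x) (W.g x)) + μ * (∫ x, U.u x * W.u x) +
    (∫ x, inner ℝ (U.h x) (W.h x)) + ν * (∫ x, U.v x * W.v x) -
    lam * ((∫ x, U.u x * W.v x) + ∫ x, U.v x * W.u x)

theorem int_add_sq {G H : E N → E N} (hG : MemLp G 2 (volume : Measure (E N)))
    (hH : MemLp H 2 (volume : Measure (E N))) (s : ℝ) :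
    ∫ x, ‖G x + s • H x‖ ^ 2 = (∫ x, ‖G x‖ ^ 2) + 2 * s * (∫ x, inner ℝ (G x) (H x)) +
      s ^ 2 * ∫ x, ‖H x‖ ^ 2 := by
  have i1 : Integrable (fun x => ‖G x‖ ^ 2) (volume : Measure (E N)) :=
    hG.integrable_norm_pow (by norm_num)
  have i2 : Integrable (fun x => ‖H x‖ ^ 2) (volume : Measure (E N)) :=
    hH.integrable_norm_pow (by norm_num)
  have i3 : Integrable (fun x => (inner ℝ (G x) (H x) : ℝ)) (volume : Measure (E N)) :=
    int_inner hG hH
  have i4 : Integrable (fun x => ‖G x‖ ^ 2 + 2 * s * inner ℝ (G x) (H x))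
    (volume : Measure (E N)) := i1.add (i3.const_mul (2 * s))
  rw [← integral_const_mul, ← integral_const_mul, ← integral_add i1 (i3.const_mul (2 * s)),
    ← integral_add i4 (i2.const_mul (s ^ 2))]
  refine integral_congr_ae (Eventually.of_forall fun x => ?_)
  simp only
  rw [norm_add_sq_real, norm_smul, mul_pow, Real.norm_eq_abs, sq_abs, inner_smul_right]
  ring

theorem int_add_sq' {G H : E N → ℝ} (hG : MemLp G 2 (volume : Measure (E N)))
    (hH : MemLp H 2 (volume : Measure (E N))) (s : ℝ) :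
    ∫ x, (G x + s * H x) ^ 2 = (∫ x, G x ^ 2) + 2 * s * (∫ x, G x * H x) +
      s ^ 2 * ∫ x, H x ^ 2 := by
  have i1 : Integrable (fun x => G x ^ 2) (volume : Measure (E N)) := hG.integrable_sq
  have i2 : Integrable (fun x => H x ^ 2) (volume : Measure (E N)) := hH.integrable_sq
  have i3 : Integrable (fun x => G x * H x) (volume : Measure (E N)) := int_mul2 hG hH
  have i4 : Integrable (fun x => G x ^ 2 + 2 * s * (G x * H x))
    (volume : Measure (E N)) := i1.add (i3.const_mul (2 * s))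
  rw [← integral_const_mul, ← integral_const_mul, ← integral_add i1 (i3.const_mul (2 * s)),
    ← integral_add i4 (i2.const_mul (s ^ 2))]
  refine integral_congr_ae (Eventually.of_forall fun x => ?_)
  simp only
  ring

theorem int_add_mul {a b c d : E N → ℝ} (ha : MemLp a 2 (volume : Measure (E N)))
    (hb : MemLp b 2 (volume : Measure (E N))) (hc : MemLp c 2 (volume : Measure (E N)))
    (hd : MemLp d 2 (volume : Measure (E N))) (s : ℝ) :
    ∫ x, (a x + s * c x) * (b x + s * d x) = (∫ x, a x * b x) +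
      s * ((∫ x, a x * d x) + ∫ x, b x * c x) + s ^ 2 * ∫ x, c x * d x := by
  have i1 : Integrable (fun x => a x * b x) (volume : Measure (E N)) := int_mul2 ha hb
  have i2 : Integrable (fun x => a x * d x) (volume : Measure (E N)) := int_mul2 ha hd
  have i3 : Integrable (fun x => b x * c x) (volume : Measure (E N)) := int_mul2 hb hc
  have i4 : Integrable (fun x => c x * d x) (volume : Measure (E N)) := int_mul2 hc hd
  have i5 : Integrable (fun x => s * (a x * d x + b x * c x))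
    (volume : Measure (E N)) := (i2.add i3).const_mul s
  have i6 : Integrable (fun x => a x * b x + s * (a x * d x + b x * c x))
    (volume : Measure (E N)) := i1.add i5
  rw [← integral_add i2 i3, ← integral_const_mul, ← integral_const_mul, ← integral_add i1 i5,
    ← integral_add i6 (i4.const_mul (s ^ 2))]
  refine integral_congr_ae (Eventually.of_forall fun x => ?_)
  simp only
  ring

theorem quad_ad {U W : Pair N} (hU : InH U) (s : ℝ) (hW : InH W) :
    quad μ ν lam (ad U s W) = quad μ ν lam U + 2 * s * bil μ ν lam U W +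
      s ^ 2 * quad μ ν lam W := by
  rw [quad_eq hU, quad_eq hW, quad_eq (hU.ad s hW)]
  simp only [ad]
  rw [int_add_sq hU.1.2.1 hW.1.2.1, int_add_sq hU.2.2.1 hW.2.2.1, int_add_sq' hU.1.1 hW.1.1,
    int_add_sq' hU.2.1 hW.2.1, int_add_mul hU.1.1 hU.2.1 hW.1.1 hW.2.1]
  unfold bil
  ring

/-- coercivity -/
theorem quad_ge (hμ : 0 < μ) (hν : 0 < ν) {Λ : ℝ} (hΛ0 : 0 ≤ Λ) (hΛ : Λ < Real.sqrt (μ * ν)) :
    ∃ δ : ℝ, 0 < δ ∧ δ ≤ 1 ∧ ∀ lam : ℝ, |lam| ≤ Λ → ∀ U : Pair N, InH U →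
      (∫ x, ‖U.h x‖ ^ 2) + δ * (nsq 1 U.u U.g + ∫ x, U.v x ^ 2) ≤ quad μ ν lam U := by
  have hs : 0 < Real.sqrt (μ * ν) := Real.sqrt_pos.2 (by positivity)
  set ρ : ℝ := Λ / Real.sqrt (μ * ν) with hρ
  have hρ0 : 0 ≤ ρ := by positivity
  have hρ1 : ρ < 1 := by rw [hρ, div_lt_one hs]; exact hΛ
  set δ0 : ℝ := (1 - ρ) * min μ ν with hδ0
  have hmin : 0 < min μ ν := lt_min hμ hν
  have hδ0p : 0 < δ0 := mul_pos (by linarith) hmin
  refine ⟨min 1 δ0, lt_min one_pos hδ0p, min_le_left _ _, ?_⟩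
  intro lam hlam U hU
  have h1 : min 1 δ0 ≤ 1 := min_le_left _ _
  have h2 : min 1 δ0 ≤ δ0 := min_le_right _ _
  have iu := hU.1.1.integrable_sq
  have iv := hU.2.1.integrable_sq
  have iuv := int_mul2 hU.1.1 hU.2.1
  have key : δ0 * ((∫ x, U.u x ^ 2) + ∫ x, U.v x ^ 2) ≤
      μ * (∫ x, U.u x ^ 2) + ν * (∫ x, U.v x ^ 2) - 2 * lam * ∫ x, U.u x * U.v x := by
    have j1 : Integrable (fun x => μ * U.u x ^ 2 + ν * U.v x ^ 2) (volume : Measure (E N)) :=
      (iu.const_mul μ).add (iv.const_mul ν)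
    rw [← integral_add iu iv, ← integral_const_mul, ← integral_const_mul, ← integral_const_mul,
      ← integral_const_mul, ← integral_add (iu.const_mul μ) (iv.const_mul ν),
      ← integral_sub j1 (iuv.const_mul (2 * lam))]
    refine integral_mono ((iu.add iv).const_mul δ0) (j1.sub (iuv.const_mul (2 * lam))) fun x => ?_
    simp only
    set a := U.u x
    set b := U.v x
    have e1 : Real.sqrt (μ * ν) * |a * b| ≤ (μ * a ^ 2 + ν * b ^ 2) / 2 := by
      rw [Real.sqrt_mul hμ.le, abs_mul]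
      have := sq_nonneg (Real.sqrt μ * |a| - Real.sqrt ν * |b|)
      have e3 := Real.sq_sqrt hμ.le
      have e4 := Real.sq_sqrt hν.le
      have e5 := sq_abs a
      have e6 := sq_abs b
      have e7 : (Real.sqrt μ * |a| - Real.sqrt ν * |b|) ^ 2 =
        Real.sqrt μ ^ 2 * |a| ^ 2 + Real.sqrt ν ^ 2 * |b| ^ 2 -
          2 * (Real.sqrt μ * Real.sqrt ν * (|a| * |b|)) := by ring
      rw [e3, e4, e5, e6] at e7
      linarith
    have e2 : 2 * lam * (a * b) ≤ ρ * (μ * a ^ 2 + ν * b ^ 2) := by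
      have h3 : lam * (a * b) ≤ Λ * |a * b| := by
        calc lam * (a * b) ≤ |lam * (a * b)| := le_abs_self _
          _ = |lam| * |a * b| := abs_mul _ _
          _ ≤ _ := mul_le_mul_of_nonneg_right hlam (abs_nonneg _)
      have h4 : Λ * |a * b| = ρ * (Real.sqrt (μ * ν) * |a * b|) := by
        rw [hρ]; field_simp
      have h5 := mul_le_mul_of_nonneg_left e1 hρ0
      linarith
    have h6 : min μ ν * (a ^ 2 + b ^ 2) ≤ μ * a ^ 2 + ν * b ^ 2 := by
      have := min_le_left μ ν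
      have := min_le_right μ ν
      nlinarith [sq_nonneg a, sq_nonneg b]
    have h7 : δ0 * (a ^ 2 + b ^ 2) ≤ (1 - ρ) * (μ * a ^ 2 + ν * b ^ 2) := by
      rw [hδ0, mul_assoc]
      exact mul_le_mul_of_nonneg_left h6 (by linarith)
    linarith
  rw [quad_eq hU, nsq_eq hU.1, one_mul]
  have n1 : 0 ≤ ∫ x, ‖U.g x‖ ^ 2 := integral_nonneg fun x => sq_nonneg _
  have n2 : 0 ≤ (∫ x, U.u x ^ 2) + ∫ x, U.v x ^ 2 :=
    add_nonneg (integral_nonneg fun x => sq_nonneg _) (integral_nonneg fun x => sq_nonneg _)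
  nlinarith [mul_le_mul_of_nonneg_right h1 n1, mul_le_mul_of_nonneg_right h2 n2]

theorem int_p (hN : 3 ≤ N) (hp : 1 < p) (hp2 : (p + 1) * ((N : ℝ) - 2) < 2 * N) {u : E N → ℝ}
    {g : E N → E N} (h : InH1 u g) : Integrable (fun x => |u x| ^ (p + 1))
    (volume : Measure (E N)) := by
  obtain ⟨C, hC, H⟩ := gn N (by omega) (p + 1) (by linarith) hp2
  exact (H u g h).1

theorem int_tw (hN : 3 ≤ N) {u : E N → ℝ} {g : E N → E N} (h : InH1 u g) :
    Integrable (fun x => |u x| ^ tw N) (volume : Measure (E N)) :=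
  tw_int hN (h.inD hN).1

theorem zero_of_pwr {q : ℝ} (hq : 0 < q) {u : E N → ℝ}
    (hi : Integrable (fun x => |u x| ^ q) (volume : Measure (E N))) (h : pwr q u = 0) :
    u =ᵐ[volume] 0 := by
  have h1 := (integral_eq_zero_iff_of_nonneg (fun x => by positivity) hi).1 h
  filter_upwards [h1] with x hx
  have h2 : |u x| ^ q = 0 := hx
  rw [Real.rpow_eq_zero (abs_nonneg _) hq.ne'] at h2
  exact abs_eq_zero.1 h2

theorem pwr_zero {q : ℝ} (hq : 0 < q) {u : E N → ℝ} (h : u =ᵐ[volume] 0) : pwr q u = 0 := by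
  have e : (fun x => |u x| ^ q) =ᵐ[volume] fun _ => (0 : ℝ) := by
    filter_upwards [h] with x hx
    rw [hx]
    simp [Real.zero_rpow hq.ne']
  unfold pwr
  rw [integral_congr_ae e]; simp

/-- `(u, v) ≠ 0` -/
theorem pos_iff (hN : 3 ≤ N) (hp : 1 < p) (hp2 : (p + 1) * ((N : ℝ) - 2) < 2 * N) {U : Pair N}
    (h : InH U) : ¬ IsZero U ↔ 0 < pwr (p + 1) U.u + pwr (tw N) U.v := by
  have ht := tw_gt hN
  have h1 := pwr_nonneg (p + 1) U.u
  have h2 := pwr_nonneg (tw N) U.v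
  constructor
  · intro h0
    by_contra hcon
    apply h0
    exact ⟨zero_of_pwr (by linarith) (int_p hN hp hp2 h.1) (by linarith),
      zero_of_pwr (by linarith) (int_tw hN h.2) (by linarith)⟩
  · intro h0 hz
    rw [pwr_zero (by linarith) hz.1, pwr_zero (by linarith) hz.2] at h0
    linarith

theorem InM.pos (hN : 3 ≤ N) (hp : 1 < p) (hp2 : (p + 1) * ((N : ℝ) - 2) < 2 * N) {U : Pair N}
    (h : InM p μ ν lam U) : 0 < pwr (p + 1) U.u + pwr (tw N) U.v :=
  (pos_iff hN hp hp2 h.1).1 h.2.1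

theorem sm_mem (hN : 3 ≤ N) (hp : 1 < p) (hp2 : (p + 1) * ((N : ℝ) - 2) < 2 * N) {U : Pair N}
    (h : InH U) (hpos : 0 < pwr (p + 1) U.u + pwr (tw N) U.v) {t : ℝ} (ht : 0 < t)
    (he : quad μ ν lam U * t ^ 2 = pwr (p + 1) U.u * t ^ (p + 1) + pwr (tw N) U.v * t ^ tw N) :
    InM p μ ν lam (sm t U) ∧ energy p μ ν lam (sm t U) =
      (1 / 2 - 1 / (p + 1)) * (t ^ (p + 1) * pwr (p + 1) U.u) +
        (1 / 2 - 1 / tw N) * (t ^ tw N * pwr (tw N) U.v) := by
  have e1 : pwr (p + 1) (sm t U).u = t ^ (p + 1) * pwr (p + 1) U.u := pwr_smul _ _ ht.le _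
  have e2 : pwr (tw N) (sm t U).v = t ^ tw N * pwr (tw N) U.v := pwr_smul _ _ ht.le _
  have hM : InM p μ ν lam (sm t U) := by
    refine ⟨h.sm t, ?_, ?_⟩
    · rw [pos_iff hN hp hp2 (h.sm t), e1, e2]
      have h1 := pwr_nonneg (p + 1) U.u
      have h2 := pwr_nonneg (tw N) U.v
      have h3 : 0 < t ^ (p + 1) := Real.rpow_pos_of_pos ht _
      have h4 : 0 < t ^ tw N := Real.rpow_pos_of_pos ht _
      rcases eq_or_lt_of_le h1 with h5 | h5
      · have : 0 < pwr (tw N) U.v := by linarith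
        have := mul_pos h4 this
        have := mul_nonneg h3.le h1
        linarith
      · have := mul_pos h3 h5
        have := mul_nonneg h4.le h2
        linarith
    · change quad μ ν lam (sm t U) = _
      rw [quad_sm t h, e1, e2]
      linarith
  refine ⟨hM, ?_⟩
  rw [energy_of_M hM, e1, e2]

theorem mInf_le (hN : 3 ≤ N) (hp : 1 < p) {U : Pair N} (h : InM p μ ν lam U) :
    mInf N p μ ν lam ≤ energy p μ ν lam U := by
  refine csInf_le ⟨0, ?_⟩ ⟨U, h, rfl⟩
  rintro s ⟨W, hW, rfl⟩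
  rw [energy_of_M hW]
  have ht := tw_gt hN
  have h1 : 1 / (p + 1) ≤ 1 / 2 := one_div_le_one_div_of_le (by norm_num) (by linarith)
  have h2 : 1 / tw N ≤ 1 / 2 := one_div_le_one_div_of_le (by norm_num) ht.le
  exact add_nonneg (mul_nonneg (by linarith) (pwr_nonneg _ _))
    (mul_nonneg (by linarith) (pwr_nonneg _ _))

/-- the energy along a ray through a point of the manifold -/
theorem energy_ray {U : Pair N} (hN : 3 ≤ N) (hp : 1 < p) (h : InM p μ ν lam U) {t : ℝ}
    (ht : 0 ≤ t) : energy p μ ν lam (sm t U) ≤ energy p μ ν lam U := by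
  have e1 : pwr (p + 1) (sm t U).u = t ^ (p + 1) * pwr (p + 1) U.u := pwr_smul _ _ ht _
  have e2 : pwr (tw N) (sm t U).v = t ^ tw N * pwr (tw N) U.v := pwr_smul _ _ ht _
  have h1 : quad μ ν lam U = pwr (p + 1) U.u + pwr (tw N) U.v := h.2.2
  have ht2 := tw_gt hN
  rw [energy_eq, energy_eq, e1, e2, quad_sm t h.1, h1]
  have h2 := mul_le_mul_of_nonneg_right (max_one (q := p + 1) (by linarith) ht)
    (pwr_nonneg (p + 1) U.u)
  have h3 := mul_le_mul_of_nonneg_right (max_one (q := tw N) ht2 ht)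
    (pwr_nonneg (tw N) U.v)
  have e3 : 1 / (p + 1) * (t ^ (p + 1) * pwr (p + 1) U.u) =
    t ^ (p + 1) / (p + 1) * pwr (p + 1) U.u := by ring
  have e4 : 1 / tw N * (t ^ tw N * pwr (tw N) U.v) =
    t ^ tw N / tw N * pwr (tw N) U.v := by ring
  rw [e3, e4]
  nlinarith

end Pool.Agent.Q62.PE
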