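import Pool.Agent.Q62.PD.D8
import Pool.Agent.Q62.PE.Defs

/-! Inequalities for real numbers. -/

open MeasureTheory Set Filter Topology
open scoped ENNReal NNReal ContDiff

namespace Pool.Agent.Q62.PE

open Pool.Agent.Q62.PC

theorem F_strict {q r a b s t : ℝ} (hq : 2 < q) (hr : 2 < r) (ha : 0 ≤ a) (hb : 0 ≤ b)
    (hab : 0 < a + b) (hs : 0 ≤ s) (hst : s < t) :
    a * s ^ (q - 2) + b * s ^ (r - 2) < a * t ^ (q - 2) + b * t ^ (r - 2) := by
  have h1 : s ^ (q - 2) < t ^ (q - 2) := Real.rpow_lt_rpow hs hst (by linarith)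
  have h2 : s ^ (r - 2) < t ^ (r - 2) := Real.rpow_lt_rpow hs hst (by linarith)
  rcases eq_or_lt_of_le ha with h | h
  · have hb' : 0 < b := by linarith
    rw [← h]
    nlinarith
  · nlinarith [mul_le_mul_of_nonneg_left h2.le hb]

theorem split2 {q t : ℝ} (ht : 0 < t) : t ^ q = t ^ 2 * t ^ (q - 2) := by
  rw [← Real.rpow_natCast t 2, ← Real.rpow_add ht]
  congr 1; push_cast; ring

theorem exists_T {q r a b Q : ℝ} (hq : 2 < q) (hr : 2 < r) (ha : 0 ≤ a) (hb : 0 ≤ b)
    (hab : 0 < a + b) (hQ : 0 < Q) : ∃ t : ℝ, 0 < t ∧ Q * t ^ 2 = a * t ^ q + b * t ^ r := by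
  set s : ℝ := min (q - 2) (r - 2) with hs
  have hs0 : 0 < s := lt_min (by linarith) (by linarith)
  set M : ℝ := max 1 ((Q / (a + b)) ^ (1 / s)) with hM
  have hM1 : 1 ≤ M := le_max_left _ _
  have hf : ContinuousOn (fun t : ℝ => a * t ^ (q - 2) + b * t ^ (r - 2)) (Icc 0 M) := by
    refine ContinuousOn.add ?_ ?_
    · exact continuousOn_const.mul (continuousOn_id.rpow_const fun x _ => Or.inr (by linarith))
    · exact continuousOn_const.mul (continuousOn_id.rpow_const fun x _ => Or.inr (by linarith))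
  have hMQ : Q ≤ a * M ^ (q - 2) + b * M ^ (r - 2) := by
    have h1 : M ^ s ≤ M ^ (q - 2) := Real.rpow_le_rpow_of_exponent_le hM1 (min_le_left _ _)
    have h2 : M ^ s ≤ M ^ (r - 2) := Real.rpow_le_rpow_of_exponent_le hM1 (min_le_right _ _)
    have h3 : Q / (a + b) ≤ M ^ s := by
      have h4 : ((Q / (a + b)) ^ (1 / s)) ^ s ≤ M ^ s :=
        Real.rpow_le_rpow (by positivity) (le_max_right _ _) hs0.le
      rwa [← Real.rpow_mul (by positivity), one_div, inv_mul_cancel₀ hs0.ne', Real.rpow_one] at h4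
    rw [div_le_iff₀ hab] at h3
    have h5 := mul_le_mul_of_nonneg_left h1 ha
    have h6 := mul_le_mul_of_nonneg_left h2 hb
    nlinarith
  have h0 : (fun t : ℝ => a * t ^ (q - 2) + b * t ^ (r - 2)) 0 = 0 := by
    simp only
    rw [Real.zero_rpow (by linarith), Real.zero_rpow (by linarith)]; ring
  have hiv := intermediate_value_Icc (by linarith : (0 : ℝ) ≤ M) hf
  have hmem : Q ∈ Icc ((fun t : ℝ => a * t ^ (q - 2) + b * t ^ (r - 2)) 0)
      ((fun t : ℝ => a * t ^ (q - 2) + b * t ^ (r - 2)) M) := ⟨by rw [h0]; exact hQ.le, hMQ⟩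
  obtain ⟨t, ht, hft⟩ := hiv hmem
  have ht0 : 0 < t := by
    refine lt_of_le_of_ne ht.1 fun h => ?_
    rw [← h, h0] at hft
    linarith
  refine ⟨t, ht0, ?_⟩
  simp only at hft
  rw [← hft, split2 (q := q) ht0, split2 (q := r) ht0]
  ring

theorem T_le {q r a b Q s t : ℝ} (hq : 2 < q) (hr : 2 < r) (ha : 0 ≤ a) (hb : 0 ≤ b)
    (hab : 0 < a + b) (hs : 0 < s) (ht : 0 < t) (h1 : Q * t ^ 2 = a * t ^ q + b * t ^ r)
    (h2 : Q * s ^ 2 ≤ a * s ^ q + b * s ^ r) : t ≤ s := by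
  by_contra hcon
  push Not at hcon
  have h3 := F_strict hq hr ha hb hab hs.le hcon
  rw [split2 (q := q) ht, split2 (q := r) ht] at h1
  rw [split2 (q := q) hs, split2 (q := r) hs] at h2
  have h4 : Q = a * t ^ (q - 2) + b * t ^ (r - 2) := by
    have ht2 : 0 < t ^ 2 := by positivity
    have : t ^ 2 * Q = t ^ 2 * (a * t ^ (q - 2) + b * t ^ (r - 2)) := by linarith
    exact mul_left_cancel₀ ht2.ne' this
  have h5 : Q ≤ a * s ^ (q - 2) + b * s ^ (r - 2) := by
    have hs2 : 0 < s ^ 2 := by positivity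
    have : s ^ 2 * Q ≤ s ^ 2 * (a * s ^ (q - 2) + b * s ^ (r - 2)) := by linarith
    exact le_of_mul_le_mul_left this hs2
  linarith

theorem le_T {q r a b Q s t : ℝ} (hq : 2 < q) (hr : 2 < r) (ha : 0 ≤ a) (hb : 0 ≤ b)
    (hab : 0 < a + b) (hs : 0 < s) (ht : 0 < t) (h1 : Q * t ^ 2 = a * t ^ q + b * t ^ r)
    (h2 : a * s ^ q + b * s ^ r ≤ Q * s ^ 2) : s ≤ t := by
  by_contra hcon
  push Not at hcon
  have h3 := F_strict hq hr ha hb hab ht.le hcon
  rw [split2 (q := q) ht, split2 (q := r) ht] at h1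
  rw [split2 (q := q) hs, split2 (q := r) hs] at h2
  have h4 : Q = a * t ^ (q - 2) + b * t ^ (r - 2) := by
    have ht2 : 0 < t ^ 2 := by positivity
    have : t ^ 2 * Q = t ^ 2 * (a * t ^ (q - 2) + b * t ^ (r - 2)) := by linarith
    exact mul_left_cancel₀ ht2.ne' this
  have h5 : a * s ^ (q - 2) + b * s ^ (r - 2) ≤ Q := by
    have hs2 : 0 < s ^ 2 := by positivity
    have : s ^ 2 * (a * s ^ (q - 2) + b * s ^ (r - 2)) ≤ s ^ 2 * Q := by linarith
    exact le_of_mul_le_mul_left this hs2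
  linarith

/-- continuity of the scaling -/
theorem T_lim {q r : ℝ} (hq : 2 < q) (hr : 2 < r) {a b Q T : ℕ → ℝ} {a0 b0 : ℝ}
    (ha : ∀ n, 0 ≤ a n) (hb : ∀ n, 0 ≤ b n) (hab : ∀ n, 0 < a n + b n) (hT : ∀ n, 0 < T n)
    (h : ∀ n, Q n * T n ^ 2 = a n * T n ^ q + b n * T n ^ r)
    (la : Tendsto a atTop (𝓝 a0)) (lb : Tendsto b atTop (𝓝 b0))
    (lQ : Tendsto Q atTop (𝓝 (a0 + b0))) (h0 : 0 < a0 + b0) : Tendsto T atTop (𝓝 1) := by
  have ha0 : 0 ≤ a0 := ge_of_tendsto' la ha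
  have hb0 : 0 ≤ b0 := ge_of_tendsto' lb hb
  have hlim : ∀ s : ℝ, Tendsto (fun n => a n * s ^ q + b n * s ^ r - Q n * s ^ 2) atTop
      (𝓝 (a0 * s ^ q + b0 * s ^ r - (a0 + b0) * s ^ 2)) := fun s =>
    ((la.mul_const _).add (lb.mul_const _)).sub (lQ.mul_const _)
  have hval : ∀ s : ℝ, 0 < s → a0 * s ^ q + b0 * s ^ r - (a0 + b0) * s ^ 2 =
      s ^ 2 * ((a0 * s ^ (q - 2) + b0 * s ^ (r - 2)) - (a0 * 1 ^ (q - 2) + b0 * 1 ^ (r - 2))) := by
    intro s hs
    rw [split2 (q := q) hs, split2 (q := r) hs, Real.one_rpow, Real.one_rpow]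
    ring
  rw [tendsto_order]
  refine ⟨fun s hs => ?_, fun s hs => ?_⟩
  · rcases le_or_gt s 0 with hs0 | hs0
    · exact Eventually.of_forall fun n => hs0.trans_lt (hT n)
    set s' : ℝ := (s + 1) / 2 with hs'
    have hs'1 : s' < 1 := by rw [hs']; linarith
    have hs'0 : 0 < s' := by rw [hs']; linarith
    have h1 : a0 * s' ^ q + b0 * s' ^ r - (a0 + b0) * s' ^ 2 < 0 := by
      rw [hval s' hs'0]
      have := F_strict hq hr ha0 hb0 h0 hs'0.le hs'1
      have h2 : 0 < s' ^ 2 := by positivity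
      nlinarith
    filter_upwards [(hlim s').eventually (gt_mem_nhds h1)] with n hn
    have h3 := le_T hq hr (ha n) (hb n) (hab n) hs'0 (hT n) (h n) (by linarith)
    rw [hs'] at h3
    linarith
  · set s' : ℝ := (s + 1) / 2 with hs'
    have hs1 : 1 < s := hs
    have hs'1 : 1 < s' := by rw [hs']; linarith
    have hs'0 : 0 < s' := by linarith
    have h1 : 0 < a0 * s' ^ q + b0 * s' ^ r - (a0 + b0) * s' ^ 2 := by
      rw [hval s' hs'0]
      have := F_strict hq hr ha0 hb0 h0 zero_le_one hs'1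
      have h2 : 0 < s' ^ 2 := by positivity
      exact mul_pos h2 (by linarith)
    filter_upwards [(hlim s').eventually (lt_mem_nhds h1)] with n hn
    have h3 := T_le hq hr (ha n) (hb n) (hab n) hs'0 (hT n) (h n) (by linarith)
    rw [hs'] at h3
    linarith

/-- the function `t² / 2 - t^q / q` is maximal at `1` -/
theorem max_one {q t : ℝ} (hq : 2 < q) (ht : 0 ≤ t) :
    t ^ 2 / 2 - t ^ q / q ≤ 1 / 2 - 1 / q := by
  have h1 := one_add_mul_self_le_rpow_one_add (s := t ^ 2 - 1) (by nlinarith [sq_nonneg t])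
    (p := q / 2) (by linarith)
  have h2 : (1 + (t ^ 2 - 1)) ^ (q / 2) = t ^ q := by
    rw [show 1 + (t ^ 2 - 1) = t ^ 2 by ring, ← Real.rpow_natCast t 2, ← Real.rpow_mul ht]
    congr 1; push_cast; ring
  rw [h2] at h1
  have hq0 : 0 < q := by linarith
  rw [div_sub_div _ _ (by norm_num) hq0.ne', div_sub_div _ _ (by norm_num) hq0.ne',
    div_le_div_iff_of_pos_right (by positivity)]
  nlinarith

theorem young_eps {q e x y : ℝ} (hq : 1 < q) (he : 0 < e) (hx : 0 ≤ x) (hy : 0 ≤ y) :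
    x ^ (q - 1) * y ≤ e * x ^ q + e ^ (1 - q) * y ^ q := by
  have hq1 : 0 < q - 1 := by linarith
  rcases le_or_gt y (e * x) with h | h
  · have h1 : x ^ (q - 1) * y ≤ x ^ (q - 1) * (e * x) :=
      mul_le_mul_of_nonneg_left h (by positivity)
    have h2 : x ^ (q - 1) * (e * x) = e * x ^ q := by
      rcases eq_or_lt_of_le hx with h0 | h0
      · rw [← h0, Real.zero_rpow hq1.ne', Real.zero_rpow (by linarith)]; ring
      · have : x ^ q = x ^ (q - 1) * x := by
          nth_rewrite 3 [← Real.rpow_one x]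
          rw [← Real.rpow_add h0]; congr 1; ring
        rw [this]; ring
    have h3 : 0 ≤ e ^ (1 - q) * y ^ q := by positivity
    linarith
  · have hy0 : 0 < y := lt_of_le_of_lt (by positivity) h
    have h1 : x ^ (q - 1) ≤ (y / e) ^ (q - 1) := by
      refine Real.rpow_le_rpow hx ?_ hq1.le
      rw [le_div_iff₀ he]; linarith
    have h2 : (y / e) ^ (q - 1) * y = e ^ (1 - q) * y ^ q := by
      rw [Real.div_rpow hy he.le, show 1 - q = -(q - 1) by ring, Real.rpow_neg he.le]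
      have : y ^ q = y ^ (q - 1) * y := by
        nth_rewrite 3 [← Real.rpow_one y]
        rw [← Real.rpow_add hy0]; congr 1; ring
      rw [this]
      field_simp
    have h3 := mul_le_mul_of_nonneg_right h1 hy0.le
    have h4 : 0 ≤ e * x ^ q := by positivity
    linarith

theorem abs_mul_self_rpow {q : ℝ} (hq : 1 < q) (a : ℝ) : |a| ^ (q - 2) * a * a = |a| ^ q := by
  rcases eq_or_ne a 0 with h | h
  · rw [h, abs_zero, mul_zero, Real.zero_rpow (by linarith : q ≠ 0)]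
  · have h1 : 0 < |a| := abs_pos.2 h
    rw [mul_assoc, ← sq, ← sq_abs, mul_comm, ← split2 h1]

/-- convexity -/
theorem convex_ineq {q : ℝ} (hq : 1 < q) (a b : ℝ) :
    |a| ^ q + q * (|a| ^ (q - 2) * a * b) ≤ |a + b| ^ q := by
  have hq0 : 0 < q := by linarith
  have hpq : (q / (q - 1)).HolderConjugate q := by
    rw [Real.holderConjugate_iff]
    refine ⟨?_, ?_⟩
    · rw [lt_div_iff₀ (by linarith)]; linarith
    · field_simp
      ring
  have h1 := Real.young_inequality_of_nonneg (Real.rpow_nonneg (abs_nonneg a) (q - 1))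
    (abs_nonneg (a + b)) hpq
  rw [← Real.rpow_mul (abs_nonneg a), show (q - 1) * (q / (q - 1)) = q by
    have : q - 1 ≠ 0 := by linarith
    field_simp] at h1
  have h2 : |a| ^ (q - 2) * a * (a + b) ≤ |a| ^ (q - 1) * |a + b| := by
    rcases eq_or_ne a 0 with h | h
    · rw [h]; simp
      positivity
    · have h1 : 0 < |a| := abs_pos.2 h
      have e : |a| ^ (q - 1) = |a| ^ (q - 2) * |a| := by
        nth_rewrite 3 [← Real.rpow_one |a|]
        rw [← Real.rpow_add h1]; congr 1; ring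
      rw [e, mul_assoc, mul_assoc]
      refine mul_le_mul_of_nonneg_left ?_ (by positivity)
      rw [← abs_mul]; exact le_abs_self _
  have h3 : |a| ^ (q - 2) * a * (a + b) = |a| ^ q + |a| ^ (q - 2) * a * b := by
    rw [mul_add, abs_mul_self_rpow hq]
  have h4 : |a| ^ q / (q / (q - 1)) = |a| ^ q - |a| ^ q / q := by
    have : q - 1 ≠ 0 := by linarith
    field_simp
  rw [h4] at h1
  rw [h3] at h2
  have h5 : |a| ^ (q - 2) * a * b ≤ |a + b| ^ q / q - |a| ^ q / q := by linarith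
  have h6 := mul_le_mul_of_nonneg_left h5 hq0.le
  have h7 : q * (|a + b| ^ q / q - |a| ^ q / q) = |a + b| ^ q - |a| ^ q := by field_simp
  linarith

theorem diff_ineq {q : ℝ} (hq : 1 < q) (a b : ℝ) :
    |(|a + b| ^ q - |a| ^ q)| ≤ q * ((|a| + |b|) ^ (q - 1) * |b|) := by
  have hq0 : 0 < q := by linarith
  have key : ∀ c d : ℝ, |c| ≤ |a| + |b| → |d| = |b| →
      |(|c| ^ (q - 2) * c * d)| ≤ (|a| + |b|) ^ (q - 1) * |b| := by
    intro c d hc hd
    rw [abs_mul, abs_mul, hd, abs_of_nonneg (Real.rpow_nonneg (abs_nonneg c) _)]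
    refine mul_le_mul_of_nonneg_right ?_ (abs_nonneg _)
    rcases eq_or_ne c 0 with h | h
    · rw [h, abs_zero, mul_zero]
      have := abs_nonneg a
      have := abs_nonneg b
      positivity
    · have h1 : 0 < |c| := abs_pos.2 h
      have e : |c| ^ (q - 2) * |c| = |c| ^ (q - 1) := by
        nth_rewrite 2 [← Real.rpow_one |c|]
        rw [← Real.rpow_add h1]; congr 1; ring
      rw [e]
      exact Real.rpow_le_rpow h1.le hc (by linarith)
  rw [abs_le]
  constructor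
  · have h1 := convex_ineq hq a b
    have h2 := key a b (by linarith [abs_nonneg b]) rfl
    have h3 := neg_abs_le (|a| ^ (q - 2) * a * b)
    nlinarith
  · have h1 := convex_ineq hq (a + b) (-b)
    rw [show a + b + -b = a by ring] at h1
    have h2 := key (a + b) (-b) (abs_add_le _ _) (abs_neg b)
    have h3 := neg_abs_le (|a + b| ^ (q - 2) * (a + b) * -b)
    nlinarith

theorem add_rpow_le {q a b : ℝ} (hq : 1 ≤ q) (ha : 0 ≤ a) (hb : 0 ≤ b) :
    (a + b) ^ q ≤ 2 ^ (q - 1) * (a ^ q + b ^ q) := by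
  lift a to ℝ≥0 using ha
  lift b to ℝ≥0 using hb
  exact_mod_cast NNReal.rpow_add_le_mul_rpow_add_rpow a b hq

/-- the pointwise inequality of Brezis and Lieb -/
theorem bl_ineq {q e : ℝ} (hq : 1 < q) (he : 0 < e) : ∃ C : ℝ, 0 ≤ C ∧ ∀ a b : ℝ,
    |(|a + b| ^ q - |a| ^ q - |b| ^ q)| ≤ e * |a| ^ q + C * |b| ^ q := by
  have hq0 : 0 < q := by linarith
  set e' : ℝ := e / (q * 2 ^ (q - 1)) with he'
  have he'0 : 0 < e' := by positivity
  refine ⟨e + q * e' ^ (1 - q) + 1, by positivity, fun a b => ?_⟩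
  have h1 := diff_ineq hq a b
  have h2 := young_eps hq he'0 (add_nonneg (abs_nonneg a) (abs_nonneg b)) (abs_nonneg b)
  have h3 := add_rpow_le hq.le (abs_nonneg a) (abs_nonneg b)
  have h4 : 0 ≤ |b| ^ q := by positivity
  have h5 : q * (e' * (|a| + |b|) ^ q) ≤ e * (|a| ^ q + |b| ^ q) := by
    calc q * (e' * (|a| + |b|) ^ q) ≤ q * (e' * (2 ^ (q - 1) * (|a| ^ q + |b| ^ q))) := by
          gcongr
      _ = _ := by rw [he']; field_simp
  have h6 : |(|a + b| ^ q - |a| ^ q - |b| ^ q)| ≤ |(|a + b| ^ q - |a| ^ q)| + |b| ^ q := by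
    refine (abs_sub _ _).trans (le_of_eq ?_)
    rw [abs_of_nonneg h4]
  have h7 := mul_le_mul_of_nonneg_left h2 hq0.le
  nlinarith

end Pool.Agent.Q62.PE
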