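import Pool.Agent.Q62.PE.Van

/-! The sharp constants. -/

open MeasureTheory Set Filter Topology
open scoped ENNReal NNReal ContDiff

namespace Pool.Agent.Q62.PE

open Pool.Agent.Q62.PC

theorem tw_gt {N : ℕ} (hN : 3 ≤ N) : 2 < tw N := two_lt_ps hN

theorem ps_tw (N : ℕ) : ps N = ENNReal.ofReal (tw N) := rfl

theorem tw_conj {N : ℕ} (hN : 3 ≤ N) : 2 / tw N = 1 - 2 / N := by
  have h3 : (3 : ℝ) ≤ N := by exact_mod_cast hN
  unfold tw
  have : (N : ℝ) - 2 ≠ 0 := by linarith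
  have : (N : ℝ) ≠ 0 := by linarith
  field_simp

theorem sup_mem {ι : Type*} {a b : ι → ℝ} (ha : ∀ i, 0 ≤ a i) (hb : ∀ i, 0 ≤ b i) {i0 : ι}
    (h0 : 0 < a i0) {s0 : ℝ} (hs : ∀ i, s0 * a i ≤ b i) :
    (∀ i, sSup {s : ℝ | ∀ i, s * a i ≤ b i} * a i ≤ b i) ∧
      s0 ≤ sSup {s : ℝ | ∀ i, s * a i ≤ b i} := by
  have hbdd : BddAbove {s : ℝ | ∀ i, s * a i ≤ b i} := by
    refine ⟨b i0 / a i0, fun s hs => ?_⟩
    rw [le_div_iff₀ h0]
    exact hs i0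
  refine ⟨fun i => ?_, le_csSup hbdd hs⟩
  rcases eq_or_lt_of_le (ha i) with h | h
  · rw [← h, mul_zero]; exact hb i
  · rw [← le_div_iff₀ h]
    refine csSup_le ⟨s0, hs⟩ fun s hs => ?_
    rw [le_div_iff₀ h]
    exact hs i

theorem sup_sharp {ι : Type*} {a b : ι → ℝ} {i0 : ι}
    (h0 : 0 < a i0) {s : ℝ} (hs : sSup {s : ℝ | ∀ i, s * a i ≤ b i} < s) :
    ∃ i, b i < s * a i := by
  by_contra hcon
  push Not at hcon
  have hbdd : BddAbove {s : ℝ | ∀ i, s * a i ≤ b i} := by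
    refine ⟨b i0 / a i0, fun s hs => ?_⟩
    rw [le_div_iff₀ h0]
    exact hs i0
  exact absurd (le_csSup hbdd (show s ∈ {s : ℝ | ∀ i, s * a i ≤ b i} from hcon)) (by linarith)

/-- a test function -/
theorem exists_bump (N : ℕ) : ∃ φ : E N → ℝ, IsTest φ ∧ ∀ q : ℝ, 0 < q → 0 < pwr q φ := by
  let φ : ContDiffBump (0 : E N) := ⟨1 / 2, 1, by norm_num, by norm_num⟩
  have hφ : IsTest (φ : E N → ℝ) := ⟨φ.contDiff, φ.hasCompactSupport⟩
  refine ⟨φ, hφ, fun q hq => ?_⟩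
  have hcont : Continuous fun x => |φ x| ^ q :=
    hφ.1.continuous.abs.rpow_const fun x => Or.inr hq.le
  refine hcont.integral_pos_of_hasCompactSupport_nonneg_nonzero (x := 0) (hφ.2.mono ?_)
    (fun x => by positivity) ?_
  · intro x hx
    simp only [Function.mem_support, ne_eq] at hx ⊢
    intro h0
    apply hx
    rw [h0, abs_zero, Real.zero_rpow hq.ne']
  · have : φ 0 = 1 := φ.one_of_mem_closedBall (Metric.mem_closedBall_self (by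
      change (0 : ℝ) ≤ 1 / 2; norm_num))
    rw [this]; simp

theorem pwr_nonneg {N : ℕ} (q : ℝ) (u : E N → ℝ) : 0 ≤ pwr q u :=
  integral_nonneg fun x => by positivity

theorem pwr_smul {N : ℕ} (q : ℝ) (t : ℝ) (ht : 0 ≤ t) (u : E N → ℝ) :
    pwr q (fun x => t * u x) = t ^ q * pwr q u := by
  unfold pwr
  rw [← integral_const_mul]
  refine integral_congr_ae (Eventually.of_forall fun x => ?_)
  simp only
  rw [abs_mul, abs_of_nonneg ht, Real.mul_rpow ht (abs_nonneg _)]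

/-- `v ∈ D^{1,2}` is in `L^{2*}` -/
theorem tw_int {N : ℕ} (hN : 3 ≤ N) {v : E N → ℝ} (hv : MemLp v (ps N) volume) :
    Integrable (fun x => |v x| ^ tw N) (volume : Measure (E N)) := by
  have h := hv.integrable_norm_rpow (by
    have := ps_ge hN; intro h0; rw [h0] at this; simp at this) (ps_top N)
  rw [ps_toReal hN] at h
  exact h

theorem pwr_tw {N : ℕ} (hN : 3 ≤ N) {v : E N → ℝ} (hv : MemLp v (ps N) volume) :
    pwr (tw N) v ^ (1 / tw N) = (eLpNorm v (ps N) volume).toReal := by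
  have h0 : ps N ≠ 0 := by have := ps_ge hN; intro h0; rw [h0] at this; simp at this
  have e := hv.eLpNorm_eq_integral_rpow_norm h0 (ps_top N)
  rw [ps_toReal hN] at e
  rw [e, ENNReal.toReal_ofReal (by positivity), one_div]
  rfl

/-- the Sobolev inequality with some constant -/
theorem sob_real (N : ℕ) (hN : 3 ≤ N) : ∃ s : ℝ, 0 < s ∧ ∀ (u : E N → ℝ) (G : E N → E N),
    InD u G → s * pwr (tw N) u ^ (2 / tw N) ≤ ∫ x, ‖G x‖ ^ 2 := by
  obtain ⟨C, hC⟩ := sob N hN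
  refine ⟨1 / ((C : ℝ) + 1) ^ 2, by positivity, fun u G h => ?_⟩
  have h1 := h.sob hN hC
  have h2 := ENNReal.toReal_mono (ENNReal.mul_ne_top ENNReal.coe_ne_top h.2.1.2.ne) h1
  rw [ENNReal.toReal_mul, ENNReal.coe_toReal, ← pwr_tw hN h.1] at h2
  have ht := tw_gt hN
  have e : pwr (tw N) u ^ (2 / tw N) = (pwr (tw N) u ^ (1 / tw N)) ^ 2 := by
    rw [← Real.rpow_natCast (_ ^ (1 / tw N)) 2, ← Real.rpow_mul (pwr_nonneg _ _)]
    congr 1; push_cast; ring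
  rw [e, int_sq h.2.1, div_mul_eq_mul_div, one_mul, div_le_iff₀ (by positivity)]
  have h3 : 0 ≤ pwr (tw N) u ^ (1 / tw N) := Real.rpow_nonneg (pwr_nonneg _ _) _
  have h4 : 0 ≤ (eLpNorm G 2 volume).toReal := ENNReal.toReal_nonneg
  have h5 : (0 : ℝ) ≤ C := C.2
  have h6 : pwr (tw N) u ^ (1 / tw N) ≤ (C + 1) * (eLpNorm G 2 volume).toReal := by nlinarith
  calc (pwr (tw N) u ^ (1 / tw N)) ^ 2 ≤ ((C + 1) * (eLpNorm G 2 volume).toReal) ^ 2 :=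
        pow_le_pow_left₀ h3 h6 2
    _ = _ := by ring

/-- the sharp Sobolev inequality -/
theorem sobS_spec (N : ℕ) (hN : 3 ≤ N) : 0 < sobS N ∧ ∀ (u : E N → ℝ) (G : E N → E N),
    InD u G → sobS N * pwr (tw N) u ^ (2 / tw N) ≤ ∫ x, ‖G x‖ ^ 2 := by
  obtain ⟨s, hs, H⟩ := sob_real N hN
  obtain ⟨φ, hφ, hφ2⟩ := exists_bump N
  have ht := tw_gt hN
  have hset : {s : ℝ | ∀ (u : E N → ℝ) (G : E N → E N), InD u G →
      s * pwr (tw N) u ^ (2 / tw N) ≤ ∫ x, ‖G x‖ ^ 2} =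
      {s : ℝ | ∀ i : {z : (E N → ℝ) × (E N → E N) // InD z.1 z.2},
        s * pwr (tw N) i.1.1 ^ (2 / tw N) ≤ ∫ x, ‖i.1.2 x‖ ^ 2} := by
    ext s
    exact ⟨fun h i => h _ _ i.2, fun h u G hu => h ⟨(u, G), hu⟩⟩
  have h1 := sup_mem (ι := {z : (E N → ℝ) × (E N → E N) // InD z.1 z.2})
    (a := fun i => pwr (tw N) i.1.1 ^ (2 / tw N)) (b := fun i => ∫ x, ‖i.1.2 x‖ ^ 2)
    (fun i => Real.rpow_nonneg (pwr_nonneg _ _) _)
    (fun i => integral_nonneg fun x => sq_nonneg _) (i0 := ⟨(φ, gradient φ), InD.of_test hφ⟩)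
    (Real.rpow_pos_of_pos (hφ2 _ (by linarith)) _) (s0 := s) (fun i => H _ _ i.2)
  rw [sobS, hset]
  exact ⟨hs.trans_le h1.2, fun u G hu => h1.1 ⟨(u, G), hu⟩⟩

theorem sobS_sharp (N : ℕ) (hN : 3 ≤ N) {s : ℝ} (hs : sobS N < s) :
    ∃ (u : E N → ℝ) (G : E N → E N), InD u G ∧ ∫ x, ‖G x‖ ^ 2 < s * pwr (tw N) u ^ (2 / tw N) := by
  obtain ⟨φ, hφ, hφ2⟩ := exists_bump N
  have ht := tw_gt hN
  have hset : {s : ℝ | ∀ (u : E N → ℝ) (G : E N → E N), InD u G →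
      s * pwr (tw N) u ^ (2 / tw N) ≤ ∫ x, ‖G x‖ ^ 2} =
      {s : ℝ | ∀ i : {z : (E N → ℝ) × (E N → E N) // InD z.1 z.2},
        s * pwr (tw N) i.1.1 ^ (2 / tw N) ≤ ∫ x, ‖i.1.2 x‖ ^ 2} := by
    ext s
    exact ⟨fun h i => h _ _ i.2, fun h u G hu => h ⟨(u, G), hu⟩⟩
  rw [sobS, hset] at hs
  obtain ⟨i, hi⟩ := sup_sharp (ι := {z : (E N → ℝ) × (E N → E N) // InD z.1 z.2})
    (a := fun i => pwr (tw N) i.1.1 ^ (2 / tw N)) (b := fun i => ∫ x, ‖i.1.2 x‖ ^ 2)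
    (i0 := ⟨(φ, gradient φ), InD.of_test hφ⟩)
    (Real.rpow_pos_of_pos (hφ2 _ (by linarith)) _) hs
  exact ⟨_, _, i.2, hi⟩

theorem nsq_nonneg {N : ℕ} {μ : ℝ} (hμ : 0 ≤ μ) (u : E N → ℝ) (g : E N → E N) : 0 ≤ nsq μ u g :=
  integral_nonneg fun x => by positivity

theorem gn_real (N : ℕ) (hN : 3 ≤ N) (q : ℝ) (hq : 2 < q) (hq2 : q * ((N : ℝ) - 2) < 2 * N) :
    ∃ c : ℝ, 0 < c ∧ ∀ (u : E N → ℝ) (g : E N → E N), InH1 u g →
      c * pwr q u ^ (2 / q) ≤ nsq 1 u g := by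
  obtain ⟨C, hC, H⟩ := gn N (by omega) q hq hq2
  have hs := sg_pos hq2
  have hs2 := sg_lt (by omega : 2 ≤ N) hq
  have hq0 : 0 < q := by linarith
  refine ⟨(C ^ (2 / q))⁻¹, by positivity, fun u g hu => ?_⟩
  have h1 := (H u g hu).2
  rw [nsq_eq hu, one_mul]
  set a := ∫ x, u x ^ 2 with ha
  set b := ∫ x, ‖g x‖ ^ 2 with hb
  have ha0 : 0 ≤ a := integral_nonneg fun x => sq_nonneg _
  have hb0 : 0 ≤ b := integral_nonneg fun x => sq_nonneg _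
  have h2 : pwr q u ≤ C * (b + a) ^ (q / 2) := by
    have h3 : a ^ (sg N q / 2) ≤ (b + a) ^ (sg N q / 2) :=
      Real.rpow_le_rpow ha0 (by linarith) (by linarith)
    have h4 : b ^ ((q - sg N q) / 2) ≤ (b + a) ^ ((q - sg N q) / 2) :=
      Real.rpow_le_rpow hb0 (by linarith) (by linarith)
    have h5 : (b + a) ^ (sg N q / 2) * (b + a) ^ ((q - sg N q) / 2) = (b + a) ^ (q / 2) := by
      rw [← Real.rpow_add_of_nonneg (by linarith) (by linarith) (by linarith)]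
      congr 1; ring
    calc pwr q u ≤ C * a ^ (sg N q / 2) * b ^ ((q - sg N q) / 2) := h1
      _ ≤ C * (b + a) ^ (sg N q / 2) * (b + a) ^ ((q - sg N q) / 2) := by gcongr
      _ = _ := by rw [mul_assoc, h5]
  have h3 := Real.rpow_le_rpow (pwr_nonneg q u) h2 (by positivity : 0 ≤ 2 / q)
  rw [Real.mul_rpow hC.le (by positivity), ← Real.rpow_mul (by linarith),
    show q / 2 * (2 / q) = 1 by field_simp, Real.rpow_one] at h3
  rw [inv_mul_le_iff₀ (by positivity)]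
  exact h3

theorem constC_spec (N : ℕ) (hN : 3 ≤ N) (q : ℝ) (hq : 2 < q) (hq2 : q * ((N : ℝ) - 2) < 2 * N) :
    0 < constC N q ∧ ∀ (u : E N → ℝ) (g : E N → E N), InH1 u g →
      constC N q * pwr q u ^ (2 / q) ≤ nsq 1 u g := by
  obtain ⟨s, hs, H⟩ := gn_real N hN q hq hq2
  obtain ⟨φ, hφ, hφ2⟩ := exists_bump N
  have hset : {s : ℝ | ∀ (u : E N → ℝ) (G : E N → E N), InH1 u G →
      s * pwr q u ^ (2 / q) ≤ nsq 1 u G} =
      {s : ℝ | ∀ i : {z : (E N → ℝ) × (E N → E N) // InH1 z.1 z.2},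
        s * pwr q i.1.1 ^ (2 / q) ≤ nsq 1 i.1.1 i.1.2} := by
    ext s
    exact ⟨fun h i => h _ _ i.2, fun h u G hu => h ⟨(u, G), hu⟩⟩
  have h1 := sup_mem (ι := {z : (E N → ℝ) × (E N → E N) // InH1 z.1 z.2})
    (a := fun i => pwr q i.1.1 ^ (2 / q)) (b := fun i => nsq 1 i.1.1 i.1.2)
    (fun i => Real.rpow_nonneg (pwr_nonneg _ _) _)
    (fun i => nsq_nonneg zero_le_one _ _) (i0 := ⟨(φ, gradient φ), InH1.of_test hφ⟩)
    (Real.rpow_pos_of_pos (hφ2 _ (by linarith)) _) (s0 := s) (fun i => H _ _ i.2)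
  rw [constC, hset]
  exact ⟨hs.trans_le h1.2, fun u G hu => h1.1 ⟨(u, G), hu⟩⟩

end Pool.Agent.Q62.PE
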