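import Pool.Agent.Q62.PE.Neh

/-! Minimizers on the Nehari manifold are solutions. -/

open MeasureTheory Set Filter Topology
open scoped ENNReal NNReal ContDiff

namespace Pool.Agent.Q62.PE

open Pool.Agent.Q62.PC

variable {N : ℕ} {p μ ν lam : ℝ}

theorem quad_pos (hμ : 0 < μ) (hν : 0 < ν) (hl : |lam| < Real.sqrt (μ * ν)) {U : Pair N}
    (h : InH U) (h0 : ¬ IsZero U) : 0 < quad μ ν lam U := by
  obtain ⟨δ, hδ, -, H⟩ := quad_ge (N := N) hμ hν (abs_nonneg lam) hl
  have h1 := H lam le_rfl U h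
  have n1 : 0 ≤ ∫ x, ‖U.h x‖ ^ 2 := integral_nonneg fun x => sq_nonneg _
  have n2 : 0 ≤ ∫ x, ‖U.g x‖ ^ 2 := integral_nonneg fun x => sq_nonneg _
  have n3 : 0 ≤ ∫ x, U.u x ^ 2 := integral_nonneg fun x => sq_nonneg _
  have n4 : 0 ≤ ∫ x, U.v x ^ 2 := integral_nonneg fun x => sq_nonneg _
  rw [nsq_eq h.1, one_mul] at h1
  by_contra hcon
  push Not at hcon
  have h2 : δ * ((∫ x, ‖U.g x‖ ^ 2) + (∫ x, U.u x ^ 2) + ∫ x, U.v x ^ 2) ≤ 0 := by linarith
  have h3 : (∫ x, ‖U.g x‖ ^ 2) + (∫ x, U.u x ^ 2) + ∫ x, U.v x ^ 2 ≤ 0 := by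
    by_contra hc
    push Not at hc
    have := mul_pos hδ hc
    linarith
  have z : ∀ w : E N → ℝ, MemLp w 2 (volume : Measure (E N)) → ∫ x, w x ^ 2 = 0 →
      w =ᵐ[volume] 0 := by
    intro w hw h0
    have h4 := (integral_eq_zero_iff_of_nonneg (fun x => sq_nonneg _) hw.integrable_sq).1 h0
    filter_upwards [h4] with x hx
    exact pow_eq_zero_iff (by norm_num) |>.1 hx
  exact h0 ⟨z _ h.1.1 (by linarith), z _ h.2.1 (by linarith)⟩

/-- projection to the Nehari manifold -/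
theorem exists_proj (hN : 3 ≤ N) (hp : 1 < p) (hp2 : (p + 1) * ((N : ℝ) - 2) < 2 * N)
    (hμ : 0 < μ) (hν : 0 < ν) (hl : |lam| < Real.sqrt (μ * ν)) {U : Pair N}
    (h : InH U) (h0 : ¬ IsZero U) : ∃ t : ℝ, 0 < t ∧
      quad μ ν lam U * t ^ 2 = pwr (p + 1) U.u * t ^ (p + 1) + pwr (tw N) U.v * t ^ tw N ∧
      InM p μ ν lam (sm t U) ∧ energy p μ ν lam (sm t U) =
      (1 / 2 - 1 / (p + 1)) * (t ^ (p + 1) * pwr (p + 1) U.u) +
        (1 / 2 - 1 / tw N) * (t ^ tw N * pwr (tw N) U.v) := by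
  have hpos := (pos_iff hN hp hp2 h).1 h0
  obtain ⟨t, ht, he⟩ := exists_T (q := p + 1) (r := tw N) (by linarith) (tw_gt hN)
    (pwr_nonneg (p + 1) U.u) (pwr_nonneg (tw N) U.v) hpos (quad_pos hμ hν hl h h0)
  exact ⟨t, ht, he, sm_mem hN hp hp2 h hpos ht he⟩

theorem inH1_zero (N : ℕ) : InH1 (fun _ : E N => (0 : ℝ)) (fun _ => 0) := by
  have hT : IsTest (fun _ : E N => (0 : ℝ)) := ⟨contDiff_const, HasCompactSupport.zero⟩
  refine InH1.congr (InH1.of_test hT) (ae_eq_refl _) (Eventually.of_forall fun x => ?_)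
  simp [gradient]

theorem exists_nonzero (hN : 3 ≤ N) : ∃ U : Pair N, InH U ∧ ¬ IsZero U := by
  obtain ⟨φ, hφ, hφ2⟩ := exists_bump N
  refine ⟨⟨φ, gradient φ, fun _ => 0, fun _ => 0⟩, ⟨InH1.of_test hφ, inH1_zero N⟩, fun h => ?_⟩
  have := hφ2 1 one_pos
  rw [pwr_zero one_pos h.1] at this
  exact lt_irrefl _ this

theorem M_nonempty (hN : 3 ≤ N) (hp : 1 < p) (hp2 : (p + 1) * ((N : ℝ) - 2) < 2 * N)
    (hμ : 0 < μ) (hν : 0 < ν) (hl : |lam| < Real.sqrt (μ * ν)) :
    ∃ U : Pair N, InM p μ ν lam U := by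
  obtain ⟨U, h1, h2⟩ := exists_nonzero (N := N) hN
  obtain ⟨t, ht, he, h3, h4⟩ := exists_proj hN hp hp2 hμ hν hl h1 h2
  exact ⟨_, h3⟩

/-- near minimizers -/
theorem exists_near (hN : 3 ≤ N) (hp : 1 < p) (hp2 : (p + 1) * ((N : ℝ) - 2) < 2 * N)
    (hμ : 0 < μ) (hν : 0 < ν) (hl : |lam| < Real.sqrt (μ * ν)) {c : ℝ}
    (hc : mInf N p μ ν lam < c) : ∃ U : Pair N, InM p μ ν lam U ∧ energy p μ ν lam U < c := by
  obtain ⟨U, hU⟩ := M_nonempty hN hp hp2 hμ hν hl
  obtain ⟨s, ⟨W, hW, rfl⟩, hs⟩ := exists_lt_of_csInf_lt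
    (s := {s | ∃ U : Pair N, InM p μ ν lam U ∧ s = energy p μ ν lam U}) ⟨_, U, hU, rfl⟩ hc
  exact ⟨W, hW, hs⟩

theorem pwr_lim {q : ℝ} (hq : 1 < q) {u w : E N → ℝ}
    (mu' : AEStronglyMeasurable u (volume : Measure (E N)))
    (mw : AEStronglyMeasurable w (volume : Measure (E N)))
    (hu : Integrable (fun x => |u x| ^ q) (volume : Measure (E N)))
    (hw : Integrable (fun x => |w x| ^ q) (volume : Measure (E N))) {s : ℕ → ℝ}
    (hs : Tendsto s atTop (𝓝 0)) (hs1 : ∀ n, |s n| ≤ 1) :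
    Tendsto (fun n => pwr q (fun x => u x + s n * w x)) atTop (𝓝 (pwr q u)) := by
  unfold pwr
  refine tendsto_integral_of_dominated_convergence
    (fun x => 2 ^ (q - 1) * (|u x| ^ q + |w x| ^ q)) (fun n => ?_) ((hu.add hw).const_mul _)
    (fun n => Eventually.of_forall fun x => ?_) (Eventually.of_forall fun x => ?_)
  · exact (((mu'.add (mw.const_mul (s n))).aemeasurable.norm).pow_const q).aestronglyMeasurable
  · rw [Real.norm_eq_abs, abs_of_nonneg (by positivity)]
    have h1 : |u x + s n * w x| ≤ |u x| + |w x| := by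
      refine (abs_add_le _ _).trans ?_
      rw [abs_mul]
      have := mul_le_mul_of_nonneg_right (hs1 n) (abs_nonneg (w x))
      linarith
    exact (Real.rpow_le_rpow (abs_nonneg _) h1 (by linarith)).trans
      (add_rpow_le hq.le (abs_nonneg _) (abs_nonneg _))
  · have h1 := ((hs.mul_const (w x)).const_add (u x)).abs.rpow_const (p := q)
      (Or.inr (by linarith))
    simpa using h1

theorem nl_int {q : ℝ} (hq : 1 < q) {u w : E N → ℝ}
    (mu' : AEStronglyMeasurable u (volume : Measure (E N)))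
    (mw : AEStronglyMeasurable w (volume : Measure (E N)))
    (hu : Integrable (fun x => |u x| ^ q) (volume : Measure (E N)))
    (hw : Integrable (fun x => |w x| ^ q) (volume : Measure (E N))) :
    Integrable (fun x => |u x| ^ (q - 2) * u x * w x) (volume : Measure (E N)) := by
  refine (hu.add hw).mono' ?_ (Eventually.of_forall fun x => ?_)
  · have h1 : AEStronglyMeasurable (fun x => |u x| ^ (q - 2)) (volume : Measure (E N)) :=
      ((mu'.aemeasurable.norm).pow_const (q - 2)).aestronglyMeasurable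
    exact (h1.mul mu').mul mw
  · have h1 := young_eps hq one_pos (abs_nonneg (u x)) (abs_nonneg (w x))
    rw [Real.one_rpow, one_mul, one_mul] at h1
    refine le_trans (le_of_eq ?_) h1
    rw [Real.norm_eq_abs, abs_mul, abs_mul, abs_of_nonneg (Real.rpow_nonneg (abs_nonneg _) _)]
    congr 1
    rcases eq_or_ne (u x) 0 with h | h
    · rw [h, abs_zero, mul_zero, Real.zero_rpow (by linarith)]
    · have h1 : 0 < |u x| := abs_pos.2 h
      nth_rewrite 2 [← Real.rpow_one |u x|]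
      rw [← Real.rpow_add h1]; congr 1; ring

theorem pwr_convex {q : ℝ} (hq : 1 < q) {u w : E N → ℝ}
    (mu' : AEStronglyMeasurable u (volume : Measure (E N)))
    (mw : AEStronglyMeasurable w (volume : Measure (E N)))
    (hu : Integrable (fun x => |u x| ^ q) (volume : Measure (E N)))
    (hw : Integrable (fun x => |w x| ^ q) (volume : Measure (E N))) (s : ℝ) :
    pwr q u + q * s * (∫ x, |u x| ^ (q - 2) * u x * w x) ≤
      pwr q (fun x => u x + s * w x) := by
  have hi := nl_int hq mu' mw hu hw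
  have hsw : Integrable (fun x => |(-s) * w x| ^ q) (volume : Measure (E N)) := by
    have e : (fun x => |(-s) * w x| ^ q) = fun x => |(-s)| ^ q * |w x| ^ q := by
      funext x
      rw [abs_mul, Real.mul_rpow (abs_nonneg _) (abs_nonneg _)]
    rw [e]
    exact hw.const_mul _
  have h2 := (int_sub_pow hq.le mu' (mw.const_mul (-s)) hu hsw).1
  have e2 : (fun x => |u x - (-s) * w x| ^ q) = fun x => |u x + s * w x| ^ q := by
    funext x
    congr 2; ring
  rw [e2] at h2
  unfold pwr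
  rw [← integral_const_mul, ← integral_add hu (hi.const_mul (q * s))]
  refine integral_mono (hu.add (hi.const_mul (q * s))) h2 fun x => ?_
  have := convex_ineq hq (u x) (s * w x)
  simp only
  refine le_trans (le_of_eq ?_) this
  ring

/-- the derivative at a minimizer is nonnegative -/
theorem deriv_nonneg (hN : 3 ≤ N) (hp : 1 < p) (hp2 : (p + 1) * ((N : ℝ) - 2) < 2 * N)
    (hμ : 0 < μ) (hν : 0 < ν) (hl : |lam| < Real.sqrt (μ * ν)) {U : Pair N}
    (hU : InM p μ ν lam U) (hmin : ∀ W : Pair N, InM p μ ν lam W →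
      energy p μ ν lam U ≤ energy p μ ν lam W) {W : Pair N} (hW : InH W) :
    0 ≤ bil μ ν lam U W - (∫ x, |U.u x| ^ (p + 1 - 2) * U.u x * W.u x) -
      ∫ x, |U.v x| ^ (tw N - 2) * U.v x * W.v x := by
  have ht := tw_gt hN
  have hUH := hU.1
  set α := ∫ x, |U.u x| ^ (p + 1 - 2) * U.u x * W.u x with hα
  set β := ∫ x, |U.v x| ^ (tw N - 2) * U.v x * W.v x with hβ
  set A := pwr (p + 1) U.u with hA
  set X := pwr (tw N) U.v with hX
  have hAX : 0 < A + X := hU.pos hN hp hp2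
  have hQ : quad μ ν lam U = A + X := hU.2.2
  have s0 : Tendsto (fun n : ℕ => 1 / ((n : ℝ) + 1)) atTop (𝓝 0) :=
    tendsto_one_div_add_atTop_nhds_zero_nat
  have s1 : ∀ n : ℕ, |1 / ((n : ℝ) + 1)| ≤ 1 := by
    intro n
    rw [abs_of_nonneg (by positivity), div_le_one (by positivity)]
    have : (0 : ℝ) ≤ n := Nat.cast_nonneg n
    linarith
  have lA := pwr_lim (q := p + 1) (by linarith) hUH.1.1.1 hW.1.1.1 (int_p hN hp hp2 hUH.1)
    (int_p hN hp hp2 hW.1) s0 s1
  have lX := pwr_lim (q := tw N) (by linarith) hUH.2.1.1 hW.2.1.1 (int_tw hN hUH.2)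
    (int_tw hN hW.2) s0 s1
  have lAX := lA.add lX
  obtain ⟨n0, hn0⟩ := eventually_atTop.1 (lAX.eventually (lt_mem_nhds hAX))
  set s : ℕ → ℝ := fun n => 1 / (((n + n0 : ℕ) : ℝ) + 1) with hs
  have hsp : ∀ n, 0 < s n := fun n => by simp only [hs]; positivity
  have s0' : Tendsto s atTop (𝓝 0) := s0.comp (tendsto_add_atTop_nat n0)
  have lA' : Tendsto (fun n => pwr (p + 1) (ad U (s n) W).u) atTop (𝓝 A) :=
    lA.comp (tendsto_add_atTop_nat n0)
  have lX' : Tendsto (fun n => pwr (tw N) (ad U (s n) W).v) atTop (𝓝 X) :=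
    lX.comp (tendsto_add_atTop_nat n0)
  have hpos : ∀ n, 0 < pwr (p + 1) (ad U (s n) W).u + pwr (tw N) (ad U (s n) W).v :=
    fun n => hn0 (n + n0) (Nat.le_add_left _ _)
  have hZ : ∀ n, InH (ad U (s n) W) := fun n => hUH.ad (s n) hW
  have hZ0 : ∀ n, ¬ IsZero (ad U (s n) W) := fun n => (pos_iff hN hp hp2 (hZ n)).2 (hpos n)
  choose T hT1 hT2 hT3 hT4 using fun n => exists_proj hN hp hp2 hμ hν hl (hZ n) (hZ0 n)
  have lQ : Tendsto (fun n => quad μ ν lam (ad U (s n) W)) atTop (𝓝 (A + X)) := by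
    have e : ∀ n, quad μ ν lam (ad U (s n) W) = quad μ ν lam U + 2 * s n * bil μ ν lam U W +
      s n ^ 2 * quad μ ν lam W := fun n => quad_ad hUH (s n) hW
    simp only [e]
    have h1 := (((s0'.const_mul 2).mul_const (bil μ ν lam U W)).const_add
      (quad μ ν lam U)).add ((s0'.pow 2).mul_const (quad μ ν lam W))
    rw [hQ] at h1 ⊢
    simpa using h1
  have lT := T_lim (q := p + 1) (r := tw N) (by linarith) ht (fun n => pwr_nonneg _ _)
    (fun n => pwr_nonneg _ _) hpos hT1 hT2 lA' lX' lQ hAX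
  have key : ∀ n, 0 ≤ T n ^ 2 * (bil μ ν lam U W + s n * quad μ ν lam W / 2) -
      T n ^ (p + 1) * α - T n ^ tw N * β := by
    intro n
    have h1 := hmin _ (hT3 n)
    have h2 := energy_ray hN hp hU (hT1 n).le
    have e1 : energy p μ ν lam (sm (T n) U) = 1 / 2 * (T n ^ 2 * quad μ ν lam U) -
        1 / (p + 1) * (T n ^ (p + 1) * A) - 1 / tw N * (T n ^ tw N * X) := by
      rw [energy_eq, quad_sm _ hUH]
      congr 2
      · congr 1; exact pwr_smul _ _ (hT1 n).le _
      · congr 1; exact pwr_smul _ _ (hT1 n).le _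
    have e2 : energy p μ ν lam (sm (T n) (ad U (s n) W)) =
        1 / 2 * (T n ^ 2 * quad μ ν lam (ad U (s n) W)) -
        1 / (p + 1) * (T n ^ (p + 1) * pwr (p + 1) (ad U (s n) W).u) -
          1 / tw N * (T n ^ tw N * pwr (tw N) (ad U (s n) W).v) := by
      rw [energy_eq, quad_sm _ (hZ n)]
      congr 2
      · congr 1; exact pwr_smul _ _ (hT1 n).le _
      · congr 1; exact pwr_smul _ _ (hT1 n).le _
    have c1 := pwr_convex (q := p + 1) (by linarith) hUH.1.1.1 hW.1.1.1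
      (int_p hN hp hp2 hUH.1) (int_p hN hp hp2 hW.1) (s n)
    have c2 := pwr_convex (q := tw N) (by linarith) hUH.2.1.1 hW.2.1.1
      (int_tw hN hUH.2) (int_tw hN hW.2) (s n)
    rw [← hα, ← hA] at c1
    rw [← hβ, ← hX] at c2
    have q1 := quad_ad (μ := μ) (ν := ν) (lam := lam) hUH (s n) hW
    have hp1 : 0 < p + 1 := by linarith
    have ht0 : 0 < tw N := by linarith
    have d1 : s n * α ≤ 1 / (p + 1) * (pwr (p + 1) (ad U (s n) W).u - A) := by
      rw [one_div, ← div_eq_inv_mul, le_div_iff₀ hp1]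
      have : pwr (p + 1) (ad U (s n) W).u = pwr (p + 1) (fun x => U.u x + s n * W.u x) := rfl
      rw [this]
      linarith
    have d2 : s n * β ≤ 1 / tw N * (pwr (tw N) (ad U (s n) W).v - X) := by
      rw [one_div, ← div_eq_inv_mul, le_div_iff₀ ht0]
      have : pwr (tw N) (ad U (s n) W).v = pwr (tw N) (fun x => U.v x + s n * W.v x) := rfl
      rw [this]
      linarith
    have t1 : 0 < T n ^ (p + 1) := Real.rpow_pos_of_pos (hT1 n) _
    have t2 : 0 < T n ^ tw N := Real.rpow_pos_of_pos (hT1 n) _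
    have f1 := mul_le_mul_of_nonneg_left d1 t1.le
    have f2 := mul_le_mul_of_nonneg_left d2 t2.le
    have h3 : energy p μ ν lam (sm (T n) U) ≤ energy p μ ν lam (sm (T n) (ad U (s n) W)) :=
      h2.trans h1
    rw [e1, e2, q1] at h3
    have h4 : 0 ≤ s n * (T n ^ 2 * (bil μ ν lam U W + s n * quad μ ν lam W / 2) -
      T n ^ (p + 1) * α - T n ^ tw N * β) := by nlinarith
    exact nonneg_of_mul_nonneg_right h4 (hsp n)
  have lim : Tendsto (fun n => T n ^ 2 * (bil μ ν lam U W + s n * quad μ ν lam W / 2) -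
      T n ^ (p + 1) * α - T n ^ tw N * β) atTop
      (𝓝 (1 ^ 2 * (bil μ ν lam U W + 0 * quad μ ν lam W / 2) - 1 ^ (p + 1) * α -
        1 ^ tw N * β)) := by
    refine Tendsto.sub (Tendsto.sub ((lT.pow 2).mul (((s0'.mul_const _).div_const 2).const_add
      (bil μ ν lam U W))) ?_) ?_
    · exact (lT.rpow_const (Or.inl one_ne_zero)).mul_const α
    · exact (lT.rpow_const (Or.inl one_ne_zero)).mul_const β
  have h5 := ge_of_tendsto' lim key
  rw [Real.one_rpow, Real.one_rpow] at h5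
  linarith

/-- minimizers on the Nehari manifold are solutions -/
theorem minimizer_sol (hN : 3 ≤ N) (hp : 1 < p) (hp2 : (p + 1) * ((N : ℝ) - 2) < 2 * N)
    (hμ : 0 < μ) (hν : 0 < ν) (hl : |lam| < Real.sqrt (μ * ν)) {U : Pair N}
    (hU : InM p μ ν lam U) (hmin : ∀ W : Pair N, InM p μ ν lam W →
      energy p μ ν lam U ≤ energy p μ ν lam W) : IsSol p μ ν lam U := by
  refine ⟨hU.1, fun w k hw => ?_⟩
  have hUH := hU.1
  have e0 : p + 1 - 2 = p - 1 := by ring
  have neg1 : ∀ F : E N → ℝ, ∫ x, F x * (-1 * w x) = -∫ x, F x * w x := by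
    intro F
    rw [← integral_neg]
    refine integral_congr_ae (Eventually.of_forall fun x => ?_)
    simp only; ring
  have neg2 : ∀ F : E N → E N, ∫ x, inner ℝ (F x) ((-1 : ℝ) • k x) = -∫ x, inner ℝ (F x) (k x) := by
    intro F
    rw [← integral_neg]
    refine integral_congr_ae (Eventually.of_forall fun x => ?_)
    simp only
    rw [neg_smul, one_smul, inner_neg_right]
  constructor
  · have W1 : InH (⟨w, k, fun _ => 0, fun _ => 0⟩ : Pair N) := ⟨hw, inH1_zero N⟩
    have W2 : InH (⟨fun x => -1 * w x, fun x => (-1 : ℝ) • k x, fun _ => 0, fun _ => 0⟩ :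
      Pair N) := ⟨hw.smul (-1), inH1_zero N⟩
    have h1 := deriv_nonneg hN hp hp2 hμ hν hl hU hmin W1
    have h2 := deriv_nonneg hN hp hp2 hμ hν hl hU hmin W2
    unfold bil at h1 h2
    simp only [inner_zero_right, mul_zero, integral_zero, add_zero, zero_add, sub_zero, e0]
      at h1 h2
    rw [neg2, neg1, neg1, neg1] at h2
    rw [integral_add (int_inner hUH.1.2.1 hw.2.1) ((int_mul2 hUH.1.1 hw.1).const_mul μ),
      integral_const_mul]
    linarith
  · have W1 : InH (⟨fun _ => 0, fun _ => 0, w, k⟩ : Pair N) := ⟨inH1_zero N, hw⟩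
    have W2 : InH (⟨fun _ => 0, fun _ => 0, fun x => -1 * w x, fun x => (-1 : ℝ) • k x⟩ :
      Pair N) := ⟨inH1_zero N, hw.smul (-1)⟩
    have h1 := deriv_nonneg hN hp hp2 hμ hν hl hU hmin W1
    have h2 := deriv_nonneg hN hp hp2 hμ hν hl hU hmin W2
    unfold bil at h1 h2
    simp only [inner_zero_right, mul_zero, integral_zero, add_zero, zero_add, sub_zero]
      at h1 h2
    rw [neg2, neg1, neg1, neg1] at h2
    rw [integral_add (int_inner hUH.2.2.1 hw.2.1) ((int_mul2 hUH.2.1 hw.1).const_mul ν),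
      integral_const_mul]
    linarith

/-- upper semicontinuity of the level -/
theorem usc (hN : 3 ≤ N) (hp : 1 < p) (hp2 : (p + 1) * ((N : ℝ) - 2) < 2 * N)
    (hμ : 0 < μ) (hν : 0 < ν) (hl : |lam| < Real.sqrt (μ * ν)) {l : ℕ → ℝ}
    (hll : ∀ n, |l n| < Real.sqrt (μ * ν)) (hlim : Tendsto l atTop (𝓝 lam)) {e : ℝ} (he : 0 < e) :
    ∀ᶠ n in atTop, mInf N p μ ν (l n) ≤ mInf N p μ ν lam + e := by
  obtain ⟨U, hU, hUe⟩ := exists_near hN hp hp2 hμ hν hl
    (show mInf N p μ ν lam < mInf N p μ ν lam + e by linarith)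
  have hUH := hU.1
  have hpos := hU.pos hN hp hp2
  have ht := tw_gt hN
  choose T hT1 hT2 hT3 hT4 using fun n => exists_proj hN hp hp2 hμ hν (hll n) hUH hU.2.1
  have hQ : quad μ ν lam U = pwr (p + 1) U.u + pwr (tw N) U.v := hU.2.2
  have lQ : Tendsto (fun n => quad μ ν (l n) U) atTop
      (𝓝 (pwr (p + 1) U.u + pwr (tw N) U.v)) := by
    rw [← hQ]
    unfold quad
    exact tendsto_const_nhds.sub ((hlim.const_mul 2).mul_const _)
  have lT := T_lim (q := p + 1) (r := tw N) (by linarith) ht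
    (fun n => pwr_nonneg (p + 1) U.u) (fun n => pwr_nonneg (tw N) U.v) (fun n => hpos) hT1 hT2
    tendsto_const_nhds tendsto_const_nhds lQ hpos
  have lE : Tendsto (fun n => energy p μ ν (l n) (sm (T n) U)) atTop
      (𝓝 (energy p μ ν lam U)) := by
    simp only [hT4]
    rw [energy_of_M hU]
    have h1 := ((lT.rpow_const (p := p + 1) (Or.inl one_ne_zero)).mul_const
      (pwr (p + 1) U.u)).const_mul (1 / 2 - 1 / (p + 1))
    have h2 := ((lT.rpow_const (p := tw N) (Or.inl one_ne_zero)).mul_const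
      (pwr (tw N) U.v)).const_mul (1 / 2 - 1 / tw N)
    have h3 := h1.add h2
    rw [Real.one_rpow, Real.one_rpow, one_mul, one_mul] at h3
    exact h3
  filter_upwards [lE.eventually (gt_mem_nhds hUe)] with n hn
  exact (mInf_le hN hp (hT3 n)).trans hn.le

end Pool.Agent.Q62.PE
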