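import Pool.Agent.Q62.PE.Main

/-! Bounds of the level. -/

open MeasureTheory Set Filter Topology
open scoped ENNReal NNReal ContDiff

namespace Pool.Agent.Q62.PE

open Pool.Agent.Q62.PC

variable {N : ℕ} {p μ ν lam : ℝ}

/-- `u(c x)` -/
def scl (c : ℝ) (u : E N → ℝ) : E N → ℝ := fun x => u (c • x + 0)

/-- `c g(c x)` -/
def sclG (c : ℝ) (g : E N → E N) : E N → E N := fun x => c • g (c • x + 0)

theorem scl_InH1 {u : E N → ℝ} {g : E N → E N} (h : InH1 u g) {c : ℝ} (hc : 0 < c) :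
    InH1 (scl c u) (sclG c g) := h.aff hc 0

theorem scl_pwr (q : ℝ) (u : E N → ℝ) {c : ℝ} (hc : 0 < c) :
    pwr q (scl c u) = (c ^ N)⁻¹ * pwr q u := int_aff (fun x => |u x| ^ q) hc 0

theorem scl_sq (u : E N → ℝ) {c : ℝ} (hc : 0 < c) :
    ∫ x, scl c u x ^ 2 = (c ^ N)⁻¹ * ∫ x, u x ^ 2 := int_aff (fun x => u x ^ 2) hc 0

theorem scl_grad (g : E N → E N) {c : ℝ} (hc : 0 < c) :
    ∫ x, ‖sclG c g x‖ ^ 2 = c ^ 2 * ((c ^ N)⁻¹ * ∫ x, ‖g x‖ ^ 2) := by
  rw [← int_aff (fun x => ‖g x‖ ^ 2) hc 0, ← integral_const_mul]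
  refine integral_congr_ae (Eventually.of_forall fun x => ?_)
  simp only [sclG]
  rw [norm_smul, mul_pow, Real.norm_eq_abs, sq_abs]

/-- the sharp inequality with a general `μ` -/
theorem constC_mu (hN : 3 ≤ N) {q : ℝ} (hq : 2 < q) (hq2 : q * ((N : ℝ) - 2) < 2 * N)
    {m : ℝ} (hm : 0 < m) {u : E N → ℝ} {g : E N → E N} (h : InH1 u g) :
    constC N q * m ^ (1 - (N : ℝ) / 2 + N / q) * pwr q u ^ (2 / q) ≤ nsq m u g := by
  obtain ⟨hC, HC⟩ := constC_spec N hN q hq hq2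
  set c : ℝ := m ^ (-(1 / 2) : ℝ) with hc
  have hcp : 0 < c := Real.rpow_pos_of_pos hm _
  have h1 := HC _ _ (scl_InH1 h hcp)
  rw [nsq_eq (scl_InH1 h hcp), scl_grad g hcp, scl_sq u hcp, scl_pwr q u hcp] at h1
  rw [nsq_eq h]
  have hcN : 0 < c ^ N := by positivity
  have e1 : (c ^ N)⁻¹ = m ^ ((N : ℝ) / 2) := by
    rw [← Real.rpow_natCast c N, ← Real.rpow_neg hcp.le, hc, ← Real.rpow_mul hm.le]
    congr 1; ring
  have e2 : c ^ 2 = m⁻¹ := by
    rw [← Real.rpow_natCast c 2, hc, ← Real.rpow_mul hm.le, ← Real.rpow_neg_one]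
    congr 1; push_cast; ring
  rw [Real.mul_rpow (by positivity) (pwr_nonneg _ _), e1, e2, ← Real.rpow_mul hm.le] at h1
  have hq0 : 0 < q := by linarith
  have e3 : m ^ (1 - (N : ℝ) / 2 + N / q) = m * m ^ (-((N : ℝ) / 2)) *
      m ^ ((N : ℝ) / 2 * (2 / q)) := by
    rw [show 1 - (N : ℝ) / 2 + N / q = 1 + -((N : ℝ) / 2) + (N : ℝ) / 2 * (2 / q) by
      field_simp; ring, Real.rpow_add hm, Real.rpow_add hm, Real.rpow_one]
  have e4 : m ^ (-((N : ℝ) / 2)) * m ^ ((N : ℝ) / 2) = 1 := by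
    rw [← Real.rpow_add hm]; simp
  have hk : 0 < m * m ^ (-((N : ℝ) / 2)) := by positivity
  have h2 := mul_le_mul_of_nonneg_left h1 hk.le
  rw [e3]
  calc constC N q * (m * m ^ (-((N : ℝ) / 2)) * m ^ ((N : ℝ) / 2 * (2 / q))) *
        pwr q u ^ (2 / q)
      = m * m ^ (-((N : ℝ) / 2)) * (constC N q * (m ^ ((N : ℝ) / 2 * (2 / q)) *
        pwr q u ^ (2 / q))) := by ring
    _ ≤ _ := h2
    _ = (m ^ (-((N : ℝ) / 2)) * m ^ ((N : ℝ) / 2)) * ((m * m⁻¹) * (∫ x, ‖g x‖ ^ 2) +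
        m * ∫ x, u x ^ 2) := by ring
    _ = _ := by rw [e4, mul_inv_cancel₀ hm.ne']; ring

theorem ex_pos (hN : 3 ≤ N) (hp : 1 < p) (hp2 : (p + 1) * ((N : ℝ) - 2) < 2 * N) :
    0 < (p + 1) / (p - 1) - (N : ℝ) / 2 := by
  rw [sub_pos, div_lt_div_iff₀ (by norm_num) (by linarith)]
  nlinarith

theorem mu0_pos (hN : 3 ≤ N) (hp : 1 < p) (hp2 : (p + 1) * ((N : ℝ) - 2) < 2 * N) :
    0 < mu0 N p := by
  have h3 : (3 : ℝ) ≤ N := by exact_mod_cast hN
  have hS := (sobS_spec N hN).1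
  have hC := (constC_spec N hN (p + 1) (by linarith) hp2).1
  unfold mu0
  have : 0 < p - 1 := by linarith
  positivity

/-- below the threshold all energies are larger than `S^(N/2) / N` -/
theorem energy_gt (hN : 3 ≤ N) (hp : 1 < p) (hp2 : (p + 1) * ((N : ℝ) - 2) < 2 * N)
    (hν : 0 < ν) (hl : lam ^ 2 < (μ - mu0 N p) * ν) {U : Pair N}
    (hU : InM p μ ν lam U) : cStar N < energy p μ ν lam U := by
  obtain ⟨hS, HS⟩ := sobS_spec N hN
  obtain ⟨hC, -⟩ := constC_spec N hN (p + 1) (by linarith) hp2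
  have ht := tw_gt hN
  have h3 : (3 : ℝ) ≤ N := by exact_mod_cast hN
  have hN0 : (0 : ℝ) < N := by linarith
  have hm0 := mu0_pos hN hp hp2
  have ha := ex_pos hN hp hp2
  set m : ℝ := μ - lam ^ 2 / ν with hm
  have hmm : mu0 N p < m := by
    rw [hm]
    have : lam ^ 2 / ν < μ - mu0 N p := by rw [div_lt_iff₀ hν]; exact hl
    linarith
  have hmp : 0 < m := hm0.trans hmm
  have hA0 := pwr_nonneg (p + 1) U.u
  have hX0 := pwr_nonneg (tw N) U.v
  have hQ : quad μ ν lam U = pwr (p + 1) U.u + pwr (tw N) U.v := hU.2.2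
  rw [energy_of_M hU, beta_eq hN]
  have hUH := hU.1
  have iu := hUH.1.1.integrable_sq
  have iv := hUH.2.1.integrable_sq
  have iuv := int_mul2 hUH.1.1 hUH.2.1
  set R : ℝ := ∫ x, (ν * U.v x - lam * U.u x) ^ 2 with hR
  have hRn : 0 ≤ R := integral_nonneg fun x => sq_nonneg _
  have eR : R = ν ^ 2 * (∫ x, U.v x ^ 2) - 2 * lam * ν * (∫ x, U.u x * U.v x) +
      lam ^ 2 * ∫ x, U.u x ^ 2 := by
    have j1 : Integrable (fun x => ν ^ 2 * U.v x ^ 2 - 2 * lam * ν * (U.u x * U.v x))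
      (volume : Measure (E N)) := (iv.const_mul _).sub (iuv.const_mul _)
    rw [hR, ← integral_const_mul, ← integral_const_mul, ← integral_const_mul,
      ← integral_sub (iv.const_mul _) (iuv.const_mul _), ← integral_add j1 (iu.const_mul _)]
    refine integral_congr_ae (Eventually.of_forall fun x => ?_)
    simp only
    ring
  have eQ : quad μ ν lam U = nsq m U.u U.g + (∫ x, ‖U.h x‖ ^ 2) + R / ν := by
    rw [quad_eq hUH, nsq_eq hUH.1, eR, hm]
    field_simp
    ring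
  rw [eQ] at hQ
  have hRν : 0 ≤ R / ν := by positivity
  set A := pwr (p + 1) U.u with hA
  set X := pwr (tw N) U.v with hX
  have hsob := HS _ _ (hUH.2.inD hN)
  rw [← hX] at hsob
  have n1 : 0 ≤ nsq m U.u U.g := nsq_nonneg hmp.le _ _
  have hα : 0 < 1 / 2 - 1 / (p + 1) := by
    have : 1 / (p + 1) < 1 / 2 := one_div_lt_one_div_of_lt (by norm_num) (by linarith)
    linarith
  -- the second alternative
  have second : (∫ x, ‖U.h x‖ ^ 2) < X →
      cStar N < (1 / 2 - 1 / (p + 1)) * A + 1 / N * X := by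
    intro hlt
    have hXp : 0 < X := lt_of_le_of_lt (integral_nonneg fun x => sq_nonneg _) hlt
    have h1 : sobS N * X ^ (2 / tw N) < X := lt_of_le_of_lt hsob hlt
    have e1 : X = X ^ (2 / (N : ℝ)) * X ^ (2 / tw N) := by
      rw [← Real.rpow_add hXp, tw_conj hN, add_sub_cancel, Real.rpow_one]
    have h2 : 0 < X ^ (2 / tw N) := Real.rpow_pos_of_pos hXp _
    have h4 : sobS N < X ^ (2 / (N : ℝ)) := by
      have h5 : sobS N * X ^ (2 / tw N) < X ^ (2 / (N : ℝ)) * X ^ (2 / tw N) := by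
        rw [← e1]; exact h1
      exact lt_of_mul_lt_mul_right h5 h2.le
    have h5 := Real.rpow_lt_rpow hS.le h4 (by positivity : 0 < (N : ℝ) / 2)
    rw [← Real.rpow_mul hX0, show 2 / (N : ℝ) * (N / 2) = 1 by field_simp, Real.rpow_one] at h5
    unfold cStar
    have h6 : 1 / (N : ℝ) * sobS N ^ ((N : ℝ) / 2) < 1 / N * X :=
      mul_lt_mul_of_pos_left h5 (by positivity)
    have h7 := mul_nonneg hα.le hA0
    linarith
  rcases le_or_gt (nsq m U.u U.g) A with hcase | hcase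
  · rcases eq_or_lt_of_le hA0 with h0 | h0
    · -- u = 0
      apply second
      have hz := zero_of_pwr (by linarith : 0 < p + 1) (int_p hN hp hp2 hUH.1) h0.symm
      have hv0 : ¬ U.v =ᵐ[volume] 0 := fun h => hU.2.1 ⟨hz, h⟩
      have hvp : 0 < ∫ x, U.v x ^ 2 := by
        refine lt_of_le_of_ne (integral_nonneg fun x => sq_nonneg _) fun h => hv0 ?_
        have h4 := (integral_eq_zero_iff_of_nonneg (fun x => sq_nonneg _) iv).1 h.symm
        filter_upwards [h4] with x hx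
        exact pow_eq_zero_iff (by norm_num) |>.1 hx
      have hRp : R = ν ^ 2 * ∫ x, U.v x ^ 2 := by
        rw [hR, ← integral_const_mul]
        refine integral_congr_ae ?_
        filter_upwards [hz] with x hx
        rw [hx]
        simp only [Pi.zero_apply]
        ring
      have : 0 < R / ν := by rw [hRp]; positivity
      linarith
    · have h1 := constC_mu hN (q := p + 1) (by linarith) hp2 hmp hUH.1
      rw [← hA] at h1
      have h2 := h1.trans hcase
      have h1q : 0 < 1 - 2 / (p + 1) := by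
        have : 2 / (p + 1) < 1 := by rw [div_lt_one (by linarith)]; linarith
        linarith
      have h4 : constC N (p + 1) * m ^ (1 - (N : ℝ) / 2 + N / (p + 1)) ≤
          A ^ (1 - 2 / (p + 1)) := by
        rw [Real.rpow_sub h0, Real.rpow_one, le_div_iff₀ (by positivity)]
        exact h2
      have hp1 : 0 < p - 1 := by linarith
      have h5 := Real.rpow_le_rpow (by positivity) h4
        (by positivity : 0 ≤ (p + 1) / (p - 1))
      rw [← Real.rpow_mul hA0, show (1 - 2 / (p + 1)) * ((p + 1) / (p - 1)) = 1 by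
        have : p + 1 ≠ 0 := by linarith
        field_simp; ring, Real.rpow_one, Real.mul_rpow hC.le (by positivity),
        ← Real.rpow_mul hmp.le, show (1 - (N : ℝ) / 2 + N / (p + 1)) * ((p + 1) / (p - 1)) =
          (p + 1) / (p - 1) - (N : ℝ) / 2 by
        have : p + 1 ≠ 0 := by linarith
        field_simp; ring] at h5
      have h6 : mu0 N p ^ ((p + 1) / (p - 1) - (N : ℝ) / 2) <
          m ^ ((p + 1) / (p - 1) - (N : ℝ) / 2) := Real.rpow_lt_rpow hm0.le hmm ha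
      have h7 : mu0 N p ^ ((p + 1) / (p - 1) - (N : ℝ) / 2) =
          2 * (p + 1) / (N * (p - 1)) * sobS N ^ ((N : ℝ) / 2) *
            constC N (p + 1) ^ (-((p + 1) / (p - 1))) := by
        unfold mu0
        rw [← Real.rpow_mul (by positivity), inv_mul_cancel₀ ha.ne', Real.rpow_one]
      rw [h7] at h6
      have hCp : 0 < constC N (p + 1) ^ ((p + 1) / (p - 1)) := by positivity
      have h8 : 2 * (p + 1) / (N * (p - 1)) * sobS N ^ ((N : ℝ) / 2) < A := by
        refine lt_of_lt_of_le ?_ h5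
        have h9 := mul_lt_mul_of_pos_left h6 hCp
        refine lt_of_le_of_lt (le_of_eq ?_) h9
        rw [Real.rpow_neg hC.le]
        field_simp
      have h9 := mul_lt_mul_of_pos_left h8 hα
      have h10 : (1 / 2 - 1 / (p + 1)) * (2 * (p + 1) / (N * (p - 1)) *
          sobS N ^ ((N : ℝ) / 2)) = cStar N := by
        unfold cStar
        have : p + 1 ≠ 0 := by linarith
        have : p - 1 ≠ 0 := by linarith
        field_simp
        ring
      rw [h10] at h9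
      have : 0 ≤ 1 / (N : ℝ) * X := by positivity
      linarith
  · apply second
    linarith

/-- the maximum along a ray -/
theorem ray_max {q Q A t : ℝ} (hq : 2 < q) (hQ : 0 < Q) (hA : 0 < A) (ht : 0 ≤ t) :
    1 / 2 * (t ^ 2 * Q) - 1 / q * (t ^ q * A) ≤
      (1 / 2 - 1 / q) * ((Q / A) ^ (2 / (q - 2)) * Q) := by
  have hq2 : q - 2 ≠ 0 := by linarith
  set t0 : ℝ := (Q / A) ^ (1 / (q - 2)) with ht0
  have hr : 0 < Q / A := by positivity
  have ht0p : 0 < t0 := Real.rpow_pos_of_pos hr _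
  have e1 : t0 ^ (q - 2) = Q / A := by
    rw [ht0, ← Real.rpow_mul hr.le, one_div, inv_mul_cancel₀ hq2, Real.rpow_one]
  have e2 : t0 ^ 2 = (Q / A) ^ (2 / (q - 2)) := by
    rw [ht0, ← Real.rpow_natCast, ← Real.rpow_mul hr.le]
    congr 1; push_cast; ring
  have e3 : t0 ^ q * A = t0 ^ 2 * Q := by
    rw [split2 (q := q) ht0p, e1]; field_simp
  have h1 := max_one (q := q) (t := t / t0) hq (by positivity)
  have h2 := mul_le_mul_of_nonneg_left h1 (by positivity : 0 ≤ t0 ^ 2 * Q)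
  have e4 : t0 ^ 2 * Q * ((t / t0) ^ 2 / 2 - (t / t0) ^ q / q) =
      1 / 2 * (t ^ 2 * Q) - 1 / q * (t ^ q * A) := by
    rw [Real.div_rpow ht ht0p.le]
    have hb : 0 < t0 ^ q := Real.rpow_pos_of_pos ht0p _
    have e5 : t0 ^ 2 * Q * (t ^ q / t0 ^ q / q) = 1 / q * (t ^ q * A) := by
      rw [← e3]; field_simp
    rw [mul_sub, e5]
    field_simp
  rw [e4, e2] at h2
  linarith

/-- upper bound of the level by a point of `H` -/
theorem mInf_ray (hN : 3 ≤ N) (hp : 1 < p) (hp2 : (p + 1) * ((N : ℝ) - 2) < 2 * N)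
    (hμ : 0 < μ) (hν : 0 < ν) (hl : |lam| < Real.sqrt (μ * ν)) {U : Pair N}
    (h : InH U) (h0 : ¬ IsZero U) {q a Q : ℝ} (hq : 2 < q) (ha : 0 < a)
    (hQ : quad μ ν lam U ≤ Q)
    (hcase : (q = p + 1 ∧ a = pwr (p + 1) U.u) ∨ (q = tw N ∧ a = pwr (tw N) U.v)) :
    mInf N p μ ν lam ≤ (1 / 2 - 1 / q) * ((Q / a) ^ (2 / (q - 2)) * Q) := by
  obtain ⟨t, ht1, ht2, ht3, ht4⟩ := exists_proj hN hp hp2 hμ hν hl h h0
  have hQ0 : 0 < Q := (quad_pos hμ hν hl h h0).trans_le hQ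
  refine (mInf_le hN hp ht3).trans (le_trans ?_ (ray_max hq hQ0 ha ht1.le))
  have e1 : pwr (p + 1) (sm t U).u = t ^ (p + 1) * pwr (p + 1) U.u := pwr_smul _ _ ht1.le _
  have e2 : pwr (tw N) (sm t U).v = t ^ tw N * pwr (tw N) U.v := pwr_smul _ _ ht1.le _
  rw [energy_eq, quad_sm t h, e1, e2]
  have h1 : t ^ 2 * quad μ ν lam U ≤ t ^ 2 * Q := mul_le_mul_of_nonneg_left hQ (sq_nonneg t)
  have ht := tw_gt hN
  have n1 : 0 ≤ 1 / (p + 1) * (t ^ (p + 1) * pwr (p + 1) U.u) := by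
    have := pwr_nonneg (p + 1) U.u
    have : 0 < p + 1 := by linarith
    positivity
  have n2 : 0 ≤ 1 / tw N * (t ^ tw N * pwr (tw N) U.v) := by
    have := pwr_nonneg (tw N) U.v
    have : 0 < tw N := by linarith
    positivity
  rcases hcase with ⟨rfl, rfl⟩ | ⟨rfl, rfl⟩
  · linarith
  · linarith

end Pool.Agent.Q62.PE
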