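import Pool.Agent.Q62.PE.BL

/-! Functions which do not vanish: a ball with a mass bounded below. -/

open MeasureTheory Set Filter Topology
open scoped ENNReal NNReal ContDiff

namespace Pool.Agent.Q62.PE

open Pool.Agent.Q62.PC

/-- Fubini: the average over balls -/
theorem lint_balls {N : ℕ} {f : E N → ℝ≥0∞} (hf : Measurable f) (r : ℝ) :
    ∫⁻ y : E N, ∫⁻ x in Metric.ball y r, f x = volume (Metric.ball (0 : E N) r) * ∫⁻ x, f x := by
  have hm : MeasurableSet {z : E N × E N | dist z.2 z.1 < r} :=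
    measurableSet_lt (measurable_snd.dist measurable_fst) measurable_const
  have h1 : ∀ y : E N, ∫⁻ x in Metric.ball y r, f x =
      ∫⁻ x, {z : E N × E N | dist z.2 z.1 < r}.indicator (fun z => f z.2) (y, x) := by
    intro y
    rw [← lintegral_indicator Metric.isOpen_ball.measurableSet]
    refine lintegral_congr fun x => ?_
    by_cases hx : dist x y < r
    · rw [indicator_of_mem (show x ∈ Metric.ball y r from hx),
        indicator_of_mem (show (y, x) ∈ {z : E N × E N | dist z.2 z.1 < r} from hx)]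
    · rw [indicator_of_notMem (show x ∉ Metric.ball y r from hx),
        indicator_of_notMem (show (y, x) ∉ {z : E N × E N | dist z.2 z.1 < r} from hx)]
  simp only [h1]
  rw [lintegral_lintegral_swap]
  · rw [← lintegral_const_mul _ hf]
    refine lintegral_congr fun x => ?_
    have h2 : ∀ y : E N, {z : E N × E N | dist z.2 z.1 < r}.indicator (fun z => f z.2) (y, x) =
        (Metric.ball x r).indicator (fun _ => f x) y := by
      intro y
      by_cases hx : dist x y < r
      · rw [indicator_of_mem (show (y, x) ∈ {z : E N × E N | dist z.2 z.1 < r} from hx),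
          indicator_of_mem (show y ∈ Metric.ball x r by rw [Metric.mem_ball, dist_comm]; exact hx)]
      · rw [indicator_of_notMem (show (y, x) ∉ {z : E N × E N | dist z.2 z.1 < r} from hx),
          indicator_of_notMem (show y ∉ Metric.ball x r by
            rw [Metric.mem_ball, dist_comm]; exact hx)]
    simp only [h2]
    rw [lintegral_indicator Metric.isOpen_ball.measurableSet, setLIntegral_const,
      Measure.addHaar_ball_center, mul_comm]
  · exact ((hf.comp measurable_snd).indicator hm).aemeasurable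

/-- localisation in a ball: with `Θ` a bound of the masses of the balls of radius `2` -/
theorem loc_ineq (N : ℕ) (hN : 2 ≤ N) (q : ℝ) (hq : 2 < q) (hq2 : q * ((N : ℝ) - 2) < 2 * N) :
    ∃ C : ℝ, 0 < C ∧ ∀ (u : E N → ℝ) (g : E N → E N), InH1 u g → ∀ (y : E N) (Θ : ℝ),
      (∫ x in Metric.ball y 2, |u x| ^ q) ≤ Θ →
      ∫ x in Metric.ball y 1, |u x| ^ q ≤
        C * Θ ^ (1 - 2 / q) * ∫ x in Metric.ball y 2, dens u g x := by
  obtain ⟨C1, hC1, H⟩ := gn N hN q hq hq2
  obtain ⟨χ, K, hK0, χC, χ01, χ1, χ0, χK, χg0, χg1⟩ := cutoff N 2 (by norm_num)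
  have hs := sg_pos hq2
  have hs2 := sg_lt hN hq
  have hq0 : 0 < q := by linarith
  refine ⟨C1 ^ (2 / q) * (2 * K ^ 2 + 2), by positivity, ?_⟩
  intro u g hu y Θ hΘ
  set ζ : E N → ℝ := fun x => χ (x - y) with hζ
  have ζC : ContDiff ℝ ∞ ζ := by
    have : ContDiff ℝ ∞ fun x : E N => x - y := by fun_prop
    exact χC.comp this
  have ζg : ∀ x, gradient ζ x = gradient χ (x - y) := fun x => grad_shift χ y x
  have ζK : ∀ x, ‖gradient ζ x‖ ≤ K := fun x => by rw [ζg]; exact χK _
  have ζM : ∀ x, |ζ x| ≤ 1 := fun x => by rw [abs_of_nonneg (χ01 _).1]; exact (χ01 _).2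
  have ζ0 : ∀ x, x ∉ Metric.ball y 2 → ζ x = 0 := by
    intro x hx
    rw [Metric.mem_ball, not_lt, dist_eq_norm] at hx
    exact χ0 _ hx
  have ζ1 : ∀ x ∈ Metric.ball y 1, ζ x = 1 := by
    intro x hx
    rw [Metric.mem_ball, dist_eq_norm] at hx
    refine χ1 _ ?_
    norm_num
    exact hx.le
  have hv := hu.mul ζC ζM ζK
  have hd0 : ∀ x, x ∉ Metric.ball y 2 →
      dens (fun x => ζ x * u x) (fun x => ζ x • g x + u x • gradient ζ x) x = 0 := by
    intro x hx
    have h1 := ζ0 x hx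
    have h2 : gradient ζ x = 0 := by rw [ζg]; exact χg0 _ h1
    simp only [dens]
    rw [h1, h2]; simp
  have hd2 : ∀ x, dens (fun x => ζ x * u x) (fun x => ζ x • g x + u x • gradient ζ x) x ≤
      (2 * K ^ 2 + 2) * dens u g x := by
    intro x
    simp only [dens]
    have h1 : ‖ζ x • g x + u x • gradient ζ x‖ ≤ ‖g x‖ + K * |u x| := by
      refine (norm_add_le _ _).trans ?_
      rw [norm_smul, norm_smul, Real.norm_eq_abs, Real.norm_eq_abs]
      have h2 := ζM x
      have h3 := ζK x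
      have h4 : |ζ x| * ‖g x‖ ≤ 1 * ‖g x‖ := mul_le_mul_of_nonneg_right h2 (norm_nonneg _)
      have h5 : |u x| * ‖gradient ζ x‖ ≤ |u x| * K := mul_le_mul_of_nonneg_left h3 (abs_nonneg _)
      linarith
    have h2 : ‖ζ x • g x + u x • gradient ζ x‖ ^ 2 ≤ (‖g x‖ + K * |u x|) ^ 2 :=
      pow_le_pow_left₀ (norm_nonneg _) h1 2
    have h3 : (‖g x‖ + K * |u x|) ^ 2 ≤ 2 * ‖g x‖ ^ 2 + 2 * K ^ 2 * u x ^ 2 := by
      have e := sq_abs (u x)
      have : 2 * K ^ 2 * u x ^ 2 = 2 * (K * |u x|) ^ 2 := by rw [← e]; ring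
      rw [this]
      nlinarith [sq_nonneg (‖g x‖ - K * |u x|)]
    have h4 : (ζ x * u x) ^ 2 ≤ u x ^ 2 := by
      rw [mul_pow]
      have : ζ x ^ 2 ≤ 1 := by
        have := ζM x
        rw [← sq_abs]; nlinarith [abs_nonneg (ζ x)]
      nlinarith [sq_nonneg (u x)]
    have h5 : 0 ≤ K ^ 2 * ‖g x‖ ^ 2 := by positivity
    nlinarith [sq_nonneg (u x)]
  have hub := (H _ _ hu).1
  obtain ⟨hvi, hvb⟩ := H _ _ hv
  have mB : MeasurableSet (Metric.ball y (2 : ℝ)) := Metric.isOpen_ball.measurableSet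
  set D : ℝ := ∫ x, dens (fun x => ζ x * u x) (fun x => ζ x • g x + u x • gradient ζ x) x with hD
  set P : ℝ := ∫ x, |ζ x * u x| ^ q with hP
  have hP0 : 0 ≤ P := integral_nonneg fun x => by positivity
  have hD0 : 0 ≤ D := integral_nonneg (dens_nonneg _ _)
  have hDle : D ≤ (2 * K ^ 2 + 2) * ∫ x in Metric.ball y 2, dens u g x := by
    rw [hD, ← integral_const_mul, ← integral_indicator mB]
    refine integral_mono (int_dens hv) (((int_dens hu).const_mul _).indicator mB) fun x => ?_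
    by_cases hx : x ∈ Metric.ball y 2
    · simp only [indicator_of_mem hx]
      exact hd2 x
    · simp only [indicator_of_notMem hx]
      exact (hd0 x hx).le
  have hPle : P ≤ Θ := by
    refine le_trans ?_ hΘ
    rw [hP, ← integral_indicator mB]
    refine integral_mono hvi (hub.indicator mB) fun x => ?_
    by_cases hx : x ∈ Metric.ball y 2
    · simp only [indicator_of_mem hx]
      refine Real.rpow_le_rpow (abs_nonneg _) ?_ hq0.le
      rw [abs_mul]
      have := ζM x
      nlinarith [abs_nonneg (u x)]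
    · simp only [indicator_of_notMem hx]
      rw [ζ0 x hx, zero_mul, abs_zero, Real.zero_rpow hq0.ne']
  have hge : ∫ x in Metric.ball y 1, |u x| ^ q ≤ P := by
    rw [hP, ← integral_indicator Metric.isOpen_ball.measurableSet]
    refine integral_mono (hub.indicator Metric.isOpen_ball.measurableSet) hvi fun x => ?_
    by_cases hx : x ∈ Metric.ball y 1
    · simp only [indicator_of_mem hx]
      rw [ζ1 x hx, one_mul]
    · simp only [indicator_of_notMem hx]
      positivity
  have hPD : P ≤ C1 * D ^ (q / 2) := by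
    have i1 : Integrable (fun x => ‖ζ x • g x + u x • gradient ζ x‖ ^ 2)
      (volume : Measure (E N)) := hv.2.1.integrable_norm_pow (by norm_num)
    have i2 : Integrable (fun x => (ζ x * u x) ^ 2) (volume : Measure (E N)) :=
      hv.1.integrable_sq
    have e : D = (∫ x, ‖ζ x • g x + u x • gradient ζ x‖ ^ 2) + ∫ x, (ζ x * u x) ^ 2 := by
      rw [hD, ← integral_add i1 i2]; rfl
    have n1 : 0 ≤ ∫ x, ‖ζ x • g x + u x • gradient ζ x‖ ^ 2 := integral_nonneg fun x => sq_nonneg _
    have n2 : 0 ≤ ∫ x, (ζ x * u x) ^ 2 := integral_nonneg fun x => sq_nonneg _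
    have h1 : (∫ x, (ζ x * u x) ^ 2) ^ (sg N q / 2) ≤ D ^ (sg N q / 2) :=
      Real.rpow_le_rpow n2 (by linarith) (by linarith)
    have h2 : (∫ x, ‖ζ x • g x + u x • gradient ζ x‖ ^ 2) ^ ((q - sg N q) / 2) ≤
        D ^ ((q - sg N q) / 2) := Real.rpow_le_rpow n1 (by linarith) (by linarith)
    have h3 : D ^ (sg N q / 2) * D ^ ((q - sg N q) / 2) = D ^ (q / 2) := by
      rw [← Real.rpow_add_of_nonneg hD0 (by linarith) (by linarith)]
      congr 1; ring
    calc P ≤ _ := hvb
      _ ≤ C1 * D ^ (sg N q / 2) * D ^ ((q - sg N q) / 2) := by gcongr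
      _ = _ := by rw [mul_assoc, h3]
  have hPq : P ^ (2 / q) ≤ C1 ^ (2 / q) * D := by
    have h1 := Real.rpow_le_rpow hP0 hPD (by positivity : 0 ≤ 2 / q)
    rwa [Real.mul_rpow hC1.le (by positivity), ← Real.rpow_mul hD0,
      show q / 2 * (2 / q) = 1 by field_simp, Real.rpow_one] at h1
  have h1q : 0 ≤ 1 - 2 / q := by
    have : 2 / q ≤ 1 := by rw [div_le_one hq0]; exact hq.le
    linarith
  have e1 : P = P ^ (1 - 2 / q) * P ^ (2 / q) := by
    rw [← Real.rpow_add_of_nonneg hP0 h1q (by positivity)]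
    rw [sub_add_cancel, Real.rpow_one]
  have h2 : P ^ (1 - 2 / q) ≤ Θ ^ (1 - 2 / q) := Real.rpow_le_rpow hP0 hPle h1q
  have hΘ0 : 0 ≤ Θ := hP0.trans hPle
  refine hge.trans ?_
  rw [e1]
  calc P ^ (1 - 2 / q) * P ^ (2 / q) ≤ Θ ^ (1 - 2 / q) * (C1 ^ (2 / q) * D) := by
        gcongr
    _ ≤ Θ ^ (1 - 2 / q) * (C1 ^ (2 / q) * ((2 * K ^ 2 + 2) *
        ∫ x in Metric.ball y 2, dens u g x)) := by gcongr
    _ = _ := by ring

/-- a function of `L^q` norm bounded below has a ball with mass bounded below -/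
theorem nonvanish (N : ℕ) (hN : 2 ≤ N) (q : ℝ) (hq : 2 < q) (hq2 : q * ((N : ℝ) - 2) < 2 * N)
    (K c : ℝ) (hK : 0 < K) (hc : 0 < c) :
    ∃ η : ℝ, 0 < η ∧ ∀ (u : E N → ℝ) (g : E N → E N), InH1 u g → nsq 1 u g ≤ K →
      c ≤ pwr q u → ∃ y : E N, η ≤ ∫ x in Metric.ball y 2, |u x| ^ q := by
  obtain ⟨C, hC, H⟩ := loc_ineq N hN q hq hq2
  obtain ⟨C1, hC1, H1⟩ := gn N hN q hq hq2
  haveI : Nonempty (Fin N) := ⟨⟨0, by omega⟩⟩
  set b1 : ℝ := (volume (Metric.ball (0 : E N) 1)).toReal with hb1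
  set b2 : ℝ := (volume (Metric.ball (0 : E N) 2)).toReal with hb2
  have hv1 : volume (Metric.ball (0 : E N) 1) ≠ ⊤ := measure_ball_lt_top.ne
  have hv2 : volume (Metric.ball (0 : E N) 2) ≠ ⊤ := measure_ball_lt_top.ne
  have hb1p : 0 < b1 := ENNReal.toReal_pos (Metric.measure_ball_pos volume 0 one_pos).ne' hv1
  have hb2p : 0 < b2 := ENNReal.toReal_pos (Metric.measure_ball_pos volume 0 two_pos).ne' hv2
  have h1q : 0 < 1 - 2 / q := by
    have : 2 / q < 1 := by rw [div_lt_one (by linarith)]; exact hq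
    linarith
  set T : ℝ := b1 * c / (2 * C * b2 * K) with hT
  have hTp : 0 < T := by positivity
  refine ⟨T ^ (1 / (1 - 2 / q)), Real.rpow_pos_of_pos hTp _, ?_⟩
  intro u g hu hKu hcu
  by_contra hcon
  push Not at hcon
  -- measurable representatives
  set Θ : ℝ := T ^ (1 / (1 - 2 / q)) with hΘ
  have hΘT : Θ ^ (1 - 2 / q) = T := by
    rw [hΘ, ← Real.rpow_mul hTp.le, one_div, inv_mul_cancel₀ h1q.ne', Real.rpow_one]
  have hball := fun y => H u g hu y Θ (hcon y).le
  rw [hΘT] at hball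
  have hub := (H1 _ _ hu).1
  set f : E N → ℝ := hub.1.mk (fun x => |u x| ^ q) with hf
  have hfm : Measurable f := hub.1.stronglyMeasurable_mk.measurable
  have hfe : (fun x => |u x| ^ q) =ᵐ[volume] f := hub.1.ae_eq_mk
  set d : E N → ℝ := (int_dens hu).1.mk (dens u g) with hd
  have hdm : Measurable d := (int_dens hu).1.stronglyMeasurable_mk.measurable
  have hde : dens u g =ᵐ[volume] d := (int_dens hu).1.ae_eq_mk
  have L1 : ∀ S : Set (E N), ∫⁻ x in S, ENNReal.ofReal (f x) =
      ENNReal.ofReal (∫ x in S, |u x| ^ q) := by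
    intro S
    rw [ofReal_integral_eq_lintegral_ofReal hub.restrict
      (Eventually.of_forall fun x => by positivity)]
    refine lintegral_congr_ae (ae_restrict_of_ae ?_)
    filter_upwards [hfe] with x hx
    rw [← hx]
  have L2 : ∀ S : Set (E N), ∫⁻ x in S, ENNReal.ofReal (d x) =
      ENNReal.ofReal (∫ x in S, dens u g x) := by
    intro S
    rw [ofReal_integral_eq_lintegral_ofReal (int_dens hu).restrict
      (Eventually.of_forall fun x => dens_nonneg u g x)]
    refine lintegral_congr_ae (ae_restrict_of_ae ?_)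
    filter_upwards [hde] with x hx
    rw [← hx]
  have h1 : ∫⁻ y : E N, ∫⁻ x in Metric.ball y 1, ENNReal.ofReal (f x) ≤
      ENNReal.ofReal (C * T) * ∫⁻ y : E N, ∫⁻ x in Metric.ball y 2, ENNReal.ofReal (d x) := by
    rw [← lintegral_const_mul' _ _ ENNReal.ofReal_ne_top]
    refine lintegral_mono fun y => ?_
    rw [L1, L2, ← ENNReal.ofReal_mul (by positivity)]
    exact ENNReal.ofReal_le_ofReal (hball y)
  rw [lint_balls hfm.ennreal_ofReal, lint_balls hdm.ennreal_ofReal] at h1
  have e1 : ∫⁻ x, ENNReal.ofReal (f x) = ENNReal.ofReal (pwr q u) := by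
    have := L1 univ
    simpa [pwr] using this
  have e2 : ∫⁻ x, ENNReal.ofReal (d x) = ENNReal.ofReal (∫ x, dens u g x) := by
    have := L2 univ
    simpa using this
  rw [e1, e2] at h1
  have hp0 : 0 ≤ pwr q u := hc.le.trans hcu
  have hd0 : 0 ≤ ∫ x, dens u g x := integral_nonneg (dens_nonneg u g)
  have h2 := ENNReal.toReal_mono (by
    refine ENNReal.mul_ne_top ENNReal.ofReal_ne_top (ENNReal.mul_ne_top hv2 ENNReal.ofReal_ne_top)) h1
  rw [ENNReal.toReal_mul, ENNReal.toReal_mul, ENNReal.toReal_mul, ENNReal.toReal_ofReal hp0,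
    ENNReal.toReal_ofReal hd0, ENNReal.toReal_ofReal (by positivity)] at h2
  have e3 : ∫ x, dens u g x = nsq 1 u g := by
    unfold nsq dens
    refine integral_congr_ae (Eventually.of_forall fun x => ?_)
    simp
  rw [e3] at h2
  have h3 : b1 * c ≤ C * T * (b2 * K) := by
    calc b1 * c ≤ b1 * pwr q u := mul_le_mul_of_nonneg_left hcu hb1p.le
      _ ≤ _ := h2
      _ ≤ _ := by gcongr
  have h4 : C * T * (b2 * K) = b1 * c / 2 := by
    rw [hT]; field_simp
  rw [h4] at h3
  have : 0 < b1 * c := by positivity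
  linarith

end Pool.Agent.Q62.PE
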