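import Pool.Agent.Q62.PE.Num

/-! Weak compactness in `H¹(ℝᴺ)`. -/

open MeasureTheory Set Filter Topology
open scoped ENNReal NNReal ContDiff

namespace Pool.Agent.Q62.PE

open Pool.Agent.Q62.PC

section hilbert

variable {H : Type*} [NormedAddCommGroup H] [InnerProductSpace ℝ H] [CompleteSpace H]
  [TopologicalSpace.SeparableSpace H]

/-- bounded sequences in a separable Hilbert space have weakly convergent subsequences -/
theorem weak_hilbert {f : ℕ → H} {M : ℝ} (hM : ∀ n, ‖f n‖ ≤ M) :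
    ∃ φ : ℕ → ℕ, StrictMono φ ∧ ∃ a : H, ∀ y : H,
      Tendsto (fun n => (inner ℝ (f (φ n)) y : ℝ)) atTop (𝓝 (inner ℝ a y)) := by
  set F : ℕ → WeakDual ℝ H := fun n => StrongDual.toWeakDual
    (InnerProductSpace.toDual ℝ H (f n)) with hf
  have hb := WeakDual.isSeqCompact_closedBall ℝ H 0 M
  have hfm : ∀ n, F n ∈ WeakDual.toStrongDual ⁻¹' Metric.closedBall 0 M := by
    intro n
    rw [mem_preimage, Metric.mem_closedBall]
    have e := dist_zero_right (InnerProductSpace.toDual ℝ H (f n))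
    rw [LinearIsometryEquiv.norm_map] at e
    exact (le_of_eq e).trans (hM n)
  obtain ⟨a, ha, φ, hφ, hlim⟩ := hb hfm
  refine ⟨φ, hφ, (InnerProductSpace.toDual ℝ H).symm (WeakDual.toStrongDual a), fun y => ?_⟩
  have h1 : Tendsto (fun n => F (φ n) y) atTop (𝓝 (a y)) :=
    ((WeakDual.eval_continuous y).tendsto a).comp hlim
  have e1 : ∀ n, F (φ n) y = (inner ℝ (f (φ n)) y : ℝ) := fun n => rfl
  have e2 : a y = (inner ℝ ((InnerProductSpace.toDual ℝ H).symm
      (WeakDual.toStrongDual a)) y : ℝ) := by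
    rw [InnerProductSpace.toDual_symm_apply]
    rfl
  simp only [e1] at h1
  rw [e2] at h1
  exact h1

omit [TopologicalSpace.SeparableSpace H] in
/-- closed subspaces are weakly closed -/
theorem weak_closed (K : Submodule ℝ H) (hK : IsClosed (K : Set H)) {f : ℕ → H} {a : H}
    (hf : ∀ n, f n ∈ K) (h : ∀ y : H, Tendsto (fun n => (inner ℝ (f n) y : ℝ)) atTop
      (𝓝 (inner ℝ a y))) : a ∈ K := by
  haveI : CompleteSpace K := hK.completeSpace_coe
  rw [← Submodule.orthogonal_orthogonal K, Submodule.mem_orthogonal]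
  intro y hy
  rw [Submodule.mem_orthogonal] at hy
  have h1 := h y
  have h2 : ∀ n, (inner ℝ (f n) y : ℝ) = 0 := fun n => hy _ (hf n)
  simp only [h2] at h1
  rw [real_inner_comm]
  exact (tendsto_nhds_unique tendsto_const_nhds h1).symm

end hilbert

/-- `L²(ℝᴺ) × L²(ℝᴺ; ℝᴺ)` -/
noncomputable abbrev HH (N : ℕ) :=
  WithLp 2 (Lp ℝ 2 (volume : Measure (E N)) × Lp (E N) 2 (volume : Measure (E N)))

theorem sepHH (N : ℕ) : TopologicalSpace.SeparableSpace (HH N) := by
  haveI : Fact ((2 : ℝ≥0∞) ≠ ⊤) := ⟨by norm_num⟩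
  haveI : SecondCountableTopology (Lp ℝ 2 (volume : Measure (E N))) := inferInstance
  haveI : SecondCountableTopology (Lp (E N) 2 (volume : Measure (E N))) := inferInstance
  haveI : SecondCountableTopology (HH N) :=
    (WithLp.homeomorphProd 2 (Lp ℝ 2 (volume : Measure (E N)))
      (Lp (E N) 2 (volume : Measure (E N)))).secondCountableTopology
  infer_instance

theorem InH1.congr {N : ℕ} {v v' : E N → ℝ} {G G' : E N → E N} (h : InH1 v G)
    (hv : v =ᵐ[volume] v') (hG : G =ᵐ[volume] G') : InH1 v' G' := by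
  obtain ⟨h1, h2, φ, h3, h4, h5⟩ := h
  refine ⟨(memLp_congr_ae hv).1 h1, (memLp_congr_ae hG).1 h2, φ, h3, ?_, ?_⟩
  · refine h4.congr fun k => eLpNorm_congr_ae ?_
    filter_upwards [hv] with x hx
    simp only [Pi.sub_apply, hx]
  · refine h5.congr fun k => eLpNorm_congr_ae ?_
    filter_upwards [hG] with x hx
    simp only [Pi.sub_apply, hx]

/-- the space `H¹` -/
noncomputable def KK (N : ℕ) : Submodule ℝ (HH N) where
  carrier := {F | InH1 (F.fst : E N → ℝ) (F.snd : E N → E N)}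
  add_mem' := by
    intro F F' h h'
    exact InH1.congr (h.add h') (Lp.coeFn_add F.fst F'.fst).symm (Lp.coeFn_add F.snd F'.snd).symm
  zero_mem' := by
    have hT : IsTest (0 : E N → ℝ) := ⟨contDiff_const, HasCompactSupport.zero⟩
    refine InH1.congr (InH1.of_test hT) (Lp.coeFn_zero _ _ _).symm ?_
    filter_upwards [Lp.coeFn_zero (E N) 2 (volume : Measure (E N))] with x hx
    have : ((0 : HH N).snd : E N → E N) x = 0 := hx
    rw [this]
    simp [gradient]
  smul_mem' := by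
    intro c F h
    exact InH1.congr (h.smul c) (Lp.coeFn_smul c F.fst).symm (Lp.coeFn_smul c F.snd).symm

theorem KK_closed (N : ℕ) : IsClosed (KK N : Set (HH N)) := by
  rw [← isSeqClosed_iff_isClosed]
  intro F F0 hF hlim
  have hlim1 : Tendsto (fun k => (F k).fst) atTop (𝓝 F0.fst) :=
    ((WithLp.prod_continuous_ofLp 2 _ _).fst.tendsto F0).comp hlim
  have hlim2 : Tendsto (fun k => (F k).snd) atTop (𝓝 F0.snd) :=
    ((WithLp.prod_continuous_ofLp 2 _ _).snd.tendsto F0).comp hlim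
  have hch : ∀ k, ∃ φ : E N → ℝ, IsTest φ ∧
      eLpNorm (φ - ((F k).fst : E N → ℝ)) 2 volume < ENNReal.ofReal (1 / (k + 1)) ∧
      eLpNorm (gradient φ - ((F k).snd : E N → E N)) 2 volume < ENNReal.ofReal (1 / (k + 1)) := by
    intro k
    obtain ⟨h1, h2, φ, h3, h4, h5⟩ := hF k
    have hpos : (0 : ℝ≥0∞) < ENNReal.ofReal (1 / (k + 1)) := by
      rw [ENNReal.ofReal_pos]; positivity
    obtain ⟨j, hj1, hj2⟩ := ((h4.eventually (gt_mem_nhds hpos)).and
      (h5.eventually (gt_mem_nhds hpos))).exists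
    exact ⟨φ j, h3 j, hj1, hj2⟩
  choose φ hφ hφ1 hφ2 using hch
  have h1 := (Lp.tendsto_Lp_iff_tendsto_eLpNorm' _ _).1 hlim1
  have h1' := (Lp.tendsto_Lp_iff_tendsto_eLpNorm' _ _).1 hlim2
  have h2 : Tendsto (fun k : ℕ => ENNReal.ofReal (1 / ((k : ℝ) + 1))) atTop (𝓝 0) := by
    have := ENNReal.tendsto_ofReal (tendsto_one_div_add_atTop_nhds_zero_nat (𝕜 := ℝ))
    rwa [ENNReal.ofReal_zero] at this
  refine ⟨Lp.memLp _, Lp.memLp _, φ, hφ, ?_, ?_⟩
  · have h4 := h2.add h1
    rw [add_zero] at h4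
    refine tendsto_of_tendsto_of_tendsto_of_le_of_le tendsto_const_nhds h4 (fun k => bot_le)
      (fun k => ?_)
    have e : φ k - (F0.fst : E N → ℝ) = (φ k - ((F k).fst : E N → ℝ)) +
        (((F k).fst : E N → ℝ) - (F0.fst : E N → ℝ)) := by abel
    simp only
    rw [e]
    refine (eLpNorm_add_le (((hφ k).memLp 2).sub (Lp.memLp _)).1
      ((Lp.memLp _).sub (Lp.memLp _)).1 (by norm_num)).trans ?_
    gcongr
    exact (hφ1 k).le
  · have h4 := h2.add h1'
    rw [add_zero] at h4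
    refine tendsto_of_tendsto_of_tendsto_of_le_of_le tendsto_const_nhds h4 (fun k => bot_le)
      (fun k => ?_)
    have e : gradient (φ k) - (F0.snd : E N → E N) = (gradient (φ k) - ((F k).snd : E N → E N)) +
        (((F k).snd : E N → E N) - (F0.snd : E N → E N)) := by abel
    simp only
    rw [e]
    refine (eLpNorm_add_le (((hφ k).grad_memLp 2).sub (Lp.memLp _)).1
      ((Lp.memLp _).sub (Lp.memLp _)).1 (by norm_num)).trans ?_
    gcongr
    exact (hφ2 k).le

/-- weak convergence in `L²(ℝᴺ)` -/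
def WL {N : ℕ} {F : Type*} [NormedAddCommGroup F] [InnerProductSpace ℝ F]
    (f : ℕ → E N → F) (f0 : E N → F) : Prop :=
  ∀ w : E N → F, MemLp w 2 (volume : Measure (E N)) →
    Tendsto (fun n => ∫ x, (inner ℝ (f n x) (w x) : ℝ)) atTop (𝓝 (∫ x, inner ℝ (f0 x) (w x)))

theorem inner_toLp' {N : ℕ} {F : Type*} [NormedAddCommGroup F] [InnerProductSpace ℝ F]
    [CompleteSpace F] {G H : E N → F}
    (hG : MemLp G 2 (volume : Measure (E N)))
    (hH : MemLp H 2 (volume : Measure (E N))) :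
    (inner ℝ (hG.toLp G) (hH.toLp H) : ℝ) = ∫ x, inner ℝ (G x) (H x) := by
  rw [L2.inner_def]
  refine integral_congr_ae ?_
  filter_upwards [MemLp.coeFn_toLp hG, MemLp.coeFn_toLp hH] with x h1 h2
  rw [h1, h2]

theorem nsq_eq {N : ℕ} {μ : ℝ} {u : E N → ℝ} {g : E N → E N} (h : InH1 u g) :
    nsq μ u g = (∫ x, ‖g x‖ ^ 2) + μ * ∫ x, u x ^ 2 := by
  unfold nsq
  rw [integral_add (h.2.1.integrable_norm_pow (by norm_num)) (h.1.integrable_sq.const_mul μ),
    integral_const_mul]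

/-- weak sequential compactness in `H¹` -/
theorem h1_weak {N : ℕ} {w : ℕ → E N → ℝ} {G : ℕ → E N → E N} (h : ∀ n, InH1 (w n) (G n))
    {M : ℝ} (hM : ∀ n, nsq 1 (w n) (G n) ≤ M) :
    ∃ φ : ℕ → ℕ, StrictMono φ ∧ ∃ w0 G0, InH1 w0 G0 ∧ WL (fun n => w (φ n)) w0 ∧
      WL (fun n => G (φ n)) G0 := by
  haveI := sepHH N
  set F : ℕ → HH N := fun n => WithLp.toLp 2 ((h n).1.toLp (w n), (h n).2.1.toLp (G n)) with hF
  have hFK : ∀ n, F n ∈ KK N := fun n =>
    InH1.congr (h n) (MemLp.coeFn_toLp (h n).1).symm (MemLp.coeFn_toLp (h n).2.1).symm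
  have hnorm : ∀ n, ‖F n‖ ≤ Real.sqrt M := by
    intro n
    refine Real.le_sqrt_of_sq_le ?_
    have e1 := WithLp.prod_norm_sq_eq_of_L2 (F n)
    rw [e1]
    have e2 : ‖(F n).fst‖ ^ 2 = ∫ x, (w n x) ^ 2 := by
      have : (F n).fst = (h n).1.toLp (w n) := rfl
      rw [this, Lp.norm_toLp, ← int_sq (h n).1]
      refine integral_congr_ae (Eventually.of_forall fun x => ?_)
      simp only [Real.norm_eq_abs, sq_abs]
    have e3 : ‖(F n).snd‖ ^ 2 = ∫ x, ‖G n x‖ ^ 2 := by
      have : (F n).snd = (h n).2.1.toLp (G n) := rfl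
      rw [this, Lp.norm_toLp, ← int_sq (h n).2.1]
    rw [e2, e3]
    have := hM n
    rw [nsq_eq (h n)] at this
    linarith
  obtain ⟨φ, hφ, a, ha⟩ := weak_hilbert hnorm
  have haK : a ∈ KK N := weak_closed (KK N) (KK_closed N) (fun n => hFK (φ n)) ha
  refine ⟨φ, hφ, (a.fst : E N → ℝ), (a.snd : E N → E N), haK, ?_, ?_⟩
  · intro f hf
    have h1 := ha (WithLp.toLp 2 (hf.toLp f, 0))
    have e : ∀ n, (inner ℝ (F (φ n)) (WithLp.toLp 2 (hf.toLp f, 0)) : ℝ) =
        ∫ x, inner ℝ (w (φ n) x) (f x) := by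
      intro n
      rw [WithLp.prod_inner_apply]
      simp only [inner_zero_right, add_zero]
      exact inner_toLp' (h (φ n)).1 hf
    have e2 : (inner ℝ a (WithLp.toLp 2 (hf.toLp f, 0)) : ℝ) =
        ∫ x, inner ℝ ((a.fst : E N → ℝ) x) (f x) := by
      rw [WithLp.prod_inner_apply]
      simp only [inner_zero_right, add_zero]
      rw [L2.inner_def]
      refine integral_congr_ae ?_
      filter_upwards [MemLp.coeFn_toLp hf] with x hx
      rw [hx]
      rfl
    simp only [e] at h1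
    rw [e2] at h1
    exact h1
  · intro f hf
    have h1 := ha (WithLp.toLp 2 (0, hf.toLp f))
    have e : ∀ n, (inner ℝ (F (φ n)) (WithLp.toLp 2 (0, hf.toLp f)) : ℝ) =
        ∫ x, inner ℝ (G (φ n) x) (f x) := by
      intro n
      rw [WithLp.prod_inner_apply]
      simp only [inner_zero_right, zero_add]
      exact inner_toLp' (h (φ n)).2.1 hf
    have e2 : (inner ℝ a (WithLp.toLp 2 (0, hf.toLp f)) : ℝ) =
        ∫ x, inner ℝ ((a.snd : E N → E N) x) (f x) := by
      rw [WithLp.prod_inner_apply]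
      simp only [inner_zero_right, zero_add]
      rw [L2.inner_def]
      refine integral_congr_ae ?_
      filter_upwards [MemLp.coeFn_toLp hf] with x hx
      rw [hx]
      rfl
    simp only [e] at h1
    rw [e2] at h1
    exact h1

end Pool.Agent.Q62.PE
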